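import Pool.Agent.H68.Amp.Stmt

set_option autoImplicit false

/-! # The trace of the ultrapower -/

universe u

open Filter Topology H80VN
open scoped ComplexOrder

namespace Pool.Agent.H68.Amp

theorem UTr_norm_le {M : Type u} [CStarAlgebra M] {τ : M →ₗ[ℂ] ℂ} (h : Stmt.IsTracialVN τ)
    (x : M) : ‖τ x‖ ≤ Stmt.norm2 τ x := @norm_tr_le_n2 M _ (toTracialVN h) x

theorem UTr_norm2_le {M : Type u} [CStarAlgebra M] {τ : M →ₗ[ℂ] ℂ} (h : Stmt.IsTracialVN τ)
    (x : M) : Stmt.norm2 τ x ≤ ‖x‖ := @n2_le_norm M _ (toTracialVN h) x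

theorem UTr_exists_lim {M : Type u} [CStarAlgebra M] {τ : M →ₗ[ℂ] ℂ} (h : Stmt.IsTracialVN τ)
    (ω : Ultrafilter ℕ) (x : Bdd M) :
    ∃ z : ℂ, Tendsto (fun k => τ (x.1 k)) (ω : Filter ℕ) (𝓝 z) := by
  obtain ⟨C, hC⟩ := x.2
  have h1 : ∀ k, τ (x.1 k) ∈ Metric.closedBall (0 : ℂ) C := fun k => by
    rw [mem_closedBall_zero_iff]
    exact (UTr_norm_le h _).trans ((UTr_norm2_le h _).trans (hC k))
  obtain ⟨z, -, hz⟩ := (isCompact_closedBall (0 : ℂ) C).ultrafilter_le_nhds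
    (ω.map fun k => τ (x.1 k)) (by
      rw [Filter.le_principal_iff]
      show (fun k => τ (x.1 k)) ⁻¹' Metric.closedBall (0 : ℂ) C ∈ ω
      exact Filter.mem_of_superset Filter.univ_mem fun k _ => h1 k)
  exact ⟨z, hz⟩

theorem exists_utr {M : Type u} [CStarAlgebra M] {τ : M →ₗ[ℂ] ℂ} (h : Stmt.IsTracialVN τ)
    (ω : Ultrafilter ℕ) :
    ∃ t : Ultra h (ω : Filter ℕ) →ₗ[ℂ] ℂ,
      (∀ x : Bdd M, Tendsto (fun k => τ (x.1 k)) (ω : Filter ℕ) (𝓝 (t (Ultra.mk h ω x)))) ∧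
      t 1 = 1 ∧ (∀ a b, t (a * b) = t (b * a)) ∧
      ∀ a, ∃ r : ℝ, 0 ≤ r ∧ t (star a * a) = r := by
  have hsurj : ∀ a : Ultra h (ω : Filter ℕ), ∃ x : Bdd M, Ultra.mk h (ω : Filter ℕ) x = a :=
    Ideal.Quotient.mk_surjective
  choose L hL using UTr_exists_lim h ω
  choose s hs using hsurj
  have hwd : ∀ x y : Bdd M, Ultra.mk h (ω : Filter ℕ) x = Ultra.mk h (ω : Filter ℕ) y →
      L x = L y := by
    intro x y hxy
    rw [Ideal.Quotient.eq, mem_ultraIdeal] at hxy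
    have h1 : Tendsto (fun k => τ ((x - y).1 k)) (ω : Filter ℕ) (𝓝 0) := by
      rw [tendsto_zero_iff_norm_tendsto_zero]
      exact squeeze_zero (fun k => norm_nonneg _) (fun k => UTr_norm_le h _) hxy
    have h2 : Tendsto (fun k => τ ((x - y).1 k)) (ω : Filter ℕ) (𝓝 (L x - L y)) := by
      have h3 := (hL x).sub (hL y)
      refine h3.congr fun k => ?_
      rw [← map_sub]
      rfl
    exact sub_eq_zero.1 (tendsto_nhds_unique h2 h1)
  have hLim : ∀ x : Bdd M, Tendsto (fun k => τ (x.1 k)) (ω : Filter ℕ)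
      (𝓝 (L (s (Ultra.mk h (ω : Filter ℕ) x)))) := fun x => by
    have h1 := hwd (s (Ultra.mk h (ω : Filter ℕ) x)) x (hs _)
    rw [h1]
    exact hL x
  have key : ∀ (x : Bdd M) (z : ℂ), Tendsto (fun k => τ (x.1 k)) (ω : Filter ℕ) (𝓝 z) →
      L (s (Ultra.mk h (ω : Filter ℕ) x)) = z := fun x z hz => tendsto_nhds_unique (hLim x) hz
  let t : Ultra h (ω : Filter ℕ) →ₗ[ℂ] ℂ :=
    { toFun := fun a => L (s a)
      map_add' := fun a b => by
        obtain ⟨x, rfl⟩ := Ideal.Quotient.mk_surjective a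
        obtain ⟨y, rfl⟩ := Ideal.Quotient.mk_surjective b
        have h1 := (hLim x).add (hLim y)
        have h2 := key (x + y) _ (h1.congr fun k => by rw [← map_add]; rfl)
        rw [map_add] at h2
        exact h2
      map_smul' := fun c a => by
        obtain ⟨x, rfl⟩ := Ideal.Quotient.mk_surjective a
        have h1 := (hLim x).const_smul c
        have h2 := key (c • x) _ (h1.congr fun k => by rw [← map_smul]; rfl)
        exact h2 }
  have ht : ∀ x : Bdd M, t (Ultra.mk h (ω : Filter ℕ) x) =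
    L (s (Ultra.mk h (ω : Filter ℕ) x)) := fun _ => rfl
  refine ⟨t, fun x => hLim x, ?_, ?_, ?_⟩
  · have h1 : (1 : Ultra h (ω : Filter ℕ)) = Ultra.mk h (ω : Filter ℕ) 1 := (map_one _).symm
    rw [h1, ht]
    refine key 1 1 ?_
    show Tendsto (fun _ : ℕ => τ 1) (ω : Filter ℕ) (𝓝 1)
    rw [h.one]
    exact tendsto_const_nhds
  · intro a b
    obtain ⟨x, rfl⟩ := Ideal.Quotient.mk_surjective a
    obtain ⟨y, rfl⟩ := Ideal.Quotient.mk_surjective b
    show t (Ultra.mk h (ω : Filter ℕ) x * Ultra.mk h (ω : Filter ℕ) y) =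
      t (Ultra.mk h (ω : Filter ℕ) y * Ultra.mk h (ω : Filter ℕ) x)
    rw [← map_mul, ← map_mul, ht, ht]
    refine key _ _ ((hLim (y * x)).congr fun k => ?_)
    exact h.tracial _ _
  · intro a
    obtain ⟨x, rfl⟩ := Ideal.Quotient.mk_surjective a
    have h1 := hLim (star x * x)
    have h2 : ∀ k, τ ((star x * x : Bdd M).1 k) ∈ {z : ℂ | 0 ≤ z.re ∧ z.im = 0} := by
      intro k
      have h3 : (0 : ℂ) ≤ τ (star (x.1 k) * x.1 k) := by
        obtain ⟨H, _, _, _, A, π, ξ, hr⟩ := h.normal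
        exact rep_nonneg hr _
      have h4 := Complex.le_def.1 h3
      exact ⟨h4.1, h4.2.symm⟩
    have h5 : IsClosed {z : ℂ | 0 ≤ z.re ∧ z.im = 0} :=
      (isClosed_le continuous_const Complex.continuous_re).inter
        (isClosed_eq Complex.continuous_im continuous_const)
    have h6 := h5.mem_of_tendsto h1 (Filter.Eventually.of_forall h2)
    refine ⟨_, h6.1, ?_⟩
    apply Complex.ext
    · rfl
    · exact h6.2

end Pool.Agent.H68.Amp
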