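import Pool.Agent.H80.VNDiffuse
import Pool.Agent.H80.VNBridge

set_option autoImplicit false

/-! # Uniqueness of the trace of a II₁ factor (no normality assumed) -/

universe u

open Filter Topology H80VN

namespace Pool.Agent.H68.Amp

section UniqTr

attribute [local instance] CStarAlgebra.spectralOrder CStarAlgebra.spectralOrderedRing

open scoped ComplexOrder

variable {M : Type u} [CStarAlgebra M]

theorem UniqTr_nonneg {f : M →ₗ[ℂ] ℂ} (hpos : ∀ x, ∃ r : ℝ, 0 ≤ r ∧ f (star x * x) = r) {x : M}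
    (hx : 0 ≤ x) : 0 ≤ (f x).re ∧ (f x).im = 0 := by
  obtain ⟨y, rfl⟩ := CStarAlgebra.nonneg_iff_eq_star_mul_self.1 hx
  obtain ⟨r, hr, h⟩ := hpos y
  rw [h]
  exact ⟨by simpa using hr, by simp⟩

theorem UniqTr_mono {f : M →ₗ[ℂ] ℂ} (hpos : ∀ x, ∃ r : ℝ, 0 ≤ r ∧ f (star x * x) = r) {x y : M}
    (h : x ≤ y) : (f x).re ≤ (f y).re := by
  have h1 := (UniqTr_nonneg hpos (sub_nonneg.2 h)).1
  rw [map_sub, Complex.sub_re] at h1
  linarith

/-- An additive monotone function on `[0, 1]` is linear. -/
theorem UniqTr_additive {F : ℝ → ℝ}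
    (hmono : ∀ s t, 0 ≤ s → s ≤ t → t ≤ 1 → F s ≤ F t)
    (hadd : ∀ s t, 0 ≤ s → 0 ≤ t → s + t ≤ 1 → F (s + t) = F s + F t) {s : ℝ} (hs0 : 0 ≤ s)
    (hs1 : s ≤ 1) : F s = s * F 1 := by
  have h0 : F 0 = 0 := by
    have := hadd 0 0 le_rfl le_rfl (by norm_num)
    simp only [add_zero] at this
    linarith
  -- multiples
  have hmul : ∀ (N : ℕ), 0 < N → ∀ k : ℕ, k ≤ N → F (k / N) = k * F (1 / N) := by
    intro N hN k
    have hN' : (0 : ℝ) < N := by exact_mod_cast hN
    induction k with
    | zero => intro _; simp [h0]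
    | succ k ih =>
      intro hk
      have h1 : ((k + 1 : ℕ) : ℝ) / N = k / N + 1 / N := by push_cast; ring
      rw [h1, hadd _ _ (by positivity) (by positivity), ih (by omega)]
      · push_cast; ring
      · rw [← h1, div_le_one hN']
        exact_mod_cast hk
  have hone : ∀ N : ℕ, 0 < N → F (1 / N) = F 1 / N := by
    intro N hN
    have hN' : (0 : ℝ) < N := by exact_mod_cast hN
    have := hmul N hN N le_rfl
    rw [div_self hN'.ne'] at this
    rw [this]
    field_simp
  have hF1 : 0 ≤ F 1 := by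
    have := hmono 0 1 le_rfl zero_le_one le_rfl
    linarith
  have key : ∀ N : ℕ, 0 < N → |F s - s * F 1| ≤ F 1 / N := by
    intro N hN
    have hN' : (0 : ℝ) < N := by exact_mod_cast hN
    set k := ⌊s * N⌋₊ with hk
    have hk1 : (k : ℝ) ≤ s * N := Nat.floor_le (by positivity)
    have hk2 : s * N < k + 1 := Nat.lt_floor_add_one _
    have hkN : k ≤ N := by
      have : (k : ℝ) ≤ N := hk1.trans (by nlinarith)
      exact_mod_cast this
    have hks : (k : ℝ) / N ≤ s := by rw [div_le_iff₀ hN']; exact hk1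
    have hlow : F (k / N) ≤ F s := hmono _ _ (by positivity) hks hs1
    rw [hmul N hN k hkN, hone N hN] at hlow
    have hlow' : (k : ℝ) * (F 1 / N) ≤ s * F 1 := by
      have : (k : ℝ) * (F 1 / N) = k / N * F 1 := by ring
      rw [this]
      exact mul_le_mul_of_nonneg_right hks hF1
    rcases Nat.lt_or_ge k N with hlt | hge
    · have hsk : s ≤ ((k + 1 : ℕ) : ℝ) / N := by
        rw [le_div_iff₀ hN']
        push_cast
        exact hk2.le
      have hup : F s ≤ F (((k + 1 : ℕ) : ℝ) / N) := hmono _ _ hs0 hsk (by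
        rw [div_le_one hN']; exact_mod_cast hlt)
      rw [hmul N hN (k + 1) hlt, hone N hN] at hup
      have hup' : s * F 1 ≤ ((k + 1 : ℕ) : ℝ) * (F 1 / N) := by
        have : ((k + 1 : ℕ) : ℝ) * (F 1 / N) = ((k + 1 : ℕ) : ℝ) / N * F 1 := by ring
        rw [this]
        exact mul_le_mul_of_nonneg_right hsk hF1
      push_cast at hup hup'
      rw [abs_le]
      constructor <;> nlinarith
    · have hkN' : k = N := le_antisymm hkN hge
      have hs : s = 1 := by
        apply le_antisymm hs1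
        rw [hkN', div_self hN'.ne'] at hks
        exact hks
      rw [hs, one_mul, sub_self, abs_zero]
      positivity
  have h2 : |F s - s * F 1| ≤ 0 := by
    refine le_of_forall_pos_le_add fun ε hε => ?_
    rw [zero_add]
    obtain ⟨N, hN⟩ := exists_nat_gt (F 1 / ε)
    have hN0 : (0 : ℝ) ≤ F 1 / ε := by positivity
    have hN' : (0 : ℝ) < N := lt_of_le_of_lt hN0 hN
    refine (key N (by exact_mod_cast hN')).trans ?_
    rw [div_le_iff₀ hN']
    rw [div_lt_iff₀ hε] at hN
    linarith
  have h3 := abs_nonpos_iff.1 h2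
  linarith

section

variable [TracialVN M]

theorem UniqTr_proj_le (hM : IsFactor M) {f : M →ₗ[ℂ] ℂ} (hf : ∀ x y, f (x * y) = f (y * x))
    (hpos : ∀ x, ∃ r : ℝ, 0 ≤ r ∧ f (star x * x) = r) {p q : M} (hp : Proj p) (hq : Proj q)
    (hpq : rt p ≤ rt q) : (f p).re ≤ (f q).re := by
  obtain ⟨v, hv, hqv⟩ := exists_comparison hM hp hq hpq
  have hvp : v * p = v := by
    have h1 : v * (1 - p) = 0 := by
      apply eq_zero_of_ssm
      rw [star_mul, hp.one_sub.star_eq]
      calc (1 - p) * star v * (v * (1 - p)) = (1 - p) * (star v * v) * (1 - p) := by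
            simp only [mul_assoc]
        _ = 0 := by
          rw [hv, sub_mul, one_mul, hp.mul_self, sub_self, zero_mul]
    rw [mul_sub, mul_one, sub_eq_zero] at h1
    exact h1.symm
  have hvpi : PI v := by
    unfold PI
    rw [mul_assoc, hv, hvp]
  have hr := hvpi.proj_left
  have hrq : v * star v * q = v * star v := by
    have h1 : star v * q = star v := by
      have := congrArg star hqv
      rwa [star_mul, hq.star_eq] at this
    rw [mul_assoc, h1]
  have hd := hr.sub hq hrq
  have h2 : f p = f (v * star v) := by rw [← hv, hf]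
  have h3 : 0 ≤ (f (q - v * star v)).re := by
    obtain ⟨r, hr0, hr1⟩ := hpos (q - v * star v)
    rw [hd.star_eq, hd.mul_self] at hr1
    rw [hr1]
    simpa using hr0
  rw [map_sub, Complex.sub_re] at h3
  rw [h2]
  linarith

theorem UniqTr_proj (hM : IsFactor M) (hinf : ¬ FiniteDimensional ℂ M) {f : M →ₗ[ℂ] ℂ}
    (hf : ∀ x y, f (x * y) = f (y * x))
    (hpos : ∀ x, ∃ r : ℝ, 0 ≤ r ∧ f (star x * x) = r) {p : M} (hp : Proj p) :
    (f p).re = rt p * (f 1).re := by
  classical
  have hex : ∀ s : ℝ, ∃ q : M, (0 ≤ s → s ≤ 1 → Proj q ∧ rt q = s) := by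
    intro s
    by_cases hs : 0 ≤ s ∧ s ≤ 1
    · obtain ⟨q, hq, _, hqs⟩ := exists_darboux hM hinf (q := (1 : M)) Proj.one hs.1
        (by rw [rt_one]; exact hs.2)
      exact ⟨q, fun _ _ => ⟨hq, hqs⟩⟩
    · exact ⟨0, fun h0 h1 => absurd ⟨h0, h1⟩ hs⟩
  choose Q hQ using hex
  have hF : ∀ q : M, Proj q → (f q).re = (f (Q (rt q))).re := by
    intro q hq
    obtain ⟨h1, h2⟩ := hQ (rt q) hq.rt_nonneg hq.rt_le_one
    exact le_antisymm (UniqTr_proj_le hM hf hpos hq h1 h2.ge)
      (UniqTr_proj_le hM hf hpos h1 hq h2.le)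
  have hlin := UniqTr_additive (F := fun s => (f (Q s)).re)
    (by
      intro s t hs hst ht
      obtain ⟨h1, h2⟩ := hQ s hs (hst.trans ht)
      obtain ⟨h3, h4⟩ := hQ t (hs.trans hst) ht
      exact UniqTr_proj_le hM hf hpos h1 h3 (by rw [h2, h4]; exact hst))
    (by
      intro s t hs ht hst
      obtain ⟨h1, h2⟩ := hQ (s + t) (by linarith) hst
      obtain ⟨r, hr, hrq, hrs⟩ := exists_darboux hM hinf h1 hs (by rw [h2]; linarith)
      have hd := hr.sub h1 hrq
      have hdt : rt (Q (s + t) - r) = t := by rw [rt_sub, h2, hrs]; ring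
      have h5 : (f (Q (s + t))).re = (f r).re + (f (Q (s + t) - r)).re := by
        rw [map_sub, Complex.sub_re]; ring
      show (f (Q (s + t))).re = (f (Q s)).re + (f (Q t)).re
      rw [h5, hF r hr, hF _ hd, hrs, hdt])
    hp.rt_nonneg hp.rt_le_one
  have h1 : (f (Q 1)).re = (f 1).re := by
    have := hF 1 Proj.one
    rw [rt_one] at this
    exact this.symm
  have h2 := hF p hp
  rw [h2, hlin, h1]

/-- The pieces of the layer cake decomposition. -/
noncomputable def UniqTr_clip (N : ℕ) (j : ℕ) (t : ℝ) : ℝ := max 0 (min 1 (N * t - j))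

theorem UniqTr_continuous_clip (N j : ℕ) : Continuous (UniqTr_clip N j) := by
  unfold UniqTr_clip
  fun_prop

theorem UniqTr_clip_nonneg (N j : ℕ) (t : ℝ) : 0 ≤ UniqTr_clip N j t := le_max_left _ _

theorem UniqTr_clip_le_one (N j : ℕ) (t : ℝ) : UniqTr_clip N j t ≤ 1 :=
  max_le zero_le_one (min_le_left _ _)

theorem UniqTr_sum_clip (N : ℕ) (t : ℝ) (h0 : 0 ≤ t) (m : ℕ) :
    ∑ j ∈ Finset.range m, UniqTr_clip N j t = min (N * t) m := by
  induction m with
  | zero =>
    simp only [Finset.range_zero, Finset.sum_empty, Nat.cast_zero]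
    rw [min_eq_right (by positivity)]
  | succ m ih =>
    rw [Finset.sum_range_succ, ih]
    unfold UniqTr_clip
    push_cast
    rcases le_total (N * t) m with h | h
    · rw [min_eq_left h, min_eq_left (show (N : ℝ) * t ≤ m + 1 by linarith), max_eq_left, add_zero]
      exact (min_le_right _ _).trans (by linarith)
    · rw [min_eq_right h, max_eq_right (le_min zero_le_one (by linarith))]
      rcases le_total (N * t) (m + 1) with h' | h'
      · rw [min_eq_left h', min_eq_right (show (N : ℝ) * t - m ≤ 1 by linarith)]; ring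
      · rw [min_eq_right h', min_eq_left (show (1 : ℝ) ≤ N * t - m by linarith)]

theorem UniqTr_contraction (hM : IsFactor M) (hinf : ¬ FiniteDimensional ℂ M) {f : M →ₗ[ℂ] ℂ}
    (hf : ∀ x y, f (x * y) = f (y * x))
    (hpos : ∀ x, ∃ r : ℝ, 0 ≤ r ∧ f (star x * x) = r) {h : M} (h0 : 0 ≤ h) (h1 : ‖h‖ ≤ 1) :
    f h = f 1 * tr h := by
  have hsa : star h = h := (IsSelfAdjoint.of_nonneg h0).star_eq
  have hf1 : 0 ≤ (f 1).re := (UniqTr_nonneg hpos zero_le_one).1
  choose E hE using fun a => exists_spec h a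
  have hrt0 : 0 ≤ rt h := (Complex.le_def.1 (tr_nonneg' h0)).1
  have key : ∀ N : ℕ, 0 < N → |(f h).re - (f 1).re * rt h| ≤ (f 1).re / N := by
    intro N hN
    have hN' : (0 : ℝ) < N := by exact_mod_cast hN
    -- decomposition
    have hdec : (N : ℝ) • h = ∑ j ∈ Finset.range N, cfc (UniqTr_clip N j) h := by
      have e1 : (N : ℝ) • h = cfc (fun t : ℝ => (N : ℝ) * t) h := by
        rw [cfc_const_mul (N : ℝ) (fun t : ℝ => t) h continuous_id.continuousOn, fc_id hsa]
      have e2 : cfc (fun t : ℝ => (N : ℝ) * t) h =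
          cfc (∑ j ∈ Finset.range N, UniqTr_clip N j) h := by
        refine cfc_congr fun t ht => ?_
        have ht0 : 0 ≤ t := spectrum_nonneg_of_nonneg h0 ht
        have ht1 : t ≤ 1 := (le_abs_self t).trans ((spec_abs_le ht).trans h1)
        simp only [Finset.sum_apply]
        rw [UniqTr_sum_clip N t ht0 N, min_eq_left]
        nlinarith
      rw [e1, e2, cfc_sum _ _ _ (fun j _ => (UniqTr_continuous_clip N j).continuousOn)]
    -- order bounds
    have hup : ∀ j, cfc (UniqTr_clip N j) h ≤ E ((j : ℝ) / N) := by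
      intro j
      have hc := UniqTr_continuous_clip N j
      have e1 : cfc (UniqTr_clip N j) h * E ((j : ℝ) / N) = cfc (UniqTr_clip N j) h :=
        (hE _).le₀ hc fun t ht => by
          unfold UniqTr_clip
          rw [max_eq_left]
          refine (min_le_right _ _).trans ?_
          rw [le_div_iff₀ hN'] at ht
          linarith
      have e2 : E ((j : ℝ) / N) * cfc (UniqTr_clip N j) h = cfc (UniqTr_clip N j) h := by
        rw [(hE _).comm_fc, e1]
      have e3 : cfc (UniqTr_clip N j) h ≤ 1 := by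
        have := cfc_mono (R := ℝ) (a := h) (f := UniqTr_clip N j) (g := fun _ => 1)
          (fun t _ => UniqTr_clip_le_one N j t) hc.continuousOn continuous_const.continuousOn
        rwa [fc_const hsa, one_smul] at this
      have e4 := star_left_conjugate_le_conjugate e3 (E ((j : ℝ) / N))
      rw [(hE _).proj.star_eq, mul_one, (hE _).proj.mul_self, e2, e1] at e4
      exact e4
    have hlow : ∀ j, E (((j + 1 : ℕ) : ℝ) / N) ≤ cfc (UniqTr_clip N j) h := by
      intro j
      have hc := UniqTr_continuous_clip N j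
      set P := E (((j + 1 : ℕ) : ℝ) / N) with hP
      have hPp : Proj P := (hE _).proj
      have e1 : cfc (UniqTr_clip N j) h * P = P := by
        have := (hE (((j + 1 : ℕ) : ℝ) / N)).ge (f := UniqTr_clip N j) (g := fun _ => 1) hc
          continuous_const fun t ht => by
            unfold UniqTr_clip
            rw [div_le_iff₀ hN'] at ht
            push_cast at ht
            rw [min_eq_left (by linarith), max_eq_right zero_le_one]
        rwa [fc_const hsa, one_smul, one_mul] at this
      have e2 : P * cfc (UniqTr_clip N j) h = P := by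
        rw [(hE _).comm_fc, e1]
      have e3 : 0 ≤ cfc (UniqTr_clip N j) h :=
        cfc_nonneg fun t _ => UniqTr_clip_nonneg N j t
      have e4 := star_left_conjugate_nonneg e3 (1 - P)
      rw [hPp.one_sub.star_eq] at e4
      have e5 : (1 - P) * cfc (UniqTr_clip N j) h * (1 - P) = cfc (UniqTr_clip N j) h - P := by
        rw [sub_mul, one_mul, e2, mul_sub, mul_one, sub_mul, e1, hPp.mul_self, sub_self, sub_zero]
      rw [e5] at e4
      exact sub_nonneg.1 e4
    -- real parts
    have hfN : (N : ℝ) * (f h).re = ∑ j ∈ Finset.range N, (f (cfc (UniqTr_clip N j) h)).re := by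
      have e1 := congrArg (fun y => (f y).re) hdec
      simp only [map_sum, Complex.re_sum] at e1
      rw [← e1]
      rw [← Complex.coe_smul, map_smul]
      simp
    have htN : (N : ℝ) * rt h = ∑ j ∈ Finset.range N, rt (cfc (UniqTr_clip N j) h) := by
      rw [← rt_smul, hdec, rt_sum]
    have f1 : ∀ j, (f (cfc (UniqTr_clip N j) h)).re ≤ rt (E ((j : ℝ) / N)) * (f 1).re := by
      intro j
      rw [← UniqTr_proj hM hinf hf hpos (hE _).proj]
      exact UniqTr_mono hpos (hup j)
    have f2 : ∀ j, rt (E (((j + 1 : ℕ) : ℝ) / N)) * (f 1).re ≤ (f (cfc (UniqTr_clip N j) h)).re := by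
      intro j
      rw [← UniqTr_proj hM hinf hf hpos (hE _).proj]
      exact UniqTr_mono hpos (hlow j)
    have t1 : ∀ j, rt (cfc (UniqTr_clip N j) h) ≤ rt (E ((j : ℝ) / N)) := fun j =>
      tr_re_mono (hup j)
    have t2 : ∀ j, rt (E (((j + 1 : ℕ) : ℝ) / N)) ≤ rt (cfc (UniqTr_clip N j) h) := fun j =>
      tr_re_mono (hlow j)
    have htel : ∑ j ∈ Finset.range N, (rt (E ((j : ℝ) / N)) - rt (E (((j + 1 : ℕ) : ℝ) / N))) ≤ 1 := by
      rw [Finset.sum_range_sub' (fun j => rt (E ((j : ℝ) / N)))]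
      have a1 := (hE (((0 : ℕ) : ℝ) / N)).proj.rt_le_one
      have a2 := (hE (((N : ℕ) : ℝ) / N)).proj.rt_nonneg
      linarith
    have hA : (N : ℝ) * (f h).re - (f 1).re * (N * rt h) ≤ (f 1).re := by
      rw [hfN, htN, Finset.mul_sum, ← Finset.sum_sub_distrib]
      calc ∑ j ∈ Finset.range N, ((f (cfc (UniqTr_clip N j) h)).re -
            (f 1).re * rt (cfc (UniqTr_clip N j) h))
          ≤ ∑ j ∈ Finset.range N, (f 1).re *
            (rt (E ((j : ℝ) / N)) - rt (E (((j + 1 : ℕ) : ℝ) / N))) := by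
            refine Finset.sum_le_sum fun j _ => ?_
            have := mul_le_mul_of_nonneg_left (t2 j) hf1
            have := f1 j
            nlinarith
        _ = (f 1).re * ∑ j ∈ Finset.range N,
            (rt (E ((j : ℝ) / N)) - rt (E (((j + 1 : ℕ) : ℝ) / N))) := by rw [Finset.mul_sum]
        _ ≤ (f 1).re * 1 := by gcongr
        _ = (f 1).re := mul_one _
    have hB : (f 1).re * (N * rt h) - (N : ℝ) * (f h).re ≤ (f 1).re := by
      rw [hfN, htN, Finset.mul_sum, ← Finset.sum_sub_distrib]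
      calc ∑ j ∈ Finset.range N, ((f 1).re * rt (cfc (UniqTr_clip N j) h) -
            (f (cfc (UniqTr_clip N j) h)).re)
          ≤ ∑ j ∈ Finset.range N, (f 1).re *
            (rt (E ((j : ℝ) / N)) - rt (E (((j + 1 : ℕ) : ℝ) / N))) := by
            refine Finset.sum_le_sum fun j _ => ?_
            have := mul_le_mul_of_nonneg_left (t1 j) hf1
            have := f2 j
            nlinarith
        _ = (f 1).re * ∑ j ∈ Finset.range N,
            (rt (E ((j : ℝ) / N)) - rt (E (((j + 1 : ℕ) : ℝ) / N))) := by rw [Finset.mul_sum]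
        _ ≤ (f 1).re * 1 := by gcongr
        _ = (f 1).re := mul_one _
    rw [abs_le]
    constructor
    · have e : (f h).re - (f 1).re * rt h + (f 1).re / N =
          (N * (f h).re - (f 1).re * (N * rt h) + (f 1).re) / N := by
        field_simp
      have e' : 0 ≤ (f h).re - (f 1).re * rt h + (f 1).re / N := by
        rw [e]
        apply div_nonneg _ hN'.le
        linarith
      linarith
    · rw [le_div_iff₀ hN']
      nlinarith
  have h2 : |(f h).re - (f 1).re * rt h| ≤ 0 := by
    refine le_of_forall_pos_le_add fun ε hε => ?_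
    rw [zero_add]
    obtain ⟨N, hN⟩ := exists_nat_gt ((f 1).re / ε)
    have hN0 : (0 : ℝ) ≤ (f 1).re / ε := by positivity
    have hN' : (0 : ℝ) < N := lt_of_le_of_lt hN0 hN
    refine (key N (by exact_mod_cast hN')).trans ?_
    rw [div_le_iff₀ hN']
    rw [div_lt_iff₀ hε] at hN
    linarith
  have h3 : (f h).re = (f 1).re * rt h := by
    have := abs_nonpos_iff.1 h2
    linarith
  have h4 := (UniqTr_nonneg hpos h0).2
  have h5 := (UniqTr_nonneg hpos (zero_le_one (α := M))).2
  have h6 : tr h = ((rt h : ℝ) : ℂ) := tr_eq_rt hsa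
  rw [h6]
  apply Complex.ext
  · simp [h3]
  · simp [h4, h5]

end

end UniqTr

theorem unique_trace {M : Type u} [CStarAlgebra M] {τ : M →ₗ[ℂ] ℂ} (h : Stmt.IsII1Factor τ)
    (f : M →ₗ[ℂ] ℂ) (hf : ∀ x y, f (x * y) = f (y * x))
    (hpos : ∀ x, ∃ r : ℝ, 0 ≤ r ∧ f (star x * x) = r) (x : M) : f x = f 1 * τ x := by
  let _ : TracialVN M := toTracialVN h.1
  let _ : PartialOrder M := CStarAlgebra.spectralOrder M
  have _ : StarOrderedRing M := CStarAlgebra.spectralOrderedRing M
  have hM : IsFactor M := h.2.1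
  have hinf := h.2.2
  have hspan := CStarAlgebra.span_nonneg_inter_unitClosedBall (A := M)
  have hx : x ∈ Submodule.span ℂ ({x : M | 0 ≤ x} ∩ Metric.closedBall 0 1) := by
    rw [hspan]; exact Submodule.mem_top
  have key : ∀ y ∈ ({x : M | 0 ≤ x} ∩ Metric.closedBall 0 1), f y = (f 1 • τ) y := by
    intro y hy
    have h1 : 0 ≤ y := hy.1
    have h2 : ‖y‖ ≤ 1 := by simpa using hy.2
    rw [LinearMap.smul_apply, smul_eq_mul]
    exact UniqTr_contraction hM hinf hf hpos h1 h2
  have := LinearMap.eqOn_span (f := f) (g := f 1 • τ) key hx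
  rw [LinearMap.smul_apply, smul_eq_mul] at this
  exact this

end Pool.Agent.H68.Amp
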