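import Pool.Agent.H68.Amp.Stmt

set_option autoImplicit false

/-!
# Ultrapowers of tracial von Neumann algebras, and corners

The definitions used in the statement on `MP_08ffb4_an`. Tracial von Neumann algebras
(`H80VN.Stmt.IsTracialVN`) and II₁ factors (`H80VN.Stmt.IsII1Factor`) are defined in
`Pool.Agent.H80.VNStmt`.
-/

universe u

open Filter Topology H80VN

namespace Pool.Agent.H68.Amp

/-- A II₁ factor is a tracial von Neumann algebra. -/
theorem vn {M : Type u} [CStarAlgebra M] {τ : M →ₗ[ℂ] ℂ} (h : Stmt.IsII1Factor τ) :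
    Stmt.IsTracialVN τ := h.1

/-- `ℓ^∞(ℕ, M)`: the norm bounded sequences in `M` (with entrywise operations). -/
def LInf (M : Type u) [CStarAlgebra M] : Type u := {x : ℕ → M // x ∈ Bdd M}

/-- The entries of a bounded sequence. -/
def LInf.seq {M : Type u} [CStarAlgebra M] (x : LInf M) : ℕ → M := x.1

section

variable (M : Type u) [CStarAlgebra M]

noncomputable instance : Ring (LInf M) := SubringClass.toRing (Bdd M)

noncomputable instance : StarRing (LInf M) := (Bdd M).starRing

noncomputable instance : Algebra ℂ (LInf M) := (Bdd M).algebra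

instance : StarModule ℂ (LInf M) := StarSubalgebra.starModule (Bdd M)

end

variable {M : Type u} [CStarAlgebra M]

/-- `x` is a null sequence: `lim_ω ‖x_k‖₂ = 0`, where `‖x‖₂ = τ (x⋆ x) ^ (1/2)`. -/
def IsNull (τ : M →ₗ[ℂ] ℂ) (ω : Filter ℕ) (x : LInf M) : Prop :=
  Tendsto (fun k => Stmt.norm2 τ (x.seq k)) ω (𝓝 0)

section

variable {τ : M →ₗ[ℂ] ℂ} (h : Stmt.IsTracialVN τ) (ω : Filter ℕ)
include h

theorem isNull_add {x y : LInf M} (hx : IsNull τ ω x) (hy : IsNull τ ω y) :
    IsNull τ ω (x + y) := (ultraIdeal h ω).add_mem' hx hy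

theorem isNull_zero : IsNull τ ω (0 : LInf M) := (ultraIdeal h ω).zero_mem'

theorem isNull_mul (c : LInf M) {x : LInf M} (hx : IsNull τ ω x) : IsNull τ ω (c * x) :=
  (ultraIdeal h ω).smul_mem' c hx

theorem isNull_mul_right {x : LInf M} (c : LInf M) (hx : IsNull τ ω x) : IsNull τ ω (x * c) :=
  (ultraIdeal h ω).mul_mem_right (show Bdd M from c) hx

theorem isNull_star_sub {x y : LInf M} (hx : IsNull τ ω (x - y)) : IsNull τ ω (star x - star y) := by
  refine hx.congr fun k => ?_
  show Stmt.norm2 τ (x.1 k - y.1 k) = Stmt.norm2 τ (star (x.1 k) - star (y.1 k))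
  rw [← star_sub, norm2_star h]

end

/-- The ideal of the null sequences. -/
def NullIdeal {τ : M →ₗ[ℂ] ℂ} (h : Stmt.IsTracialVN τ) (ω : Filter ℕ) : Ideal (LInf M) where
  carrier := {x | IsNull τ ω x}
  add_mem' := fun hx hy => isNull_add h ω hx hy
  zero_mem' := isNull_zero h ω
  smul_mem' := fun c _ hx => isNull_mul h ω c hx

instance NullIdeal.isTwoSided {τ : M →ₗ[ℂ] ℂ} (h : Stmt.IsTracialVN τ) (ω : Filter ℕ) :
    (NullIdeal h ω).IsTwoSided where
  mul_mem_of_left := fun c hx => isNull_mul_right h ω c hx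

/-- The ultrapower `M^ω`: the quotient of `ℓ^∞(ℕ, M)` by the ideal of the null sequences. -/
def UPow {τ : M →ₗ[ℂ] ℂ} (h : Stmt.IsTracialVN τ) (ω : Filter ℕ) : Type u :=
  LInf M ⧸ NullIdeal h ω

section

variable {τ : M →ₗ[ℂ] ℂ} (h : Stmt.IsTracialVN τ) (ω : Filter ℕ)

noncomputable instance : Ring (UPow h ω) := Ideal.Quotient.ring (NullIdeal h ω)

noncomputable instance : Algebra ℂ (UPow h ω) := Ideal.Quotient.algebra ℂ (I := NullIdeal h ω)

/-- The quotient map, from bounded sequences to the ultrapower. -/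
noncomputable def UPow.mk : LInf M →+* UPow h ω := Ideal.Quotient.mk (NullIdeal h ω)

theorem UPow.mk_surjective : Function.Surjective (UPow.mk h ω) := Ideal.Quotient.mk_surjective

theorem UPow.mk_eq {x y : LInf M} : UPow.mk h ω x = UPow.mk h ω y ↔ IsNull τ ω (x - y) :=
  Ideal.Quotient.eq

/-- The involution of the ultrapower: it maps the class of a sequence `(x_k)` to the class of
`(x_k⋆)`, see `UPow.star_mk`. -/
noncomputable instance : Star (UPow h ω) where
  star a := UPow.mk h ω (star (Function.surjInv (UPow.mk_surjective h ω) a))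

theorem UPow.star_mk (x : LInf M) : star (UPow.mk h ω x) = UPow.mk h ω (star x) :=
  (UPow.mk_eq h ω).2 (isNull_star_sub h ω ((UPow.mk_eq h ω).1
    (Function.surjInv_eq (UPow.mk_surjective h ω) _)))

noncomputable instance : StarRing (UPow h ω) where
  star_involutive := by
    intro a
    obtain ⟨x, rfl⟩ := UPow.mk_surjective h ω a
    rw [UPow.star_mk, UPow.star_mk, star_star]
  star_mul := by
    intro a b
    obtain ⟨x, rfl⟩ := UPow.mk_surjective h ω a
    obtain ⟨y, rfl⟩ := UPow.mk_surjective h ω b
    rw [← map_mul, UPow.star_mk, UPow.star_mk, UPow.star_mk, star_mul, map_mul]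
  star_add := by
    intro a b
    obtain ⟨x, rfl⟩ := UPow.mk_surjective h ω a
    obtain ⟨y, rfl⟩ := UPow.mk_surjective h ω b
    rw [← map_add, UPow.star_mk, UPow.star_mk, UPow.star_mk, star_add, map_add]

theorem UPow.mk_smul (c : ℂ) (x : LInf M) : UPow.mk h ω (c • x) = c • UPow.mk h ω x := rfl

instance : StarModule ℂ (UPow h ω) where
  star_smul := by
    intro c a
    obtain ⟨x, rfl⟩ := UPow.mk_surjective h ω a
    rw [← UPow.mk_smul, UPow.star_mk, UPow.star_mk, star_smul]
    exact UPow.mk_smul h ω _ _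

end

/-- `p` is a projection. -/
structure IsProj {R : Type u} [Ring R] [StarRing R] (p : R) : Prop where
  sa : star p = p
  idem : p * p = p

section corner

variable {R : Type u} [Ring R] [StarRing R] [Algebra ℂ R] [StarModule ℂ R]

/-- The corner `p R p` of a ⋆-algebra `R`, for a projection `p`, as a ⋆-subalgebra. -/
def corner (p : R) (hp : IsProj p) : NonUnitalStarSubalgebra ℂ R where
  carrier := {a | p * a * p = a}
  zero_mem' := by
    show p * 0 * p = 0
    rw [mul_zero, zero_mul]
  add_mem' := by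
    intro a b ha hb
    show p * (a + b) * p = a + b
    have ha' : p * a * p = a := ha
    have hb' : p * b * p = b := hb
    rw [mul_add, add_mul, ha', hb']
  mul_mem' := by
    intro a b ha hb
    have ha' : p * a * p = a := ha
    have hb' : p * b * p = b := hb
    show p * (a * b) * p = a * b
    have h1 : p * a = a := by rw [← ha', ← mul_assoc, ← mul_assoc, hp.idem]
    have h2 : b * p = b := by rw [← hb', mul_assoc, hp.idem]
    rw [← mul_assoc, h1, mul_assoc, h2]
  smul_mem' := by
    intro c a ha
    have ha' : p * a * p = a := ha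
    show p * (c • a) * p = c • a
    rw [mul_smul_comm, smul_mul_assoc, ha']
  star_mem' := by
    intro a ha
    have ha' : p * a * p = a := ha
    show p * star a * p = star a
    calc p * star a * p = star (p * a * p) := by
          rw [star_mul, star_mul, hp.sa, ← mul_assoc]
      _ = star a := by rw [ha']

/-- The corner `p R p = {a | p a p = a}` of a ⋆-algebra `R`, for a projection `p`. -/
def Crn (p : R) (hp : IsProj p) : Type u := {a : R // a ∈ corner p hp}

variable (p : R) (hp : IsProj p)

instance : NonUnitalRing (Crn p hp) := (corner p hp).toNonUnitalRing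

instance : Module ℂ (Crn p hp) := (corner p hp).instModule

instance : Star (Crn p hp) := StarMemClass.instStar (corner p hp)

/-- The unit `p` of the corner. -/
def Crn.unit : Crn p hp := ⟨p, by
  show p * p * p = p
  rw [hp.idem, hp.idem]⟩

/-- There is a ⋆-homomorphism from the corner `p R p` to `Q` which maps the unit `p` to `1`. -/
def CrnEmbeds (Q : Type u) [Ring Q] [StarRing Q] [Algebra ℂ Q] : Prop :=
  ∃ φ : Crn p hp →⋆ₙₐ[ℂ] Q, φ (Crn.unit p hp) = 1

end corner

/-- The matrix unit `e_11`. -/
def e11 (R : Type u) [Ring R] (n : ℕ) : Matrix (Fin (n + 1)) (Fin (n + 1)) R := Matrix.single 0 0 1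

/-- `p` is a projection in `M_{n+1}(R)` with `e_11 ≤ p` and `p ≠ e_11`. -/
structure BigProj {R : Type u} [Ring R] [StarRing R] {n : ℕ}
    (p : Matrix (Fin (n + 1)) (Fin (n + 1)) R) : Prop extends IsProj p where
  ge : p * e11 R n = e11 R n
  ne : p ≠ e11 R n

end Pool.Agent.H68.Amp
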