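import Pool.Agent.H68.Amp.RaagDefs

set_option autoImplicit false

/-! # Right-angled Artin groups: retractions, supports -/

open Set

namespace Pool.Agent.H68.Amp

variable {V : Type*} (Γ : SimpleGraph V)

open Classical in
/-- The retraction onto the parabolic subgroup of `A`. -/
noncomputable def ret (A : Set V) : Raag Γ →* Raag Γ :=
  raagLift Γ (fun v => if v ∈ A then gen Γ v else 1) (by
    intro u v huv
    split_ifs
    · exact gen_comm Γ huv
    · simp
    · simp
    · simp)

theorem ret_gen_mem {A : Set V} {v : V} (h : v ∈ A) : ret Γ A (gen Γ v) = gen Γ v := by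
  classical
  unfold ret
  rw [raagLift_gen, if_pos h]

theorem ret_gen_not {A : Set V} {v : V} (h : v ∉ A) : ret Γ A (gen Γ v) = 1 := by
  classical
  unfold ret
  rw [raagLift_gen, if_neg h]

/-- The generators generate. -/
theorem Raag1_mem_closure (g : Raag Γ) : g ∈ Subgroup.closure (Set.range (gen Γ)) := by
  have h : Subgroup.closure (Set.range (gen Γ)) = ⊤ :=
    PresentedGroup.closure_range_of (raagRels Γ)
  rw [h]
  exact Subgroup.mem_top g

theorem ret_mem (A : Set V) (g : Raag Γ) : ret Γ A g ∈ par Γ A := by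
  have h : Subgroup.closure (Set.range (gen Γ)) ≤ (par Γ A).comap (ret Γ A) := by
    rw [Subgroup.closure_le]
    rintro _ ⟨v, rfl⟩
    show ret Γ A (gen Γ v) ∈ par Γ A
    by_cases hv : v ∈ A
    · rw [ret_gen_mem Γ hv]
      exact gen_mem_par Γ hv
    · rw [ret_gen_not Γ hv]
      exact one_mem _
  exact h (Raag1_mem_closure Γ g)

theorem ret_eq_self {A : Set V} {g : Raag Γ} (h : g ∈ par Γ A) : ret Γ A g = g := by
  have h1 : par Γ A ≤ MonoidHom.eqLocus (ret Γ A) (MonoidHom.id (Raag Γ)) := by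
    unfold par
    rw [Subgroup.closure_le]
    rintro _ ⟨v, hv, rfl⟩
    exact ret_gen_mem Γ hv
  exact h1 h

theorem ret_mem_inter {A B : Set V} {g : Raag Γ} (h : g ∈ par Γ A) :
    ret Γ B g ∈ par Γ (A ∩ B) := by
  have h1 : par Γ A ≤ (par Γ (A ∩ B)).comap (ret Γ B) := by
    conv_lhs => unfold par
    rw [Subgroup.closure_le]
    rintro _ ⟨v, hv, rfl⟩
    show ret Γ B (gen Γ v) ∈ par Γ (A ∩ B)
    by_cases hb : v ∈ B
    · rw [ret_gen_mem Γ hb]
      exact gen_mem_par Γ ⟨hv, hb⟩
    · rw [ret_gen_not Γ hb]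
      exact one_mem _
  exact h1 h

theorem par_inter (A B : Set V) : par Γ A ⊓ par Γ B = par Γ (A ∩ B) := by
  apply le_antisymm
  · rintro g ⟨hA, hB⟩
    rw [← ret_eq_self Γ hB]
    exact ret_mem_inter Γ hA
  · exact le_inf (par_mono Γ inter_subset_left) (par_mono Γ inter_subset_right)

theorem exists_finite_support (g : Raag Γ) : ∃ F : Set V, F.Finite ∧ g ∈ par Γ F := by
  induction Raag1_mem_closure Γ g using Subgroup.closure_induction with
  | mem x hx =>
    obtain ⟨v, rfl⟩ := hx
    exact ⟨{v}, Set.finite_singleton v, gen_mem_par Γ (Set.mem_singleton v)⟩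
  | one => exact ⟨∅, Set.finite_empty, one_mem _⟩
  | mul x y _ _ hx hy =>
    obtain ⟨F, hF, hx⟩ := hx
    obtain ⟨F', hF', hy⟩ := hy
    exact ⟨F ∪ F', hF.union hF', mul_mem (par_mono Γ subset_union_left hx)
      (par_mono Γ subset_union_right hy)⟩
  | inv x _ hx =>
    obtain ⟨F, hF, hx⟩ := hx
    exact ⟨F, hF, inv_mem hx⟩

theorem exists_countable_support (Q : Set (Raag Γ)) (hQ : Q.Countable) :
    ∃ A : Set V, A.Countable ∧ ∀ g ∈ Q, g ∈ par Γ A := by
  choose F hF hg using exists_finite_support Γ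
  refine ⟨⋃ g ∈ Q, F g, hQ.biUnion fun g _ => (hF g).countable, fun g hgQ => ?_⟩
  exact par_mono Γ (Set.subset_biUnion_of_mem (u := fun g => F g) hgQ) (hg g)

theorem Raag1_countable_freeGroup (α : Type*) [Countable α] : Countable (FreeGroup α) := by
  have h : Function.Surjective (FreeGroup.mk : List (α × Bool) → FreeGroup α) := by
    intro x
    exact Quot.exists_rep x
  exact h.countable

theorem par_countable {A : Set V} (hA : A.Countable) : (par Γ A : Set (Raag Γ)).Countable := by
  have h1 : (gen Γ '' A).Countable := hA.image _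
  have h2 : Countable (gen Γ '' A) := h1.to_subtype
  have h3 : Countable (FreeGroup (gen Γ '' A)) := Raag1_countable_freeGroup _
  unfold par
  rw [FreeGroup.closure_eq_range, MonoidHom.coe_range]
  exact Set.countable_range _

/-- Generators have infinite order and are distinct. -/
theorem gen_zpow_eq_one {v : V} {n : ℤ} (h : gen Γ v ^ n = 1) : n = 0 := by
  classical
  let f : Raag Γ →* Multiplicative ℤ :=
    raagLift Γ (fun w => if w = v then Multiplicative.ofAdd 1 else 1)
      (fun _ _ _ => mul_comm _ _)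
  have h1 : f (gen Γ v ^ n) = 1 := by rw [h, map_one]
  have h2 : f (gen Γ v) = Multiplicative.ofAdd 1 := by
    show raagLift Γ _ _ (gen Γ v) = _
    rw [raagLift_gen, if_pos rfl]
  rw [map_zpow, h2, ← ofAdd_zsmul, smul_eq_mul, mul_one, ofAdd_eq_one] at h1
  exact h1

theorem gen_injective : Function.Injective (gen Γ) := by
  intro u v huv
  by_contra hne
  have h1 : ret Γ {u} (gen Γ u) = gen Γ u := ret_gen_mem Γ (Set.mem_singleton u)
  have h2 : ret Γ {u} (gen Γ v) = 1 := ret_gen_not Γ fun h => hne (Set.mem_singleton_iff.1 h).symm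
  rw [← huv, h1] at h2
  have h3 : gen Γ u ^ (1 : ℤ) = 1 := by rw [zpow_one, h2]
  exact absurd (gen_zpow_eq_one Γ h3) one_ne_zero

/-- If `h ∈ par T` is not in `par C'`, `C' ⊆ T`, then some letter of `T \ C'` occurs essentially. -/
theorem exists_essential {T C' : Set V} {h : Raag Γ} (hT : h ∈ par Γ T) (hC : h ∉ par Γ C')
    (hCT : C' ⊆ T) : ∃ β ∈ T, β ∉ C' ∧ h ∉ par Γ {v | v ≠ β} := by
  by_contra hne
  push Not at hne
  obtain ⟨F', hF', hh⟩ := exists_finite_support Γ h
  have hF : h ∈ par Γ (F' ∩ T) := by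
    rw [← par_inter]
    exact ⟨hh, hT⟩
  have key : ∀ S : Set V, S.Finite → S ⊆ T \ C' → h ∈ par Γ {v | v ∉ S} := by
    intro S hS
    induction S, hS using Set.Finite.induction_on with
    | empty =>
      intro _
      exact par_mono Γ (fun v _ => Set.notMem_empty v) hT
    | @insert a S _ _ ih =>
      intro hsub
      have h1 := ih ((Set.subset_insert a S).trans hsub)
      have h2 := hsub (Set.mem_insert a S)
      have h3 := hne a h2.1 h2.2
      have h4 : h ∈ par Γ ({v | v ∉ S} ∩ {v | v ≠ a}) := by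
        rw [← par_inter]
        exact ⟨h1, h3⟩
      refine par_mono Γ ?_ h4
      rintro v ⟨hv1, hv2⟩ hv
      rcases Set.mem_insert_iff.1 hv with h5 | h5
      · exact hv2 h5
      · exact hv1 h5
  have h1 := key ((F' ∩ T) \ C') ((hF'.inter_of_left T).sdiff) (fun v hv => ⟨hv.1.2, hv.2⟩)
  have h2 : h ∈ par Γ ((F' ∩ T) ∩ {v | v ∉ (F' ∩ T) \ C'}) := by
    rw [← par_inter]
    exact ⟨hF, h1⟩
  apply hC
  refine par_mono Γ ?_ h2
  rintro v ⟨hv1, hv2⟩
  by_contra hv
  exact hv2 ⟨hv1, hv⟩

end Pool.Agent.H68.Amp
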