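import Pool.Agent.H68.Amp.LG

set_option autoImplicit false
set_option linter.unusedSectionVars false

/-! # Approximate representations of `G` in a corner of the ultrapower of `L(G)` -/

open Filter Topology Cardinal

namespace Pool.Agent.H68.Amp

/-- A representation of `G` in a corner of trace `κ` of the ultrapower of `L(G)` along `ω`, with
regular character, given by bounded representing sequences. -/
structure ApproxRep (G : Type*) [Group G] (ω : Filter ℕ) (κ : ℝ) where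
  A : G → ℕ → (L2 G →L[ℂ] L2 G)
  lg : ∀ g k, IsLG (A g k)
  bdd : ∀ g, ∃ B : ℝ, ∀ k, ‖A g k‖ ≤ B
  mul : ∀ g h, Tendsto (fun k => ‖hat (A g k * A h k - A (g * h) k)‖) ω (𝓝 0)
  star_inv : ∀ g, Tendsto (fun k => ‖hat (star (A g k) - A g⁻¹ k)‖) ω (𝓝 0)
  tr_one : Tendsto (fun k => tra (A 1 k)) ω (𝓝 (κ : ℂ))
  tr_ne : ∀ g, g ≠ 1 → Tendsto (fun k => tra (A g k)) ω (𝓝 0)

section aux

variable {G : Type*} [Group G]

theorem Approx_hat_add (S T : L2 G →L[ℂ] L2 G) : hat (S + T) = hat S + hat T := rfl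

theorem Approx_hat_sub (S T : L2 G →L[ℂ] L2 G) : hat (S - T) = hat S - hat T := rfl

theorem Approx_hat_neg (S : L2 G →L[ℂ] L2 G) : hat (-S) = -hat S := rfl

theorem Approx_tra_sub (S T : L2 G →L[ℂ] L2 G) : tra (S - T) = tra S - tra T := by
  unfold tra
  rw [Approx_hat_sub, lp.coeFn_sub, Pi.sub_apply]

/-- `X_k → 0` in the trace norm. -/
def Approx_Z (ω : Filter ℕ) (X : ℕ → (L2 G →L[ℂ] L2 G)) : Prop :=
  Tendsto (fun k => ‖hat (X k)‖) ω (𝓝 0)

variable {ω : Filter ℕ} {X Y : ℕ → (L2 G →L[ℂ] L2 G)}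

theorem Approx_Z_add (hX : Approx_Z ω X) (hY : Approx_Z ω Y) :
    Approx_Z ω fun k => X k + Y k := by
  unfold Approx_Z at *
  have h := hX.add hY
  rw [add_zero] at h
  refine squeeze_zero (fun k => norm_nonneg _) (fun k => ?_) h
  rw [Approx_hat_add]
  exact norm_add_le _ _

theorem Approx_Z_neg (hX : Approx_Z ω X) : Approx_Z ω fun k => -X k := by
  unfold Approx_Z at *
  refine hX.congr fun k => ?_
  rw [Approx_hat_neg, norm_neg]

theorem Approx_Z_sub (hX : Approx_Z ω X) (hY : Approx_Z ω Y) :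
    Approx_Z ω fun k => X k - Y k := by
  have h := Approx_Z_add hX (Approx_Z_neg hY)
  simpa only [sub_eq_add_neg] using h

theorem Approx_Z_left (hX : Approx_Z ω X) (hY : ∃ B : ℝ, ∀ k, ‖Y k‖ ≤ B) :
    Approx_Z ω fun k => Y k * X k := by
  unfold Approx_Z at *
  obtain ⟨B, hB⟩ := hY
  have h := hX.const_mul B
  rw [mul_zero] at h
  refine squeeze_zero (fun k => norm_nonneg _) (fun k => ?_) h
  exact (norm_hat_mul_le_left _ _).trans
    (mul_le_mul_of_nonneg_right (hB k) (norm_nonneg _))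

theorem Approx_Z_right (hX : Approx_Z ω X) (hY : ∃ B : ℝ, ∀ k, ‖Y k‖ ≤ B)
    (lX : ∀ k, IsLG (X k)) (lY : ∀ k, IsLG (Y k)) :
    Approx_Z ω fun k => X k * Y k := by
  unfold Approx_Z at *
  obtain ⟨B, hB⟩ := hY
  have h := hX.const_mul B
  rw [mul_zero] at h
  refine squeeze_zero (fun k => norm_nonneg _) (fun k => ?_) h
  exact (norm_hat_mul_le_right (lX k) (lY k)).trans
    (mul_le_mul_of_nonneg_right (hB k) (norm_nonneg _))

theorem Approx_tra {c : ℂ} (h : Approx_Z ω fun k => X k - Y k)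
    (hY : Tendsto (fun k => tra (Y k)) ω (𝓝 c)) : Tendsto (fun k => tra (X k)) ω (𝓝 c) := by
  have h1 : Tendsto (fun k => tra (X k - Y k)) ω (𝓝 0) := by
    rw [tendsto_zero_iff_norm_tendsto_zero]
    exact squeeze_zero (fun k => norm_nonneg _) (fun k => norm_tra_le _) h
  have h2 := h1.add hY
  rw [zero_add] at h2
  refine h2.congr fun k => ?_
  rw [Approx_tra_sub]
  ring

theorem Approx_bdd_star (hX : ∃ B : ℝ, ∀ k, ‖X k‖ ≤ B) : ∃ B : ℝ, ∀ k, ‖star (X k)‖ ≤ B := by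
  obtain ⟨B, hB⟩ := hX
  refine ⟨B, fun k => le_of_eq_of_le ?_ (hB k)⟩
  exact LinearIsometryEquiv.norm_map (ContinuousLinearMap.adjoint (𝕜 := ℂ)) (X k)

theorem Approx_bdd_mul (hX : ∃ B : ℝ, ∀ k, ‖X k‖ ≤ B) (hY : ∃ B : ℝ, ∀ k, ‖Y k‖ ≤ B) :
    ∃ B : ℝ, ∀ k, ‖X k * Y k‖ ≤ B := by
  obtain ⟨B, hB⟩ := hX
  obtain ⟨C, hC⟩ := hY
  refine ⟨B * C, fun k => (norm_mul_le _ _).trans ?_⟩
  exact mul_le_mul (hB k) (hC k) (norm_nonneg _) ((norm_nonneg _).trans (hB k))

end aux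

namespace ApproxRep

variable {G : Type*} [Group G] {ω : Filter ℕ} {κ : ℝ} (R : ApproxRep G ω κ)

theorem Approx_star_mul (g h : G) :
    Approx_Z ω fun k => star (R.A g k) * R.A h k - R.A (g⁻¹ * h) k := by
  have h1 : Approx_Z ω fun k => (star (R.A g k) - R.A g⁻¹ k) * R.A h k :=
    Approx_Z_right (R.star_inv g) (R.bdd h)
      (fun k => ((R.lg g k).star).sub (R.lg g⁻¹ k)) (fun k => R.lg h k)
  have h2 := Approx_Z_add h1 (R.mul g⁻¹ h)
  have h3 : (fun k => star (R.A g k) * R.A h k - R.A (g⁻¹ * h) k) =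
      fun k => (star (R.A g k) - R.A g⁻¹ k) * R.A h k +
        (R.A g⁻¹ k * R.A h k - R.A (g⁻¹ * h) k) := by
    funext k
    rw [sub_mul]
    abel
  rw [h3]
  exact h2

theorem Approx_mul_star (g h : G) :
    Approx_Z ω fun k => R.A g k * star (R.A h k) - R.A (g * h⁻¹) k := by
  have h1 : Approx_Z ω fun k => R.A g k * (star (R.A h k) - R.A h⁻¹ k) :=
    Approx_Z_left (R.star_inv h) (R.bdd g)
  have h2 := Approx_Z_add h1 (R.mul g h⁻¹)
  have h3 : (fun k => R.A g k * star (R.A h k) - R.A (g * h⁻¹) k) =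
      fun k => R.A g k * (star (R.A h k) - R.A h⁻¹ k) +
        (R.A g k * R.A h⁻¹ k - R.A (g * h⁻¹) k) := by
    funext k
    rw [mul_sub]
    abel
  rw [h3]
  exact h2

theorem Approx_tra_star_mul_self (g : G) :
    Tendsto (fun k => tra (star (R.A g k) * R.A g k)) ω (𝓝 (κ : ℂ)) := by
  have h1 := R.Approx_star_mul g g
  rw [inv_mul_cancel] at h1
  exact Approx_tra h1 R.tr_one

theorem Approx_tra_star_mul_ne {g h : G} (hgh : g ≠ h) :
    Tendsto (fun k => tra (star (R.A g k) * R.A h k)) ω (𝓝 0) := by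
  refine Approx_tra (R.Approx_star_mul g h) (R.tr_ne _ ?_)
  intro h1
  exact hgh (inv_mul_eq_one.1 h1)

/-- `‖A_g‖₂² → κ`. -/
theorem norm_sq (g : G) : Tendsto (fun k => ‖hat (R.A g k)‖ ^ 2) ω (𝓝 κ) := by
  have h1 := R.Approx_tra_star_mul_self g
  have h2 := (Complex.continuous_re.tendsto (κ : ℂ)).comp h1
  rw [Complex.ofReal_re] at h2
  refine h2.congr fun k => ?_
  rw [Function.comp_apply, tra_star_mul_self, Complex.ofReal_re]

/-- `‖A_g A_g⋆‖₂² → κ`. -/
theorem norm_sq_mul_star (g : G) :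
    Tendsto (fun k => ‖hat (R.A g k * star (R.A g k))‖ ^ 2) ω (𝓝 κ) := by
  have hE := R.Approx_mul_star g g
  rw [mul_inv_cancel] at hE
  have hb : ∃ B : ℝ, ∀ k, ‖R.A g k * star (R.A g k)‖ ≤ B :=
    Approx_bdd_mul (R.bdd g) (Approx_bdd_star (R.bdd g))
  have h1 := Approx_Z_left hE hb
  have h2 := Approx_Z_right hE (R.bdd 1)
    (fun k => ((R.lg g k).mul (R.lg g k).star).sub (R.lg 1 k)) (fun k => R.lg 1 k)
  have h3 := R.mul 1 1
  rw [mul_one] at h3
  have h4 := Approx_Z_add (Approx_Z_add h1 h2) h3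
  have h5 : Approx_Z ω fun k => star (R.A g k * star (R.A g k)) * (R.A g k * star (R.A g k)) -
      R.A 1 k := by
    refine Tendsto.congr (fun k => ?_) h4
    congr 2
    show R.A g k * star (R.A g k) * (R.A g k * star (R.A g k) - R.A 1 k) +
      (R.A g k * star (R.A g k) - R.A 1 k) * R.A 1 k + (R.A 1 k * R.A 1 k - R.A 1 k) =
      star (R.A g k * star (R.A g k)) * (R.A g k * star (R.A g k)) - R.A 1 k
    rw [star_mul, star_star]
    noncomm_ring
  have h6 := Approx_tra h5 R.tr_one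
  have h7 := (Complex.continuous_re.tendsto (κ : ℂ)).comp h6
  rw [Complex.ofReal_re] at h7
  refine h7.congr fun k => ?_
  rw [Function.comp_apply, tra_star_mul_self, Complex.ofReal_re]

/-- Commuting group elements. -/
theorem comm {g h : G} (hgh : g * h = h * g) :
    Tendsto (fun k => ‖hat (R.A g k * R.A h k - R.A h k * R.A g k)‖) ω (𝓝 0) := by
  have h1 := Approx_Z_sub (R.mul g h) (R.mul h g)
  refine Tendsto.congr (fun k => ?_) h1
  congr 2
  show R.A g k * R.A h k - R.A (g * h) k - (R.A h k * R.A g k - R.A (h * g) k) =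
    R.A g k * R.A h k - R.A h k * R.A g k
  rw [hgh]
  abel

theorem mul_one_sub (g h : G) :
    Tendsto (fun k => ‖hat (R.A g k * (1 - R.A h k * star (R.A h k)))‖) ω (𝓝 0) := by
  have h1 : Approx_Z ω fun k => (R.A g k * R.A h k - R.A (g * h) k) * star (R.A h k) :=
    Approx_Z_right (R.mul g h) (Approx_bdd_star (R.bdd h))
      (fun k => ((R.lg g k).mul (R.lg h k)).sub (R.lg (g * h) k)) (fun k => (R.lg h k).star)
  have h2 := R.Approx_mul_star (g * h) h
  rw [mul_inv_cancel_right] at h2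
  have h3 := Approx_Z_neg (Approx_Z_add h1 h2)
  refine Tendsto.congr (fun k => ?_) h3
  congr 2
  noncomm_ring

end ApproxRep

theorem Approx_card (P : Type) [Countable P] : #(ℕ → P → ℂ) ≤ 𝔠 := by
  have h1 : #(ℕ → P → ℂ) = #ℂ ^ #(ℕ × P) := by
    rw [← Cardinal.mk_congr (Equiv.curry ℕ P ℂ)]
    simp
  rw [h1, Cardinal.mk_complex]
  have h2 : #(ℕ × P) ≤ ℵ₀ := Cardinal.mk_le_aleph0
  calc 𝔠 ^ #(ℕ × P) ≤ 𝔠 ^ ℵ₀ := by
        refine Cardinal.power_le_power_left ?_ h2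
        exact (Cardinal.aleph0_pos.trans_le Cardinal.aleph0_le_continuum).ne'
    _ = 𝔠 := Cardinal.continuum_power_aleph0

theorem Approx_pr_eq {G : Type*} [Group G] {P : Set G} {ξ η : L2 G}
    (h : ∀ p : P, ξ p = η p) : pr P ξ = pr P η := by
  ext g
  by_cases hg : g ∈ P
  · rw [pr_apply_mem _ hg, pr_apply_mem _ hg]
    exact h ⟨g, hg⟩
  · rw [pr_apply_not _ hg, pr_apply_not _ hg]

open scoped InnerProductSpace in
theorem Approx_sum {G : Type} [Group G] {ω : Filter ℕ} {κ : ℝ} (R : ApproxRep G ω κ)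
    {V : Type} (γ : V → G) (hγ : Function.Injective γ) (T : Finset V) :
    Tendsto (fun k => ‖∑ v ∈ T, hat (R.A (γ v) k)‖ ^ 2) ω (𝓝 (T.card * κ)) := by
  classical
  have h1 : Tendsto (fun k => ∑ v ∈ T, ∑ w ∈ T, tra (star (R.A (γ v) k) * R.A (γ w) k)) ω
      (𝓝 (∑ v ∈ T, ∑ w ∈ T, if v = w then (κ : ℂ) else 0)) := by
    refine tendsto_finsetSum _ fun v _ => tendsto_finsetSum _ fun w _ => ?_
    by_cases hvw : v = w
    · subst hvw
      rw [if_pos rfl]
      exact R.Approx_tra_star_mul_self _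
    · rw [if_neg hvw]
      exact R.Approx_tra_star_mul_ne fun h => hvw (hγ h)
  have h2 : (∑ v ∈ T, ∑ w ∈ T, if v = w then (κ : ℂ) else 0) = ((T.card * κ : ℝ) : ℂ) := by
    have h3 : ∀ v ∈ T, (∑ w ∈ T, if v = w then (κ : ℂ) else 0) = κ := by
      intro v hv
      rw [Finset.sum_ite_eq, if_pos hv]
    rw [Finset.sum_congr rfl h3, Finset.sum_const, nsmul_eq_mul]
    push_cast
    rfl
  rw [h2] at h1
  have h4 := (Complex.continuous_re.tendsto ((T.card * κ : ℝ) : ℂ)).comp h1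
  rw [Complex.ofReal_re] at h4
  refine h4.congr fun k => ?_
  rw [Function.comp_apply]
  have h5 : ∑ v ∈ T, ∑ w ∈ T, tra (star (R.A (γ v) k) * R.A (γ w) k) =
      ((‖∑ v ∈ T, hat (R.A (γ v) k)‖ ^ 2 : ℝ) : ℂ) := by
    have h6 := inner_self_eq_norm_sq_to_K (𝕜 := ℂ) (∑ v ∈ T, hat (R.A (γ v) k))
    rw [sum_inner] at h6
    have h7 : ∀ v ∈ T, ⟪hat (R.A (γ v) k), ∑ w ∈ T, hat (R.A (γ w) k)⟫_ℂ =
        ∑ w ∈ T, tra (star (R.A (γ v) k) * R.A (γ w) k) := by
      intro v _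
      rw [inner_sum]
      exact Finset.sum_congr rfl fun w _ => inner_hat
    rw [Finset.sum_congr rfl h7] at h6
    rw [h6]
    push_cast
    rfl
  rw [h5, Complex.ofReal_re]

/-- Only few group elements have a non-vanishing expectation on a countable set. -/
theorem bad_small {G : Type} [Group G] {ω : Filter ℕ} {κ : ℝ} (R : ApproxRep G ω κ) (P : Set G)
    (hP : P.Countable) {V : Type} (γ : V → G) (hγ : Function.Injective γ) :
    #{v : V | ¬ Tendsto (fun k => ‖pr P (hat (R.A (γ v) k))‖) ω (𝓝 0)} ≤ 𝔠 := by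
  classical
  have : Countable P := hP.to_subtype
  by_contra hcon
  rw [not_le] at hcon
  set S : Set V := {v : V | ¬ Tendsto (fun k => ‖pr P (hat (R.A (γ v) k))‖) ω (𝓝 0)} with hS
  let F : S → (ℕ → P → ℂ) × ℂ := fun v => (fun k p => hat (R.A (γ v.1) k) p.1, 0)
  have hcard : #((ℕ → P → ℂ) × ℂ) < #S := by
    refine lt_of_le_of_lt ?_ hcon
    rw [Cardinal.mk_prod, Cardinal.lift_id, Cardinal.lift_id, Cardinal.mk_complex]
    exact (mul_le_mul' (Approx_card P) le_rfl).trans (Cardinal.continuum_mul_self).le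
  have hinf : Infinite ((ℕ → P → ℂ) × ℂ) := Prod.infinite_of_right
  have hinfS : Infinite S := by
    rw [Cardinal.infinite_iff]
    exact (Cardinal.infinite_iff.1 hinf).trans hcard.le
  obtain ⟨a, ha⟩ := Cardinal.exists_infinite_fiber F hcard
  obtain ⟨v0⟩ : Nonempty (F ⁻¹' {a}) := inferInstance
  have hz : ∀ v : F ⁻¹' {a}, ∀ k, pr P (hat (R.A (γ v.1.1) k)) =
      pr P (hat (R.A (γ v0.1.1) k)) := by
    intro v k
    refine Approx_pr_eq fun p => ?_
    have h1 : F v.1 = F v0.1 := by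
      have h2 := v.2
      have h3 := v0.2
      simp only [Set.mem_preimage, Set.mem_singleton_iff] at h2 h3
      rw [h2, h3]
    have h4 := congrFun (congrFun (congrArg Prod.fst h1) k) p
    exact h4
  apply v0.1.2
  have key : ∀ n : ℕ, 0 < n → ∀ᶠ k in ω,
      ‖pr P (hat (R.A (γ v0.1.1) k))‖ ^ 2 ≤ (κ + 1) / n := by
    intro n hn
    obtain ⟨T0, hT0⟩ := Infinite.exists_subset_card_eq (F ⁻¹' {a}) n
    let T : Finset V := T0.image fun v => v.1.1
    have hTc : T.card = n := by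
      rw [Finset.card_image_of_injective, hT0]
      intro v w h
      exact Subtype.ext (Subtype.ext h)
    have h1 := Approx_sum R γ hγ T
    rw [hTc] at h1
    have hn0 : (0 : ℝ) < n := by exact_mod_cast hn
    have h2 : ∀ᶠ k in ω, ‖∑ v ∈ T, hat (R.A (γ v) k)‖ ^ 2 < n * κ + n := by
      refine h1.eventually_lt_const ?_
      linarith
    filter_upwards [h2] with k hk
    have h3 : pr P (∑ v ∈ T, hat (R.A (γ v) k)) = (n : ℂ) • pr P (hat (R.A (γ v0.1.1) k)) := by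
      rw [map_sum]
      have h4 : ∀ v ∈ T, pr P (hat (R.A (γ v) k)) = pr P (hat (R.A (γ v0.1.1) k)) := by
        intro v hv
        obtain ⟨w, _, rfl⟩ := Finset.mem_image.1 hv
        exact hz w k
      rw [Finset.sum_congr rfl h4, Finset.sum_const, hTc]
      exact (Nat.cast_smul_eq_nsmul ℂ n _).symm
    have h5 := norm_pr_le P (∑ v ∈ T, hat (R.A (γ v) k))
    rw [h3, norm_smul, Complex.norm_natCast] at h5
    have h6 : (n * ‖pr P (hat (R.A (γ v0.1.1) k))‖) ^ 2 ≤ ‖∑ v ∈ T, hat (R.A (γ v) k)‖ ^ 2 :=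
      pow_le_pow_left₀ (by positivity) h5 2
    rw [le_div_iff₀ hn0]
    have h7 : (n : ℝ) * (‖pr P (hat (R.A (γ v0.1.1) k))‖ ^ 2 * n) ≤ n * (κ + 1) := by
      nlinarith
    exact le_of_mul_le_mul_left h7 hn0
  rw [Metric.tendsto_nhds]
  intro ε hε
  obtain ⟨n, hn⟩ := exists_nat_gt ((|κ| + 1) / ε ^ 2)
  have hn0 : (0 : ℝ) < n := lt_of_le_of_lt (by positivity) hn
  have hn1 : 0 < n := by exact_mod_cast hn0
  filter_upwards [key n hn1] with k hk
  rw [Real.dist_eq, sub_zero, abs_of_nonneg (norm_nonneg _)]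
  have h1 : (κ + 1) / n < ε ^ 2 := by
    rw [div_lt_iff₀ hn0]
    rw [div_lt_iff₀ (by positivity)] at hn
    have := le_abs_self κ
    nlinarith
  exact lt_of_pow_lt_pow_left₀ 2 hε.le (hk.trans_lt h1)

end Pool.Agent.H68.Amp
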