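import Mathlib

set_option autoImplicit false

/-!
# Cardinal data

`I` is a well order of type `ν = (2^ℵ₀)⁺` (an initial ordinal), `L` a set of size `λ = ℶ_ν`, written
as the increasing union of the sets `Lj i` with `∑ 2^|Lj i| ≤ λ`.
-/

open Cardinal Set

namespace Pool.Agent.H68.Amp

structure TreeData where
  I : Type
  L : Type
  [linI : LinearOrder I]
  Lj : I → Set L
  cont_lt : 𝔠 < #I
  regular : (#I).IsRegular
  initial : ∀ i : I, #(Set.Iio i) < #I
  mono : Monotone Lj
  union : ⋃ i, Lj i = Set.univ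
  I_le : #I ≤ #L
  tree_le : #(Σ i : I, Set (Lj i)) ≤ #L
  pow_aleph0 : #L ^ (ℵ₀ : Cardinal.{0}) = #L
  two_pow : (2 : Cardinal.{0}) ^ #I < 2 ^ #L

attribute [instance] TreeData.linI

/-- The index cardinal `ν`. -/
private noncomputable def Card_nu : Cardinal.{0} := Order.succ 𝔠

private abbrev Card_I : Type := Card_nu.ord.ToType

/-- The ordinal of an index. -/
private noncomputable def Card_o (i : Card_I) : Ordinal.{0} := Ordinal.typein (α := Card_I) (· < ·) i

/-- The cardinal attached to an index. -/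
private noncomputable def Card_b (i : Card_I) : Cardinal.{0} := ℶ_ (Card_o i)

private abbrev Card_L : Type := Σ i : Card_I, (Card_b i).out

private lemma Card_mk_I : #Card_I = Card_nu := mk_ord_toType _

private lemma Card_aleph0_le : ℵ₀ ≤ Card_nu := aleph0_le_continuum.trans (Order.le_succ _)

private lemma Card_Iio (i : Card_I) : #(Iio i) ≤ 𝔠 := by
  have h : #(Iio i) < Card_nu := by
    have := mk_Iio_lt i (by simp)
    rwa [Card_mk_I] at this
  exact Order.lt_succ_iff.1 h

private lemma Card_Iic (i : Card_I) : #(Iic i) ≤ 𝔠 := by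
  have h : Iic i = insert i (Iio i) := by
    ext j; simp [le_iff_eq_or_lt]
  rw [h]
  refine (mk_insert_le).trans ?_
  refine (add_le_add_left (Card_Iio i) 1).trans ?_
  rw [add_one_eq aleph0_le_continuum]

private lemma Card_Iic_b (i : Card_I) : #(Iic i) ≤ Card_b i := by
  have h : Iic i = insert i (Iio i) := by
    ext j; simp [le_iff_eq_or_lt]
  rw [h]
  refine (mk_insert_le).trans ?_
  have h1 : #(Iio i) ≤ Card_b i := by
    have := Ordinal.card_le_beth (Card_o i)
    rwa [Card_o, Ordinal.card_typein] at this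
  refine (add_le_add_left h1 1).trans ?_
  exact (add_one_eq (aleph0_le_beth _)).le

private lemma Card_b_mono {i j : Card_I} (h : i ≤ j) : Card_b i ≤ Card_b j := by
  apply beth_mono
  exact (Ordinal.typein_le_typein (α := Card_I) (· < ·)).2 (not_lt.2 h)

private lemma Card_succ (i : Card_I) : ∃ j : Card_I, Card_b j = 2 ^ Card_b i := by
  have h1 : Card_o i < Card_nu.ord := Ordinal.typein_lt_self i
  have h2 : Card_o i + 1 < Card_nu.ord :=
    (isSuccLimit_ord Card_aleph0_le).succ_lt h1
  obtain ⟨j, hj⟩ := Ordinal.typein_surj (α := Card_I) (· < ·) (o := Card_o i + 1)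
    (by rw [Ordinal.type_toType]; exact h2)
  refine ⟨j, ?_⟩
  unfold Card_b
  rw [← beth_add_one]
  exact congrArg _ hj

private lemma Card_b_le (i : Card_I) : Card_b i ≤ #Card_L := by
  have h : #((Card_b i).out) ≤ #Card_L := mk_le_of_injective (f := fun x => (⟨i, x⟩ : Card_L))
    (fun x y hxy => by simpa using hxy)
  rwa [mk_out] at h

private lemma Card_two_b_le (i : Card_I) : 2 ^ Card_b i ≤ #Card_L := by
  obtain ⟨j, hj⟩ := Card_succ i
  rw [← hj]
  exact Card_b_le j

private lemma Card_L_inf : ℵ₀ ≤ #Card_L := by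
  have : Nonempty Card_I := by
    rw [← mk_ne_zero_iff, Card_mk_I]
    exact (aleph0_pos.trans_le Card_aleph0_le).ne'
  obtain ⟨i⟩ := this
  exact (aleph0_le_beth _).trans (Card_b_le i)

private lemma Card_I_le : #Card_I ≤ #Card_L := by
  have h : ∀ i : Card_I, Nonempty ((Card_b i).out) := by
    intro i
    rw [← mk_ne_zero_iff, mk_out]
    exact beth_ne_zero _
  exact mk_le_of_injective (f := fun i => (⟨i, (h i).some⟩ : Card_L))
    (fun x y hxy => congrArg Sigma.fst hxy)

private def Card_Lj (i : Card_I) : Set Card_L := {p | p.1 ≤ i}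

private lemma Card_mk_Lj (i : Card_I) : #(Card_Lj i) ≤ Card_b i := by
  have h1 : #(Card_Lj i) ≤ #(Σ j : Iic i, (Card_b j.1).out) := by
    refine mk_le_of_injective (f := fun p => ⟨⟨p.1.1, p.2⟩, p.1.2⟩) ?_
    rintro ⟨⟨a, x⟩, ha⟩ ⟨⟨b, y⟩, hb⟩ h
    simp only [Sigma.mk.injEq] at h
    obtain ⟨h1, h2⟩ := h
    have h3 : a = b := congrArg Subtype.val h1
    subst h3
    rw [heq_eq_eq] at h2
    subst h2
    rfl
  refine h1.trans ?_
  rw [mk_sigma]
  have h2 : (sum fun j : Iic i => #((Card_b j.1).out)) ≤ sum fun _ : Iic i => Card_b i := by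
    refine sum_le_sum _ _ fun j => ?_
    rw [mk_out]
    exact Card_b_mono j.2
  refine h2.trans ?_
  rw [sum_const']
  refine (mul_le_mul_left (Card_Iic_b i) _).trans ?_
  exact (mul_eq_self (aleph0_le_beth _)).le

private lemma Card_sum_le (f : Card_I → Cardinal.{0}) (hf : ∀ i, f i ≤ 2 ^ Card_b i) :
    sum f ≤ #Card_L := by
  refine (sum_le_sum _ (fun _ => #Card_L) fun i => (hf i).trans (Card_two_b_le i)).trans ?_
  rw [sum_const']
  refine (mul_le_mul_left Card_I_le _).trans ?_
  rw [mul_eq_self Card_L_inf]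

private lemma Card_bdd (f : ℕ → Card_I) : ∃ j, ∀ n, f n ≤ j := by
  by_contra hcon
  push Not at hcon
  have h1 : (⋃ n, Iic (f n)) = Set.univ := by
    refine eq_univ_of_forall fun j => ?_
    obtain ⟨n, hn⟩ := hcon j
    exact mem_iUnion.2 ⟨n, hn.le⟩
  have h2 : #Card_I ≤ 𝔠 := by
    rw [← mk_univ, ← h1]
    refine (mk_iUnion_le_sum_mk).trans ?_
    refine (sum_le_sum _ (fun _ => 𝔠) fun n => Card_Iic (f n)).trans ?_
    rw [sum_const', mk_nat, mul_comm]
    exact (continuum_mul_aleph0).le
  rw [Card_mk_I, Card_nu] at h2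
  exact absurd h2 (not_le.2 (Order.lt_succ _))

private lemma Card_pow : #Card_L ^ (ℵ₀ : Cardinal.{0}) = #Card_L := by
  apply le_antisymm
  · have h1 : #(ℕ → Card_L) ≤ #(Σ j : Card_I, (ℕ → Card_Lj j)) := by
      choose j hj using fun f : ℕ → Card_L => Card_bdd fun n => (f n).1
      refine mk_le_of_injective (f := fun f => ⟨j f, fun n => ⟨f n, hj f n⟩⟩) ?_
      intro f g hfg
      simp only [Sigma.mk.injEq] at hfg
      obtain ⟨h1, h2⟩ := hfg
      have h3 : ∀ (a b : Card_I) (F : ℕ → Card_Lj a) (G : ℕ → Card_Lj b), a = b → F ≍ G →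
          ∀ n, (F n).1 = (G n).1 := by
        intro a b F G hab hFG n
        subst hab
        rw [heq_eq_eq] at hFG
        rw [hFG]
      funext n
      exact h3 _ _ _ _ h1 h2 n
    rw [← mk_nat, power_def]
    refine h1.trans ?_
    rw [mk_sigma]
    apply Card_sum_le
    intro i
    rw [← power_def, mk_nat]
    refine (power_le_power_right (Card_mk_Lj i)).trans ?_
    refine (power_le_power_right (cantor (Card_b i)).le).trans ?_
    rw [← power_mul]
    exact (congrArg _ (mul_aleph0_eq (aleph0_le_beth _))).le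
  · exact self_le_power _ (one_le_aleph0)

theorem exists_treeData : Nonempty TreeData := by
  refine ⟨TreeData.mk Card_I Card_L Card_Lj ?_ ?_ ?_ ?_ ?_ Card_I_le ?_ Card_pow ?_⟩
  · rw [Card_mk_I]; exact Order.lt_succ _
  · rw [Card_mk_I]; exact isRegular_succ aleph0_le_continuum
  · intro i
    exact mk_Iio_lt i (by simp)
  · intro i j hij p hp
    exact le_trans (show p.1 ≤ i from hp) hij
  · refine eq_univ_of_forall fun p => mem_iUnion.2 ⟨p.1, le_refl p.1⟩
  · rw [mk_sigma]
    apply Card_sum_le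
    intro i
    rw [mk_set]
    exact power_le_power_left two_ne_zero (Card_mk_Lj i)
  · have hne : Nonempty Card_I := by
      rw [← mk_ne_zero_iff, Card_mk_I]
      exact (aleph0_pos.trans_le Card_aleph0_le).ne'
    obtain ⟨i⟩ := hne
    obtain ⟨j, hj⟩ := Card_succ i
    obtain ⟨k, hk⟩ := Card_succ j
    have h1 : 𝔠 ≤ Card_b j := by
      rw [hj, ← two_power_aleph0]
      exact power_le_power_left two_ne_zero (aleph0_le_beth _)
    have h2 : #Card_I ≤ Card_b k := by
      rw [Card_mk_I, hk]
      exact Order.succ_le_of_lt (h1.trans_lt (cantor _))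
    exact ((power_le_power_left two_ne_zero h2).trans (Card_two_b_le k)).trans_lt (cantor _)

end Pool.Agent.H68.Amp
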