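import Pool.Agent.H68.Amp.LG

set_option autoImplicit false

/-! # An isometry in a finite von Neumann algebra is a unitary, quantitatively -/

open scoped InnerProductSpace

namespace Pool.Agent.H68.Amp

variable {G : Type*} [Group G] {K : Subgroup G}

open scoped ComplexConjugate in
theorem LemmaZ_finset {b : L2 G} (hb : Supp b (K : Set G)) (s : Finset G) :
    ∃ B : L2 G →L[ℂ] L2 G, IsLG B ∧ Supp (hat B) (K : Set G) ∧
      hat B = ∑ i ∈ s, b i • (dl i : L2 G) := by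
  classical
  induction s using Finset.induction_on with
  | empty =>
    refine ⟨0, isLG_zero, ?_, ?_⟩
    · intro g _
      rfl
    · rw [Finset.sum_empty]
      rfl
  | insert a s ha ih =>
    obtain ⟨B, h1, h2, h3⟩ := ih
    refine ⟨b a • ltC a + B, ((isLG_ltC a).smul _).add h1, ?_, ?_⟩
    · have h4 : hat (b a • ltC a + B) = b a • (dl a : L2 G) + hat B := by
        change b a • hat (ltC a) + hat B = _
        rw [hat_ltC]
      rw [h4]
      refine Supp.add ?_ h2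
      by_cases haK : a ∈ (K : Set G)
      · exact Supp.smul _ ((supp_dl a).mono (by simpa using haK))
      · rw [hb a haK, zero_smul]
        exact supp_zero _
    · change b a • hat (ltC a) + hat B = _
      rw [hat_ltC, h3, Finset.sum_insert ha]

omit [Group G] in
theorem LemmaZ_hasSum (b : L2 G) : HasSum (fun i => b i • (dl i : L2 G)) b := by
  classical
  have h1 := lp.hasSum_single (p := 2) (by simp) b
  have h4 : (fun i => (lp.single 2 i (b i) : L2 G)) = fun i => b i • (dl i : L2 G) := by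
    funext i
    ext j
    rw [lp.coeFn_smul, Pi.smul_apply, lp.single_apply]
    by_cases hj : j = i
    · subst hj
      rw [dl_self, Pi.single_eq_same]
      simp
    · rw [dl_ne hj, Pi.single_eq_of_ne hj]
      simp
  rwa [h4] at h1

theorem LemmaZ_approx {b : L2 G} (hb : Supp b (K : Set G)) {ρ : ℝ} (hρ : 0 < ρ) :
    ∃ B : L2 G →L[ℂ] L2 G, IsLG B ∧ Supp (hat B) (K : Set G) ∧ ‖b - hat B‖ ≤ ρ := by
  have h1 := LemmaZ_hasSum b
  have h2 := (Metric.tendsto_nhds.1 h1) ρ hρ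
  obtain ⟨s, hs⟩ := h2.exists
  obtain ⟨B, h3, h4, h5⟩ := LemmaZ_finset hb s
  refine ⟨B, h3, h4, ?_⟩
  rw [h5, ← dist_eq_norm, dist_comm]
  exact hs.le

/-- The resolvent. -/
theorem LemmaZ_inv {B : L2 G →L[ℂ] L2 G} (hB : IsLG B) (hBK : Supp (hat B) (K : Set G)) {μ : ℝ}
    (hμ : 0 < μ) : ∃ R : L2 G →L[ℂ] L2 G, IsLG R ∧ Supp (hat R) (K : Set G) ∧
      (μ : ℂ) • R + (B * star B) * R = 1 ∧ (μ : ℂ) • R + R * (B * star B) = 1 ∧
      ‖R‖ ≤ 1 / μ := by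
  set M : L2 G →L[ℂ] L2 G := (μ : ℂ) • 1 + B * star B with hM
  have hMx : ∀ x, M x = (μ : ℂ) • x + B (star B x) := fun x => by
    rw [hM, add_apply, smul_apply, mul_apply_eq_comp]
    rfl
  have hinner : ∀ x, ⟪M x, x⟫_ℂ = ((μ * ‖x‖ ^ 2 + ‖star B x‖ ^ 2 : ℝ) : ℂ) := by
    intro x
    rw [hMx, inner_add_left, inner_smul_left]
    have h1 : ⟪B (star B x), x⟫_ℂ = ⟪star B x, star B x⟫_ℂ :=
      (ContinuousLinearMap.adjoint_inner_right B (star B x) x).symm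
    rw [h1, inner_self_eq_norm_sq_to_K, inner_self_eq_norm_sq_to_K]
    push_cast
    rw [Complex.conj_ofReal]
    rfl
  have hbound : ∀ x, μ * ‖x‖ ≤ ‖M x‖ := by
    intro x
    by_cases hx : ‖x‖ = 0
    · rw [hx, mul_zero]; exact norm_nonneg _
    have hx0 : 0 < ‖x‖ := lt_of_le_of_ne (norm_nonneg _) (Ne.symm hx)
    have h1 : ‖⟪M x, x⟫_ℂ‖ ≤ ‖M x‖ * ‖x‖ := norm_inner_le_norm _ _
    rw [hinner, Complex.norm_real, Real.norm_of_nonneg (by positivity)] at h1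
    have h2 : μ * ‖x‖ * ‖x‖ ≤ ‖M x‖ * ‖x‖ := by nlinarith [sq_nonneg ‖star B x‖]
    exact le_of_mul_le_mul_right h2 hx0
  have hunit : IsUnit M := by
    refine ContinuousLinearMap.isUnit_of_forall_le_norm_inner_map M (c := ⟨μ, hμ.le⟩)
      (by exact_mod_cast hμ) ?_
    intro x
    rw [hinner, Complex.norm_real, Real.norm_of_nonneg (by positivity)]
    change ‖x‖ ^ 2 * μ ≤ _
    nlinarith [sq_nonneg ‖star B x‖]
  obtain ⟨u, hu⟩ := hunit
  have hMR : M * (↑u⁻¹ : L2 G →L[ℂ] L2 G) = 1 := by rw [← hu]; exact u.mul_inv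
  have hRM : (↑u⁻¹ : L2 G →L[ℂ] L2 G) * M = 1 := by rw [← hu]; exact u.inv_mul
  set R : L2 G →L[ℂ] L2 G := (↑u⁻¹ : L2 G →L[ℂ] L2 G) with hR
  have hMRx : ∀ x, M (R x) = x := fun x => by
    have := congrArg (fun T : L2 G →L[ℂ] L2 G => T x) hMR
    simp only [mul_apply_eq_comp] at this
    exact this
  have hRMx : ∀ x, R (M x) = x := fun x => by
    have := congrArg (fun T : L2 G →L[ℂ] L2 G => T x) hRM
    simp only [mul_apply_eq_comp] at this
    exact this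
  have hMLG : IsLG M := (isLG_one.smul _).add (hB.mul hB.star)
  have hMinj : ∀ x, M x = 0 → x = 0 := fun x hx => by
    rw [← hRMx x, hx, map_zero]
  -- supports
  have hsB : Supp (hat (star B)) (K : Set G) := (Supp.star hB hBK).mono (by
    intro g hg
    have h1 : g⁻¹ ∈ K := hg
    simpa using K.inv_mem h1)
  have hsupp : ∀ (A : Set G), (∀ k ∈ K, ∀ a ∈ A, k * a ∈ A) → ∀ x, Supp x A → Supp (M x) A := by
    intro A hA x hx
    rw [hMx]
    refine Supp.add (hx.smul _) ?_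
    have h1 : Supp (star B x) A := (Supp.applyLG hB.star hsB hx).mono (by
      rintro g ⟨k, hk, a, ha, rfl⟩
      exact hA k hk a ha)
    exact (Supp.applyLG hB hBK h1).mono (by
      rintro g ⟨k, hk, a, ha, rfl⟩
      exact hA k hk a ha)
  refine ⟨R, ?_, ?_, ?_, ?_, ?_⟩
  · intro g ξ
    have h1 : M (rt g (R ξ)) = rt g ξ := by rw [hMLG, hMRx]
    rw [← h1, hRMx]
  · -- support of hat R
    set x := hat R with hx
    have h1 : M x = dl 1 := hMRx _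
    have h2 : M (pr (K : Set G) x) + M (pr (K : Set G)ᶜ x) = dl 1 := by
      rw [← map_add, pr_add_pr_compl, h1]
    have h3 : Supp (M (pr (K : Set G) x)) (K : Set G) :=
      hsupp _ (fun k hk a ha => K.mul_mem hk ha) _ (supp_pr _ _)
    have h4 : Supp (M (pr (K : Set G)ᶜ x)) (K : Set G)ᶜ :=
      hsupp _ (fun k hk a (ha : a ∉ (K : Set G)) (hka : k * a ∈ (K : Set G)) => ha (by
        have := K.mul_mem (K.inv_mem hk) hka
        simpa using this)) _ (supp_pr _ _)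
    have h5 : M (pr (K : Set G)ᶜ x) = 0 := by
      have h6 : M (pr (K : Set G)ᶜ x) = dl 1 - M (pr (K : Set G) x) := by
        rw [← h2]; abel
      have h7 : Supp (M (pr (K : Set G)ᶜ x)) (K : Set G) := by
        rw [h6]
        exact Supp.sub ((supp_dl 1).mono (by simp)) h3
      have h8 := h7.inter h4
      ext g
      exact h8 g (fun h => h.2 h.1)
    have h6 := hMinj _ h5
    have h7 : pr (K : Set G) x = x := by
      conv_rhs => rw [← pr_add_pr_compl (K : Set G) x]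
      rw [h6, add_zero]
    rw [← h7]
    exact supp_pr _ _
  · have h1 := hMR
    rw [hM, add_mul, smul_mul_assoc, one_mul] at h1
    exact h1
  · have h1 := hRM
    rw [hM, mul_add, mul_smul_comm, mul_one] at h1
    exact h1
  · refine ContinuousLinearMap.opNorm_le_bound _ (by positivity) fun ξ => ?_
    have h1 := hbound (R ξ)
    rw [hMRx] at h1
    rw [div_mul_eq_mul_div, one_mul, le_div_iff₀ hμ, mul_comm]
    exact h1

/-- The estimate for one approximation. -/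
theorem LemmaZ_main {b : L2 G} (hb : Supp b (K : Set G)) (hb0 : b ≠ 0) {ε : ℝ} (hε : 0 ≤ ε)
    (hst : ∀ a : L2 G →L[ℂ] L2 G, IsLG a → Supp (hat a) (K : Set G) →
      ‖⟪b, a b⟫_ℂ - tra a * ((‖b‖ ^ 2 : ℝ) : ℂ)‖ ≤ ε * ‖a‖ * ‖b‖ ^ 2)
    {Z : L2 G →L[ℂ] L2 G} (hZ : IsLG Z) (hZs : star Z = Z) {δ : ℝ}
    (hZb : ‖rm (1 - Z) b‖ ≤ δ * ‖b‖) {ρ : ℝ} (hρ : 0 < ρ) (hρ1 : ρ ≤ 1) :
    1 - ε - δ - 4 * ρ ≤ ‖hat Z‖ := by
  have hbn : 0 < ‖b‖ := norm_pos_iff.2 hb0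
  obtain ⟨B, hB, hBK, hbB⟩ := LemmaZ_approx hb (ρ := ρ * ‖b‖) (by positivity)
  set μ : ℝ := ‖b‖ ^ 2 with hμdef
  have hμ : 0 < μ := by positivity
  obtain ⟨R, hR, hRK, hR1, hR2, hRn⟩ := LemmaZ_inv hB hBK hμ
  set b' := hat B with hb'
  -- `r`
  set r : ℂ := tra (R * (B * star B)) with hr
  have hr1 : r = 1 - (μ : ℂ) * tra R := by
    have h1 : tra ((μ : ℂ) • R + R * (B * star B)) = 1 := by rw [hR2, tra_one]
    have h2 : tra ((μ : ℂ) • R + R * (B * star B)) = (μ : ℂ) * tra R + r := rfl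
    rw [h2] at h1
    rw [← h1]
    ring
  have hr2 : ⟪b', R b'⟫_ℂ = r := by
    have h1 : R b' = hat (R * B) := rfl
    rw [h1, hb', inner_hat, tra_mul_comm hB.star (hR.mul hB), hr, mul_assoc]
  have hb'n : ‖b'‖ ≤ 2 * ‖b‖ := by
    have h1 : b' = b - (b - b') := by abel
    rw [h1]
    refine (norm_sub_le _ _).trans ?_
    nlinarith
  have hRn' : ‖R‖ * μ ≤ 1 := by
    rw [le_div_iff₀ hμ] at hRn
    exact hRn
  have hdiff : ‖⟪b', R b'⟫_ℂ - ⟪b, R b⟫_ℂ‖ ≤ 3 * ρ := by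
    have h1 : ⟪b', R b'⟫_ℂ - ⟪b, R b⟫_ℂ = -(⟪b - b', R b'⟫_ℂ + ⟪b, R (b - b')⟫_ℂ) := by
      rw [map_sub, inner_sub_left, inner_sub_right]
      ring
    rw [h1, norm_neg]
    have h2 : ‖⟪b - b', R b'⟫_ℂ‖ ≤ (ρ * ‖b‖) * (‖R‖ * (2 * ‖b‖)) := by
      refine (norm_inner_le_norm _ _).trans ?_
      gcongr
      exact (R.le_opNorm _).trans (by gcongr)
    have h3 : ‖⟪b, R (b - b')⟫_ℂ‖ ≤ ‖b‖ * (‖R‖ * (ρ * ‖b‖)) := by
      refine (norm_inner_le_norm _ _).trans ?_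
      gcongr
      exact (R.le_opNorm _).trans (by gcongr)
    refine (norm_add_le _ _).trans ((add_le_add h2 h3).trans ?_)
    have h4 : ρ * ‖b‖ * (‖R‖ * (2 * ‖b‖)) + ‖b‖ * (‖R‖ * (ρ * ‖b‖)) = 3 * ρ * (‖R‖ * μ) := by
      rw [hμdef]; ring
    rw [h4]
    nlinarith
  have hstR := hst R hR hRK
  have hkey : ‖(2 : ℂ) * r - 1‖ ≤ ε + 3 * ρ := by
    have h1 : (2 : ℂ) * r - 1 = (⟪b', R b'⟫_ℂ - ⟪b, R b⟫_ℂ) + (⟪b, R b⟫_ℂ - tra R * (μ : ℂ)) := by
      have h2 : tra R * (μ : ℂ) = 1 - r := by rw [hr1]; ring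
      rw [hr2, h2]
      ring
    rw [h1]
    refine (norm_add_le _ _).trans ?_
    have h3 : ‖⟪b, R b⟫_ℂ - tra R * (μ : ℂ)‖ ≤ ε := by
      refine hstR.trans ?_
      rw [mul_assoc]
      nlinarith
    linarith
  have hrn : 1 - ε - 3 * ρ ≤ 2 * ‖r‖ := by
    have h1 : ‖(1 : ℂ)‖ ≤ ‖(2 : ℂ) * r‖ + ‖(2 : ℂ) * r - 1‖ := by
      have h2 : (1 : ℂ) = 2 * r - (2 * r - 1) := by ring
      conv_lhs => rw [h2]
      exact norm_sub_le _ _
    rw [norm_one, norm_mul, Complex.norm_two] at h1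
    linarith
  -- the contraction `v`
  set c : ℝ := 2 * ‖b‖ with hc
  set v : L2 G →L[ℂ] L2 G := (c : ℂ) • (star B * R) with hv
  have hvLG : IsLG v := (hB.star.mul hR).smul _
  have hvx : ∀ x, v x = (c : ℂ) • star B (R x) := fun x => rfl
  have hvn : ∀ x, ‖v x‖ ≤ ‖x‖ := by
    intro x
    set η := R x with hη
    have h1 : x = (μ : ℂ) • η + B (star B η) := by
      have h2 := congrArg (fun T : L2 G →L[ℂ] L2 G => T x) hR1
      simp only [add_apply, smul_apply, mul_apply_eq_comp] at h2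
      exact h2.symm
    have h3 : ‖v x‖ ^ 2 = 4 * μ * ‖star B η‖ ^ 2 := by
      rw [hvx, norm_smul, Complex.norm_real, Real.norm_of_nonneg (by positivity), hc, hμdef]
      ring
    have h4 : ⟪η, B (star B η)⟫_ℂ = ((‖star B η‖ ^ 2 : ℝ) : ℂ) := by
      have h5 : ⟪η, B (star B η)⟫_ℂ = ⟪star B η, star B η⟫_ℂ :=
        (ContinuousLinearMap.adjoint_inner_left B (star B η) η).symm
      rw [h5, inner_self_eq_norm_sq_to_K]
      push_cast
      rfl
    have h5 : ‖x‖ ^ 2 = μ ^ 2 * ‖η‖ ^ 2 + 2 * (μ * ‖star B η‖ ^ 2) + ‖B (star B η)‖ ^ 2 := by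
      rw [h1, @norm_add_sq ℂ, norm_smul, inner_smul_left, h4, Complex.conj_ofReal,
        ← Complex.ofReal_mul, Complex.norm_real, Real.norm_of_nonneg hμ.le]
      have : RCLike.re ((μ * ‖star B η‖ ^ 2 : ℝ) : ℂ) = μ * ‖star B η‖ ^ 2 := Complex.ofReal_re _
      rw [this]
      ring
    have h6 : 0 ≤ ‖(μ : ℂ) • η - B (star B η)‖ ^ 2 := by positivity
    rw [@norm_sub_sq ℂ, norm_smul, inner_smul_left, h4, Complex.conj_ofReal,
        ← Complex.ofReal_mul, Complex.norm_real, Real.norm_of_nonneg hμ.le] at h6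
    have h7 : RCLike.re ((μ * ‖star B η‖ ^ 2 : ℝ) : ℂ) = μ * ‖star B η‖ ^ 2 := Complex.ofReal_re _
    rw [h7] at h6
    have h8 : ‖v x‖ ^ 2 ≤ ‖x‖ ^ 2 := by
      rw [h3, h5]
      nlinarith
    exact (sq_le_sq₀ (norm_nonneg _) (norm_nonneg _)).1 h8
  -- lower bound
  have hlow : ‖b‖ * (1 - ε - 3 * ρ) ≤ ‖⟪(dl 1 : L2 G), v b'⟫_ℂ‖ := by
    have h1 : ⟪(dl 1 : L2 G), v b'⟫_ℂ = (c : ℂ) * r := by
      rw [hvx, inner_smul_right, inner_dl_left]
      have h2 : (star B (R b') : L2 G) 1 = r := by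
        have h3 : tra (star B * (R * B)) = r := by
          rw [tra_mul_comm hB.star (hR.mul hB), hr, mul_assoc]
        exact h3
      rw [h2]
    rw [h1, norm_mul, Complex.norm_real, Real.norm_of_nonneg (by positivity), hc]
    nlinarith
  -- upper bound
  have hup1 : ‖⟪(dl 1 : L2 G), v (rm Z b)⟫_ℂ‖ ≤ ‖hat Z‖ * ‖b‖ := by
    rw [rm_comm hvLG hZ]
    have h1 : ⟪(dl 1 : L2 G), rm Z (v b)⟫_ℂ = ⟪rm (star Z) (dl 1), v b⟫_ℂ := by
      rw [rm_inner, star_star]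
    have h2 : rm (star Z) (dl 1 : L2 G) = hat Z := by
      rw [hZs]
      exact hat_rm hZ
    rw [h1, h2]
    refine (norm_inner_le_norm _ _).trans ?_
    gcongr
    exact hvn b
  have hup2 : ‖⟪(dl 1 : L2 G), v (rm (1 - Z) b)⟫_ℂ‖ ≤ δ * ‖b‖ := by
    refine (norm_inner_le_norm _ _).trans ?_
    rw [norm_dl, one_mul]
    exact (hvn _).trans hZb
  have hup3 : ‖⟪(dl 1 : L2 G), v (b' - b)⟫_ℂ‖ ≤ ρ * ‖b‖ := by
    refine (norm_inner_le_norm _ _).trans ?_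
    rw [norm_dl, one_mul]
    refine (hvn _).trans ?_
    rw [norm_sub_rev]
    exact hbB
  have hdec : v b' = v (rm Z b) + v (rm (1 - Z) b) + v (b' - b) := by
    rw [← map_add, ← map_add]
    congr 1
    rw [rm_sub, rm_one]
    abel
  have hfin : ‖⟪(dl 1 : L2 G), v b'⟫_ℂ‖ ≤ ‖hat Z‖ * ‖b‖ + δ * ‖b‖ + ρ * ‖b‖ := by
    rw [hdec, inner_add_right, inner_add_right]
    refine (norm_add_le _ _).trans (add_le_add ((norm_add_le _ _).trans ?_) hup3)
    exact add_le_add hup1 hup2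
  have h9 : ‖b‖ * (1 - ε - 3 * ρ) ≤ ‖b‖ * (‖hat Z‖ + δ + ρ) := by
    refine (hlow.trans hfin).trans (le_of_eq ?_)
    ring
  have h10 := le_of_mul_le_mul_left h9 hbn
  linarith

theorem lemmaZ {b : L2 G} (hb : Supp b (K : Set G)) (hb0 : b ≠ 0) {ε : ℝ} (hε : 0 ≤ ε)
    (hst : ∀ a : L2 G →L[ℂ] L2 G, IsLG a → Supp (hat a) (K : Set G) →
      ‖⟪b, a b⟫_ℂ - tra a * ((‖b‖ ^ 2 : ℝ) : ℂ)‖ ≤ ε * ‖a‖ * ‖b‖ ^ 2)
    {Z : L2 G →L[ℂ] L2 G} (hZ : IsLG Z) (hZs : star Z = Z) {δ : ℝ}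
    (hZb : ‖rm (1 - Z) b‖ ≤ δ * ‖b‖) : 1 - ε - δ ≤ ‖hat Z‖ := by
  by_contra hcon
  rw [not_le] at hcon
  set t : ℝ := 1 - ε - δ - ‖hat Z‖ with ht
  have ht0 : 0 < t := by linarith
  have h1 := LemmaZ_main hb hb0 hε hst hZ hZs hZb (ρ := min 1 (t / 8)) (by positivity)
    (min_le_left _ _)
  have h2 : min 1 (t / 8) ≤ t / 8 := min_le_right _ _
  linarith

end Pool.Agent.H68.Amp
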