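import Pool.Agent.H68.Amp.LeftState
import Pool.Agent.H68.Amp.LemmaZ

set_option autoImplicit false

/-! # The quantitative contradiction for one pair of commuting elements -/

open scoped InnerProductSpace

namespace Pool.Agent.H68.Amp

variable {G : Type*} [Group G] {K S T C' : Subgroup G} {x y : G}

/-- The numerical part. -/
theorem Quant_num {B κ η δ : ℝ} (hB : 1 ≤ B) (hκ0 : 0 < κ) (hκ1 : κ < 1) (hη : 0 < η)
    (hδ0 : 0 < δ) (_hδ1 : δ ≤ 1) (hδ2 : 52 * B ^ 4 * δ ≤ κ) (hδ3 : 24 * B ^ 4 * δ ≤ η * κ)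
    {p q s n : ℝ} (hp0 : 0 ≤ p) (hq0 : 0 ≤ q) (hs0 : 0 ≤ s)
    (hp : p ≤ 11 * B ^ 4 * δ) (hq : q ≤ 11 * B ^ 3 * δ) (hs : s ≤ 6 * B ^ 3 * δ)
    (hn : κ - δ - (5 * B ^ 2 * δ) ^ 2 ≤ n) : p ^ 2 + q ^ 2 + s ^ 2 < η ^ 2 * n := by
  have hB2 : 1 ≤ B ^ 2 := one_le_pow₀ hB
  have hB3 : 1 ≤ B ^ 3 := one_le_pow₀ hB
  have hB4 : 1 ≤ B ^ 4 := one_le_pow₀ hB
  have hB34 : B ^ 3 ≤ B ^ 4 := pow_le_pow_right₀ hB (by norm_num)
  have hn' : κ / 2 ≤ n := by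
    have h1 : δ ≤ B ^ 4 * δ := by nlinarith
    have h2 : (5 * B ^ 2 * δ) ^ 2 ≤ 25 * B ^ 4 * δ := by
      have : (5 * B ^ 2 * δ) ^ 2 = 25 * B ^ 4 * δ * δ := by ring
      rw [this]
      have h3 : 0 ≤ 25 * B ^ 4 * δ := by positivity
      nlinarith
    nlinarith
  have hq' : q ≤ 11 * B ^ 4 * δ := hq.trans (by nlinarith)
  have hs' : s ≤ 6 * B ^ 4 * δ := hs.trans (by nlinarith)
  set t := B ^ 4 * δ with ht
  have ht0 : 0 < t := by positivity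
  have hp2 : p ^ 2 ≤ 121 * t ^ 2 := by
    have : p ≤ 11 * t := by rw [ht]; linarith
    nlinarith
  have hq2 : q ^ 2 ≤ 121 * t ^ 2 := by
    have : q ≤ 11 * t := by rw [ht]; linarith
    nlinarith
  have hs2 : s ^ 2 ≤ 36 * t ^ 2 := by
    have : s ≤ 6 * t := by rw [ht]; linarith
    nlinarith
  have ht3 : 24 * t ≤ η * κ := by rw [ht]; linarith
  have ht4 : 576 * t ^ 2 ≤ η ^ 2 * κ ^ 2 := by
    have h5 : 0 ≤ 24 * t := by positivity
    have h6 := mul_le_mul ht3 ht3 h5 (by positivity : (0 : ℝ) ≤ η * κ)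
    nlinarith
  have h7 : η ^ 2 * κ ^ 2 ≤ η ^ 2 * κ := by
    have : κ ^ 2 ≤ κ := by nlinarith
    exact mul_le_mul_of_nonneg_left this (by positivity)
  have h8 : η ^ 2 * (κ / 2) ≤ η ^ 2 * n := mul_le_mul_of_nonneg_left hn' (by positivity)
  have h9 : 0 < t ^ 2 := by positivity
  nlinarith

theorem quant (hP : AlgPair K S T C' x y) {B κ : ℝ} (hB : 1 ≤ B) (hκ0 : 0 < κ) (hκ1 : κ < 1) :
    ∃ δ : ℝ, 0 < δ ∧ ∀ U W : L2 G →L[ℂ] L2 G, IsLG U → IsLG W → Supp (hat U) (S : Set G) →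
      Supp (hat W) (T : Set G) → ‖U‖ ≤ B → ‖W‖ ≤ B → ‖hat (U * W - W * U)‖ ≤ δ →
      ‖pr (K : Set G) (hat U)‖ ≤ δ → ‖pr (C' : Set G) (hat W)‖ ≤ δ →
      ‖hat (U * (1 - W * star W))‖ ≤ δ → κ - δ ≤ ‖hat U‖ ^ 2 → ‖hat (W * star W)‖ ^ 2 ≤ κ + δ →
      False := by
  set r := Real.sqrt ((1 + κ) / 2) with hr
  have hr2 : r ^ 2 = (1 + κ) / 2 := Real.sq_sqrt (by linarith)
  have hr0 : 0 ≤ r := Real.sqrt_nonneg _
  have hr1 : r < 1 := by nlinarith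
  set η := (1 - r) / (2 * (2 * (1 + 2 * B) + 1)) with hη
  have hden : 0 < 2 * (2 * (1 + 2 * B) + 1) := by positivity
  have hη0 : 0 < η := div_pos (by linarith) hden
  have hηe : 2 * (1 + 2 * B) * η + η = (1 - r) / 2 := by
    rw [hη]
    field_simp
  have hB4 : 0 < B ^ 4 := by positivity
  refine ⟨min (min 1 ((1 - κ) / 2)) (min (κ / (52 * B ^ 4)) (η * κ / (24 * B ^ 4))),
    lt_min (lt_min one_pos (by linarith)) (lt_min (by positivity) (by positivity)), ?_⟩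
  set δ := min (min 1 ((1 - κ) / 2)) (min (κ / (52 * B ^ 4)) (η * κ / (24 * B ^ 4))) with hδ
  have hδ0 : 0 < δ := lt_min (lt_min one_pos (by linarith)) (lt_min (by positivity) (by positivity))
  have hδ1 : δ ≤ 1 := (min_le_left _ _).trans (min_le_left _ _)
  have hδκ : δ ≤ (1 - κ) / 2 := (min_le_left _ _).trans (min_le_right _ _)
  have hδ2 : 52 * B ^ 4 * δ ≤ κ := by
    have h1 : δ ≤ κ / (52 * B ^ 4) := (min_le_right _ _).trans (min_le_left _ _)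
    rw [le_div_iff₀ (by positivity)] at h1
    linarith
  have hδ3 : 24 * B ^ 4 * δ ≤ η * κ := by
    have h1 : δ ≤ η * κ / (24 * B ^ 4) := (min_le_right _ _).trans (min_le_right _ _)
    rw [le_div_iff₀ (by positivity)] at h1
    linarith
  clear_value δ
  intro U W hU hW hUS hWT hUB hWB hcomm hKU hCW hUZ hnU hnW
  have hB2 : 1 ≤ B ^ 2 := one_le_pow₀ hB
  have hB3 : 1 ≤ B ^ 3 := one_le_pow₀ hB
  have hB23 : B ^ 2 ≤ B ^ 3 := pow_le_pow_right₀ hB (by norm_num)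
  have hB12 : B ≤ B ^ 2 := by nlinarith
  have hB24 : B ^ 2 ≤ B ^ 4 := pow_le_pow_right₀ hB (by norm_num)
  have hB0 : 0 ≤ B := by linarith
  -- the part of `U` outside the double coset set
  have hout : ‖pr (Om K x)ᶜ (hat U)‖ ≤ 4 * B ^ 2 * δ := by
    refine (step1 hP hU hW hUS hWT).trans ?_
    have h1 : ‖U‖ * ‖pr (C' : Set G) (hat W)‖ ≤ B * δ :=
      mul_le_mul hUB hCW (norm_nonneg _) hB0
    have h2 : ‖hat (U * W - W * U)‖ + 2 * ‖U‖ * ‖pr (C' : Set G) (hat W)‖ ≤ δ + 2 * (B * δ) := by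
      linarith
    have h3 : ‖W‖ * (‖hat (U * W - W * U)‖ + 2 * ‖U‖ * ‖pr (C' : Set G) (hat W)‖) ≤
        B * (δ + 2 * (B * δ)) := mul_le_mul hWB h2 (by positivity) hB0
    have h6 : B * (δ + 2 * (B * δ)) = B * δ + 2 * (B ^ 2 * δ) := by ring
    have h7 : B * δ ≤ B ^ 2 * δ := mul_le_mul_of_nonneg_right hB12 hδ0.le
    have h8 : δ ≤ B ^ 2 * δ := le_mul_of_one_le_left hδ0.le hB2
    have h9 : 4 * B ^ 2 * δ = 4 * (B ^ 2 * δ) := by ring
    linarith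
  set ξ := pr (Om K x \ K) (hat U) with hξ
  have hKOm : (K : Set G) ⊆ Om K x := fun k hk =>
    ⟨k, hk, 1, K.one_mem, 0, by simp⟩
  have hsub : hat U - ξ = pr (Om K x \ (K : Set G))ᶜ (hat U) := by
    rw [sub_eq_iff_eq_add, add_comm]
    exact (pr_add_pr_compl _ _).symm
  have hsplit : hat U - ξ = pr (Om K x)ᶜ (hat U) + pr (K : Set G) (hat U) := by
    rw [hsub]
    ext g
    rw [lp.coeFn_add, Pi.add_apply, pr_apply, pr_apply, pr_apply]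
    by_cases h1 : g ∈ Om K x
    · by_cases h2 : g ∈ (K : Set G)
      · simp [h1, h2]
      · simp [h1, h2]
    · have h2 : g ∉ (K : Set G) := fun h => h1 (hKOm h)
      simp [h1, h2]
  have hdiff : ‖hat U - ξ‖ ≤ 5 * B ^ 2 * δ := by
    rw [hsplit]
    refine (norm_add_le _ _).trans ?_
    have h8 : δ ≤ B ^ 2 * δ := le_mul_of_one_le_left hδ0.le hB2
    have h9 : 4 * B ^ 2 * δ = 4 * (B ^ 2 * δ) := by ring
    have h10 : 5 * B ^ 2 * δ = 5 * (B ^ 2 * δ) := by ring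
    linarith
  have hn : κ - δ - (5 * B ^ 2 * δ) ^ 2 ≤ ‖ξ‖ ^ 2 := by
    have h1 := norm_pr_sq_add (Om K x \ (K : Set G)) (hat U)
    rw [← hsub, ← hξ] at h1
    have h2 : ‖hat U - ξ‖ ^ 2 ≤ (5 * B ^ 2 * δ) ^ 2 := pow_le_pow_left₀ (norm_nonneg _) hdiff 2
    linarith
  have hq : ‖rm W ξ - W ξ‖ ≤ 11 * B ^ 3 * δ := by
    have h1 : rm W ξ - W ξ = hat (U * W - W * U) -
        (rm W (hat U - ξ) - W (hat U - ξ)) := by
      have h2 : hat (U * W - W * U) = rm W (hat U) - W (hat U) := by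
        rw [rm_hat hU hW]
        rfl
      rw [h2, map_sub, map_sub]
      abel
    rw [h1]
    refine (norm_sub_le _ _).trans ?_
    have h3 : ‖rm W (hat U - ξ)‖ ≤ B * (5 * B ^ 2 * δ) :=
      (norm_rm_apply_le _ _).trans (mul_le_mul hWB hdiff (norm_nonneg _) hB0)
    have h4 : ‖W (hat U - ξ)‖ ≤ B * (5 * B ^ 2 * δ) :=
      (W.le_opNorm _).trans (mul_le_mul hWB hdiff (norm_nonneg _) hB0)
    have h5 := norm_sub_le (rm W (hat U - ξ)) (W (hat U - ξ))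
    have h6 : B * (5 * B ^ 2 * δ) = 5 * (B ^ 3 * δ) := by ring
    have h7 : δ ≤ B ^ 3 * δ := le_mul_of_one_le_left hδ0.le hB3
    have h8 : 11 * B ^ 3 * δ = 11 * (B ^ 3 * δ) := by ring
    linarith
  have hZ1 : ‖(1 - W * star W : L2 G →L[ℂ] L2 G)‖ ≤ 1 + B ^ 2 := by
    refine (norm_sub_le _ _).trans ?_
    have h1 : ‖(1 : L2 G →L[ℂ] L2 G)‖ ≤ 1 := ContinuousLinearMap.norm_id_le
    have h2 : ‖W * star W‖ ≤ B ^ 2 := by
      refine (norm_mul_le _ _).trans ?_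
      have h0 : ‖star W‖ = ‖W‖ := by
        rw [ContinuousLinearMap.star_eq_adjoint]
        exact LinearIsometryEquiv.norm_map _ _
      rw [h0, sq]
      exact mul_le_mul hWB hWB (norm_nonneg _) hB0
    linarith
  have hLZ : IsLG (1 - W * star W) := isLG_one.sub (hW.mul hW.star)
  have hp : ‖rm (1 - W * star W) ξ‖ ≤ 11 * B ^ 4 * δ := by
    have h1 : rm (1 - W * star W) ξ = hat (U * (1 - W * star W)) -
        rm (1 - W * star W) (hat U - ξ) := by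
      rw [map_sub, rm_hat hU hLZ]
      abel
    rw [h1]
    refine (norm_sub_le _ _).trans ?_
    have h2 : ‖rm (1 - W * star W) (hat U - ξ)‖ ≤ (1 + B ^ 2) * (5 * B ^ 2 * δ) :=
      (norm_rm_apply_le _ _).trans (mul_le_mul hZ1 hdiff (norm_nonneg _) (by positivity))
    have h6 : (1 + B ^ 2) * (5 * B ^ 2 * δ) = 5 * (B ^ 2 * δ) + 5 * (B ^ 4 * δ) := by ring
    have h7 : δ ≤ B ^ 4 * δ := le_mul_of_one_le_left hδ0.le (one_le_pow₀ hB)
    have h9 : B ^ 2 * δ ≤ B ^ 4 * δ := mul_le_mul_of_nonneg_right hB24 hδ0.le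
    have h8 : 11 * B ^ 4 * δ = 11 * (B ^ 4 * δ) := by ring
    linarith
  have hs : ‖U‖ * ‖pr (C' : Set G) (hat W)‖ + ‖W‖ * ‖hat U - ξ‖ ≤ 6 * B ^ 3 * δ := by
    have h1 : ‖U‖ * ‖pr (C' : Set G) (hat W)‖ ≤ B * δ :=
      mul_le_mul hUB hCW (norm_nonneg _) hB0
    have h2 : ‖W‖ * ‖hat U - ξ‖ ≤ B * (5 * B ^ 2 * δ) :=
      mul_le_mul hWB hdiff (norm_nonneg _) hB0
    have h6 : B * (5 * B ^ 2 * δ) = 5 * (B ^ 3 * δ) := by ring
    have h7 : B * δ ≤ B ^ 3 * δ := mul_le_mul_of_nonneg_right (hB12.trans hB23) hδ0.le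
    have h8 : 6 * B ^ 3 * δ = 6 * (B ^ 3 * δ) := by ring
    linarith
  obtain ⟨b, hbK, hb0, hb1, hb2⟩ := step2 hP hU hW hUS hWT ξ hξ hη0
    (Quant_num hB hκ0 hκ1 hη0 hδ0 hδ1 hδ2 hδ3 (norm_nonneg _) (norm_nonneg _) (by positivity)
      hp hq hs hn)
  have hZs : star (W * star W) = W * star W := by rw [star_mul, star_star]
  have hε : 0 ≤ 2 * (1 + 2 * B) * η := by positivity
  have hfin := lemmaZ hbK hb0 hε (fun a ha haK => by
    refine (left_state hP hW hη0.le hb1 hb2 ha haK).trans ?_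
    have h1 : 2 * (1 + 2 * ‖W‖) * η ≤ 2 * (1 + 2 * B) * η :=
      mul_le_mul_of_nonneg_right (by linarith) hη0.le
    have h2 : 0 ≤ ‖a‖ * ‖b‖ ^ 2 := by positivity
    have h3 := mul_le_mul_of_nonneg_right h1 h2
    have h4 : 2 * (1 + 2 * ‖W‖) * η * ‖a‖ * ‖b‖ ^ 2 = 2 * (1 + 2 * ‖W‖) * η * (‖a‖ * ‖b‖ ^ 2) := by
      ring
    have h5 : 2 * (1 + 2 * B) * η * ‖a‖ * ‖b‖ ^ 2 = 2 * (1 + 2 * B) * η * (‖a‖ * ‖b‖ ^ 2) := by
      ring
    rw [h4, h5]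
    exact h3) (hW.mul hW.star) hZs hb1
  have hle : ‖hat (W * star W)‖ ≤ r := by
    refine abs_le_of_sq_le_sq' ?_ hr0 |>.2
    rw [hr2]
    linarith
  linarith

end Pool.Agent.H68.Amp
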