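import Mathlib

set_option autoImplicit false

/-! # Good pairs of vertices, and the corresponding pairs of subgroups -/

open Set

namespace Pool.Agent.H68.Amp

/-- The combinatorial conditions on the supports of two commuting elements. -/
structure GoodPair {V : Type*} (Γ : SimpleGraph V) (x y : V) (S T C C' : Set V) : Prop where
  hCC' : C ⊆ C'
  hCS : C ⊆ S
  hC'T : C' ⊆ T
  hST : S ∩ T ⊆ C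
  hxS : x ∈ S
  hxC : x ∉ C
  hyT : y ∈ T
  hyC' : y ∉ C'
  h2 : ∀ β ∈ T, β ∉ C' → β ≠ y → ∀ a ∈ S, Γ.Adj β a → a ∈ C
  h3 : ∀ a ∈ S, Γ.Adj y a → a = x
  h4 : ∀ c ∈ T, Γ.Adj x c → c = y

/-- The algebraic conditions used in the analysis. -/
structure AlgPair {G : Type*} [Group G] (K S T C' : Subgroup G) (x y : G) : Prop where
  KS : K ≤ S
  KC' : K ≤ C'
  C'T : C' ≤ T
  ST : S ⊓ T ≤ K
  xS : x ∈ S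
  r2 : ∀ g ∈ S, (¬ ∃ s ∈ K, ∃ t ∈ K, ∃ n : ℤ, g = s * x ^ n * t) → ∀ h ∈ T, h ∉ C' →
    ∀ h' ∈ T, ∀ g' ∈ S, g * h ≠ h' * g'
  r3 : ∀ s ∈ K, ∀ s1 ∈ K, ∀ n m : ℤ, n ≠ 0 → m ≠ 0 → ∀ h ∈ T, ∀ h1 ∈ T,
    s * x ^ n * h = s1 * x ^ m * h1 → s = s1 ∧ n = m ∧ h = h1
  r4 : ∀ s ∈ K, ∀ n : ℤ, n ≠ 0 → ∀ h ∈ T, ∀ h' ∈ T, ∀ m : ℤ, ∀ t ∈ K,
    s * x ^ n * h = h' * x ^ m * t → ∃ l : ℤ, ∃ k ∈ K, h = y ^ l * k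
  r5 : ∀ a ∈ K, ∀ m m' : ℤ, m ≠ 0 → ∀ k ∈ K, ∀ k' ∈ K,
    a * (y ^ m * k) = y ^ m' * k' → a = 1

end Pool.Agent.H68.Amp
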