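import Pool.Agent.H68.Amp.RaagB
import Pool.Agent.H68.Amp.PairDefs

set_option autoImplicit false

/-! # Right-angled Artin groups: the algebraic conditions, infinite conjugacy classes -/

open Set

namespace Pool.Agent.H68.Amp

variable {V : Type*} (Γ : SimpleGraph V)

theorem Raag2_eq_one {A : Set V} (hA : ∀ a ∈ A, False) {g : Raag Γ} (hg : g ∈ par Γ A) :
    g = 1 := by
  have h : A = ∅ := Set.eq_empty_of_forall_notMem hA
  subst h
  unfold par at hg
  rw [Set.image_empty, Subgroup.closure_empty, Subgroup.mem_bot] at hg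
  exact hg

theorem Raag2_mem_singleton {A : Set V} {x : V} (hA : ∀ a ∈ A, a = x) {g : Raag Γ}
    (hg : g ∈ par Γ A) : ∃ n : ℤ, g = gen Γ x ^ n := by
  have h : A ⊆ {x} := fun a ha => hA a ha
  have h1 := par_mono Γ h hg
  unfold par at h1
  rw [Set.image_singleton, Subgroup.mem_closure_singleton] at h1
  obtain ⟨n, hn⟩ := h1
  exact ⟨n, hn.symm⟩

theorem Raag2_ret_singleton {x : V} {A : Set V} (hx : x ∉ A) {g : Raag Γ} (hg : g ∈ par Γ A) :
    ret Γ {x} g = 1 := by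
  refine Raag2_eq_one Γ ?_ (ret_mem_inter Γ (B := {x}) hg)
  rintro a ⟨h1, h2⟩
  rw [Set.mem_singleton_iff] at h2
  subst h2
  exact hx h1

theorem Raag2_ret_self (x : V) (n : ℤ) : ret Γ {x} (gen Γ x ^ n) = gen Γ x ^ n := by
  rw [map_zpow, ret_gen_mem Γ (Set.mem_singleton x)]

theorem Raag2_ret_not {x : V} {A : Set V} (hx : x ∉ A) (n : ℤ) : ret Γ A (gen Γ x ^ n) = 1 := by
  rw [map_zpow, ret_gen_not Γ hx, one_zpow]

theorem Raag2_zpow_inj {x : V} {n m : ℤ} (h : gen Γ x ^ n = gen Γ x ^ m) : n = m := by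
  have h1 : gen Γ x ^ (n - m) = 1 := by rw [zpow_sub, h, mul_inv_cancel]
  have h2 := gen_zpow_eq_one Γ h1
  omega

theorem algPair {x y : V} {S T C C' : Set V} (h : GoodPair Γ x y S T C C') :
    AlgPair (par Γ C) (par Γ S) (par Γ T) (par Γ C') (gen Γ x) (gen Γ y) := by
  have hxT : x ∉ T := fun hx => h.hxC (h.hST ⟨h.hxS, hx⟩)
  have hyC : y ∉ C := fun hy => h.hyC' (h.hCC' hy)
  have hCT : C ⊆ T := h.hCC'.trans h.hC'T
  have hKS : par Γ C ≤ par Γ S := par_mono Γ h.hCS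
  have hKT : par Γ C ≤ par Γ T := par_mono Γ hCT
  refine ⟨hKS, par_mono Γ h.hCC', par_mono Γ h.hC'T, ?_, gen_mem_par Γ h.hxS, ?_, ?_, ?_, ?_⟩
  · rw [par_inter]
    exact par_mono Γ h.hST
  · -- r2
    intro g hg hgn k hk hkC k' hk' g' hg' heq
    obtain ⟨β, hβT, hβC, hβ⟩ := exists_essential Γ hk hkC h.hC'T
    have hβS : β ∉ S := fun hb => hβC (h.hCC' (h.hST ⟨hb, hβT⟩))
    obtain ⟨l, hl, l', hl', e, he, hgl⟩ := britton Γ hβS hg hg' hk hk' hβ heq
    have hsub : (T \ {β}) ∩ S ⊆ C := fun a ha => h.hST ⟨ha.2, ha.1.1⟩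
    have h1 : ret Γ S l ∈ par Γ C := par_mono Γ hsub (ret_mem_inter Γ hl)
    have h2 : ret Γ S l' ∈ par Γ C := par_mono Γ hsub (ret_mem_inter Γ hl')
    have h3 : ret Γ S e ∈ par Γ ({v | Γ.Adj β v} ∩ S) := ret_mem_inter Γ he
    have h4 : g = ret Γ S l' * ret Γ S e * (ret Γ S l)⁻¹ := by
      have h5 := congrArg (ret Γ S) hgl
      rw [ret_eq_self Γ hg, map_mul, map_mul, map_inv] at h5
      exact h5
    apply hgn
    by_cases hby : β = y
    · subst hby
      obtain ⟨n, hn⟩ := Raag2_mem_singleton Γ (x := x) (fun a ha => h.h3 a ha.2 ha.1) h3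
      refine ⟨ret Γ S l', h2, (ret Γ S l)⁻¹, (par Γ C).inv_mem h1, n, ?_⟩
      rw [← hn]
      exact h4
    · have h5 : ret Γ S e ∈ par Γ C :=
        par_mono Γ (fun a ha => h.h2 β hβT hβC hby a ha.2 ha.1) h3
      refine ⟨g, ?_, 1, (par Γ C).one_mem, 0, by simp⟩
      rw [h4]
      exact (par Γ C).mul_mem ((par Γ C).mul_mem h2 h5) ((par Γ C).inv_mem h1)
  · -- r3
    intro s hs s1 hs1 n m hn hm k hk k1 hk1 heq
    have hnm : n = m := by
      have h5 := congrArg (ret Γ {x}) heq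
      simp only [map_mul, Raag2_ret_singleton Γ h.hxC hs, Raag2_ret_singleton Γ h.hxC hs1,
        Raag2_ret_singleton Γ hxT hk, Raag2_ret_singleton Γ hxT hk1, Raag2_ret_self, one_mul,
        mul_one] at h5
      exact Raag2_zpow_inj Γ h5
    subst hnm
    have h6 : s * k = s1 * k1 := by
      have h5 := congrArg (ret Γ T) heq
      simp only [map_mul, ret_eq_self Γ (hKT hs), ret_eq_self Γ (hKT hs1), ret_eq_self Γ hk,
        ret_eq_self Γ hk1, Raag2_ret_not Γ hxT, mul_one] at h5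
      exact h5
    -- the element commuting with the power
    have h7 : s⁻¹ * s1 = k * k1⁻¹ := by
      rw [inv_mul_eq_iff_eq_mul, ← mul_assoc, h6, mul_inv_cancel_right]
    have h8 : gen Γ x ^ n * (s⁻¹ * s1) = (s⁻¹ * s1) * gen Γ x ^ n := by
      have h9 : s⁻¹ * s1 * gen Γ x ^ n = gen Γ x ^ n * (k * k1⁻¹) := by
        have h10 : s⁻¹ * (s1 * gen Γ x ^ n * k1) * k1⁻¹ = s⁻¹ * (s * gen Γ x ^ n * k) * k1⁻¹ := by
          rw [heq]
        have h11 : s⁻¹ * (s1 * gen Γ x ^ n * k1) * k1⁻¹ = s⁻¹ * s1 * gen Γ x ^ n := by group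
        have h12 : s⁻¹ * (s * gen Γ x ^ n * k) * k1⁻¹ = gen Γ x ^ n * (k * k1⁻¹) := by group
        rw [← h11, h10, h12]
      rw [h9, h7]
    have h9 : s⁻¹ * s1 = 1 := by
      refine Raag2_eq_one Γ ?_ (mem_of_commute_zpow Γ h.hxC
        ((par Γ C).mul_mem ((par Γ C).inv_mem hs) hs1) hn h8)
      rintro a ⟨ha, hxa⟩
      have h10 : a = y := h.h4 a (hCT ha) hxa
      subst h10
      exact hyC ha
    have h10 : s = s1 := (inv_mul_eq_one.mp h9)
    refine ⟨h10, rfl, ?_⟩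
    rw [h9] at h7
    exact (mul_inv_eq_one.mp h7.symm)
  · -- r4
    intro s hs n hn k hk k' hk' m t ht heq
    have hnm : n = m := by
      have h5 := congrArg (ret Γ {x}) heq
      simp only [map_mul, Raag2_ret_singleton Γ h.hxC hs, Raag2_ret_singleton Γ h.hxC ht,
        Raag2_ret_singleton Γ hxT hk, Raag2_ret_singleton Γ hxT hk', Raag2_ret_self, one_mul,
        mul_one] at h5
      exact Raag2_zpow_inj Γ h5
    subst hnm
    have h6 : s * k = k' * t := by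
      have h5 := congrArg (ret Γ T) heq
      simp only [map_mul, ret_eq_self Γ (hKT hs), ret_eq_self Γ (hKT ht), ret_eq_self Γ hk,
        ret_eq_self Γ hk', Raag2_ret_not Γ hxT, mul_one] at h5
      exact h5
    have h7 : s⁻¹ * k' = k * t⁻¹ := by
      rw [inv_mul_eq_iff_eq_mul, ← mul_assoc, h6, mul_inv_cancel_right]
    have h8 : gen Γ x ^ n * (k * t⁻¹) = (k * t⁻¹) * gen Γ x ^ n := by
      have h10 : s⁻¹ * (k' * gen Γ x ^ n * t) * t⁻¹ = s⁻¹ * (s * gen Γ x ^ n * k) * t⁻¹ := by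
        rw [heq]
      have h11 : s⁻¹ * (k' * gen Γ x ^ n * t) * t⁻¹ = s⁻¹ * k' * gen Γ x ^ n := by group
      have h12 : s⁻¹ * (s * gen Γ x ^ n * k) * t⁻¹ = gen Γ x ^ n * (k * t⁻¹) := by group
      rw [← h12, ← h10, h11, h7]
    have h9 : k * t⁻¹ ∈ par Γ (T ∩ {u | Γ.Adj x u}) :=
      mem_of_commute_zpow Γ hxT ((par Γ T).mul_mem hk ((par Γ T).inv_mem (hKT ht))) hn h8
    obtain ⟨l, hl⟩ := Raag2_mem_singleton Γ (x := y) (fun a ha => h.h4 a ha.1 ha.2) h9
    exact ⟨l, t, ht, by rw [← hl, inv_mul_cancel_right]⟩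
  · -- r5
    intro a ha m m' hm k hk k' hk' heq
    have hnm : m = m' := by
      have h5 := congrArg (ret Γ {y}) heq
      simp only [map_mul, Raag2_ret_singleton Γ hyC ha, Raag2_ret_singleton Γ hyC hk,
        Raag2_ret_singleton Γ hyC hk', Raag2_ret_self, one_mul, mul_one] at h5
      exact Raag2_zpow_inj Γ h5
    subst hnm
    have h6 : a * k = k' := by
      have h5 := congrArg (ret Γ C) heq
      simp only [map_mul, ret_eq_self Γ ha, ret_eq_self Γ hk, ret_eq_self Γ hk',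
        Raag2_ret_not Γ hyC, mul_one, one_mul] at h5
      exact h5
    have h8 : gen Γ y ^ m * a = a * gen Γ y ^ m := by
      have h10 : gen Γ y ^ m * (a * k) * k⁻¹ = a * (gen Γ y ^ m * k) * k⁻¹ := by
        rw [heq, h6]
      have h11 : gen Γ y ^ m * (a * k) * k⁻¹ = gen Γ y ^ m * a := by group
      have h12 : a * (gen Γ y ^ m * k) * k⁻¹ = a * gen Γ y ^ m := by group
      rw [← h11, h10, h12]
    refine Raag2_eq_one Γ ?_ (mem_of_commute_zpow Γ hyC ha hm h8)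
    rintro c ⟨hc, hyc⟩
    have h10 : c = x := h.h3 c (h.hCS hc) hyc
    subst h10
    exact h.hxC hc

theorem raag_icc (hΓ : ∀ F : Set V, F.Finite → ∃ v, v ∉ F ∧ ∀ a ∈ F, ¬ Γ.Adj v a) (g : Raag Γ)
    (hg : g ≠ 1) : {h | ∃ k, h = k * g * k⁻¹}.Infinite := by
  obtain ⟨F, hF, hgF⟩ := exists_finite_support Γ g
  obtain ⟨v, hvF, hv⟩ := hΓ F hF
  refine Set.infinite_of_injective_forall_mem
    (f := fun n : ℤ => gen Γ v ^ n * g * (gen Γ v ^ n)⁻¹) ?_ (fun n => ⟨_, rfl⟩)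
  intro n m hnm
  change gen Γ v ^ n * g * (gen Γ v ^ n)⁻¹ = gen Γ v ^ m * g * (gen Γ v ^ m)⁻¹ at hnm
  by_contra hne
  have hk : n - m ≠ 0 := sub_ne_zero.mpr hne
  have h1 : gen Γ v ^ (n - m) * g = g * gen Γ v ^ (n - m) := by
    have h2 : gen Γ v ^ (n - m) * g =
        (gen Γ v ^ m)⁻¹ * (gen Γ v ^ n * g * (gen Γ v ^ n)⁻¹) * gen Γ v ^ n := by
      have h3 : gen Γ v ^ (n - m) = (gen Γ v ^ m)⁻¹ * gen Γ v ^ n := by
        rw [← zpow_neg, ← zpow_add]
        congr 1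
        ring
      rw [h3]
      group
    have h4 : g * gen Γ v ^ (n - m) =
        (gen Γ v ^ m)⁻¹ * (gen Γ v ^ m * g * (gen Γ v ^ m)⁻¹) * gen Γ v ^ n := by
      have h3 : gen Γ v ^ (n - m) = (gen Γ v ^ m)⁻¹ * gen Γ v ^ n := by
        rw [← zpow_neg, ← zpow_add]
        congr 1
        ring
      rw [h3]
      group
    rw [h2, h4, hnm]
  apply hg
  refine Raag2_eq_one Γ ?_ (mem_of_commute_zpow Γ hvF hgF hk h1)
  rintro a ⟨ha, hva⟩
  exact hv a ha hva

end Pool.Agent.H68.Amp
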