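import Pool.Agent.H68.Amp.Select
import Pool.Agent.H68.Amp.Raag2
import Pool.Agent.H68.Amp.Quant
import Pool.Agent.H68.Amp.Approx

set_option autoImplicit false

/-! # The core theorem -/

open Filter Topology Cardinal

namespace Pool.Agent.H68.Amp

theorem Core_countable {G : Type*} (ξ : L2 G) : {g | ξ g ≠ 0}.Countable := by
  have h := (L2_summable ξ).countable_support
  refine h.mono fun g hg => ?_
  rw [Function.mem_support]
  exact pow_ne_zero _ (norm_ne_zero_iff.2 hg)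

theorem Core_le {ω : Filter ℕ} {f : ℕ → ℝ} {δ : ℝ} (hδ : 0 < δ) (h : Tendsto f ω (𝓝 0)) :
    ∀ᶠ k in ω, f k ≤ δ :=
  (h.eventually (gt_mem_nhds hδ)).mono fun _ hk => hk.le

theorem Core_supports {V : Type} (Γ : SimpleGraph V) {ω : Filter ℕ} {κ : ℝ}
    (R : ApproxRep (Raag Γ) ω κ) : ∃ S0 : V → Set V, (∀ v, (S0 v).Countable) ∧
      ∀ v k, Supp (hat (R.A (gen Γ v) k)) (par Γ (S0 v) : Set (Raag Γ)) := by
  have hQ : ∀ v, {g | ∃ k, hat (R.A (gen Γ v) k) g ≠ 0}.Countable := by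
    intro v
    have h1 : {g | ∃ k, hat (R.A (gen Γ v) k) g ≠ 0} =
        ⋃ k, {g | hat (R.A (gen Γ v) k) g ≠ 0} := by
      ext g
      simp
    rw [h1]
    exact Set.countable_iUnion fun k => Core_countable _
  have hex := fun v => exists_countable_support Γ _ (hQ v)
  choose S0 hS0 hS0' using hex
  refine ⟨S0, hS0, fun v k g hg => ?_⟩
  by_contra hne
  exact hg (hS0' v g ⟨k, hne⟩)

theorem Core_contra {V : Type} (Γ : SimpleGraph V) {ω : Filter ℕ} [NeBot ω] {κ : ℝ}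
    (hκ0 : 0 < κ) (hκ1 : κ < 1) (R : ApproxRep (Raag Γ) ω κ) {x y : V} {S' T' C C' : Set V}
    (hgp : GoodPair Γ x y S' T' C C') (hadj : Γ.Adj x y)
    (hsx : ∀ k, Supp (hat (R.A (gen Γ x) k)) (par Γ S' : Set (Raag Γ)))
    (hsy : ∀ k, Supp (hat (R.A (gen Γ y) k)) (par Γ T' : Set (Raag Γ)))
    (hx : Tendsto (fun k => ‖pr (par Γ C : Set (Raag Γ)) (hat (R.A (gen Γ x) k))‖) ω (𝓝 0))
    (hy : Tendsto (fun k => ‖pr (par Γ C' : Set (Raag Γ)) (hat (R.A (gen Γ y) k))‖) ω (𝓝 0)) :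
    False := by
  have hP := algPair Γ hgp
  obtain ⟨Bx, hBx⟩ := R.bdd (gen Γ x)
  obtain ⟨By, hBy⟩ := R.bdd (gen Γ y)
  obtain ⟨δ, hδ, hq⟩ := quant hP (B := max 1 (max Bx By)) (le_max_left _ _) hκ0 hκ1
  have e1 := Core_le hδ (R.comm (gen_comm Γ hadj))
  have e2 := Core_le hδ hx
  have e3 := Core_le hδ hy
  have e4 := Core_le hδ (R.mul_one_sub (gen Γ x) (gen Γ y))
  have e5 : ∀ᶠ k in ω, κ - δ ≤ ‖hat (R.A (gen Γ x) k)‖ ^ 2 :=
    ((R.norm_sq (gen Γ x)).eventually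
      (lt_mem_nhds (show κ - δ < κ by linarith))).mono fun _ hk => hk.le
  have e6 : ∀ᶠ k in ω, ‖hat (R.A (gen Γ y) k * star (R.A (gen Γ y) k))‖ ^ 2 ≤ κ + δ :=
    ((R.norm_sq_mul_star (gen Γ y)).eventually
      (gt_mem_nhds (show κ < κ + δ by linarith))).mono fun _ hk => hk.le
  obtain ⟨k, k1, k2, k3, k4, k5, k6⟩ :=
    (e1.and (e2.and (e3.and (e4.and (e5.and e6))))).exists
  exact hq (R.A (gen Γ x) k) (R.A (gen Γ y) k) (R.lg _ _) (R.lg _ _) (hsx k) (hsy k)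
    ((hBx k).trans ((le_max_left _ _).trans (le_max_right _ _)))
    ((hBy k).trans ((le_max_right _ _).trans (le_max_right _ _))) k1 k2 k3 k4 k5 k6

theorem core (D : TreeData) (A : D.Bl → Set D.L) (hA : D.Rigid A) {ω : Filter ℕ} [NeBot ω] {κ : ℝ}
    (hκ0 : 0 < κ) (hκ1 : κ < 1) (R : ApproxRep (Raag (bGraph (D.nb A))) ω κ) : False := by
  obtain ⟨S0, hS0, hsupp⟩ := Core_supports (bGraph (D.nb A)) R
  obtain ⟨x, y, S', T', C, C', -, -, hgp, hSx, hSy, hxB, hyB, hadj⟩ := selection D A hA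
    (fun v => S0 v ∪ {v}) (fun v => (hS0 v).union (Set.countable_singleton v))
    (fun v => Or.inr rfl)
    (fun C => {v | ¬ Tendsto (fun k => ‖pr (par (bGraph (D.nb A)) C : Set (Raag (bGraph (D.nb A))))
      (hat (R.A (gen (bGraph (D.nb A)) v) k))‖) ω (𝓝 0)})
    (fun C hC => bad_small R _ (par_countable _ hC) (gen (bGraph (D.nb A))) (gen_injective _))
  exact Core_contra (bGraph (D.nb A)) hκ0 hκ1 R hgp hadj
    (fun k => (hsupp x k).mono (par_mono _ (Set.subset_union_left.trans hSx)))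
    (fun k => (hsupp y k).mono (par_mono _ (Set.subset_union_left.trans hSy)))
    (not_not.1 hxB) (not_not.1 hyB)

end Pool.Agent.H68.Amp
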