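import Pool.Agent.H68.Amp.Stmt

set_option autoImplicit false

/-! # The upper left entry of a corner -/

universe u

open Filter Topology H80VN Matrix

namespace Pool.Agent.H68.Amp

variable {M : Type u} [CStarAlgebra M] {n : ℕ} {p : Matrix (Fin (n + 1)) (Fin (n + 1)) M}

theorem e_mem (hs : star p = p) (he : p * single 0 0 1 = single 0 0 1) (x : M) :
    p * single 0 0 x * p = single 0 0 x := by
  have h1 : (single 0 0 x : Matrix (Fin (n + 1)) (Fin (n + 1)) M) =
      single 0 0 1 * single 0 0 x := by
    rw [single_mul_single_same, one_mul]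
  have h2 : (single 0 0 x : Matrix (Fin (n + 1)) (Fin (n + 1)) M) =
      single 0 0 x * single 0 0 1 := by
    rw [single_mul_single_same, mul_one]
  have he' : (single 0 0 1 : Matrix (Fin (n + 1)) (Fin (n + 1)) M) * p = single 0 0 1 := by
    have h3 := congrArg star he
    rw [star_mul, hs] at h3
    have h4 : star (single 0 0 1 : Matrix (Fin (n + 1)) (Fin (n + 1)) M) = single 0 0 1 := by
      rw [star_eq_conjTranspose, conjTranspose_single, star_one]
    rwa [h4] at h3
  have h5 : p * single 0 0 x = single 0 0 x := by
    rw [h1, ← mul_assoc, he]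
  rw [h5, h2, mul_assoc, he']

/-- `x ∈ M` as an element of the upper left corner `e_11 M_n(M) e_11` of `p M_n(M) p`. -/
def eC (hs : star p = p) (hp : p * p = p) (he : p * single 0 0 1 = single 0 0 1) (x : M) :
    Corner p hs hp := ⟨single 0 0 x, e_mem hs he x⟩

variable (hs : star p = p) (hp : p * p = p) (he : p * single 0 0 1 = single 0 0 1)

theorem eC_mul (x y : M) : eC hs hp he (x * y) = eC hs hp he x * eC hs hp he y := by
  apply Subtype.ext
  show single 0 0 (x * y) = single 0 0 x * single 0 0 y
  rw [single_mul_single_same]

theorem eC_star (x : M) : eC hs hp he (star x) = star (eC hs hp he x) := by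
  apply Subtype.ext
  show single 0 0 (star x) = star (single 0 0 x)
  rw [star_eq_conjTranspose, conjTranspose_single]

theorem eC_add (x y : M) : eC hs hp he (x + y) = eC hs hp he x + eC hs hp he y := by
  apply Subtype.ext
  show single 0 0 (x + y) = single 0 0 x + single 0 0 y
  rw [single_add]

theorem eC_smul (c : ℂ) (x : M) : eC hs hp he (c • x) = c • eC hs hp he x := by
  apply Subtype.ext
  show single 0 0 (c • x) = c • single 0 0 x
  rw [smul_single]

end Pool.Agent.H68.Amp
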