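import Pool.Agent.H68.Amp.CornerE
import Pool.Agent.H68.Amp.UniqTr

set_option autoImplicit false

/-! # Tracial functionals on the corner -/

universe u

open Filter Topology H80VN Matrix

open scoped ComplexOrder

namespace Pool.Agent.H68.Amp

section CornerTr

variable {M : Type u} [CStarAlgebra M] {n : ℕ} {p : Matrix (Fin (n + 1)) (Fin (n + 1)) M}

theorem CornerTr_e_mul (hs : star p = p) (he : p * single 0 0 1 = single 0 0 1) :
    (single 0 0 1 : Matrix (Fin (n + 1)) (Fin (n + 1)) M) * p = single 0 0 1 := by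
  have h3 := congrArg star he
  rw [star_mul, hs] at h3
  have h4 : star (single 0 0 1 : Matrix (Fin (n + 1)) (Fin (n + 1)) M) = single 0 0 1 := by
    rw [star_eq_conjTranspose, conjTranspose_single, star_one]
  rwa [h4] at h3

theorem CornerTr_v_mem (hs : star p = p) (hp : p * p = p)
    (he : p * single 0 0 1 = single 0 0 1) (j : Fin (n + 1)) :
    p * (p * single j 0 1) * p = p * single j 0 1 := by
  have h1 : (single j 0 1 : Matrix (Fin (n + 1)) (Fin (n + 1)) M) =
      single j 0 1 * single 0 0 1 := by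
    rw [single_mul_single_same, one_mul]
  have h2 : (single j 0 1 : Matrix (Fin (n + 1)) (Fin (n + 1)) M) * p = single j 0 1 := by
    rw [h1, mul_assoc, CornerTr_e_mul hs he]
  rw [← mul_assoc, hp, mul_assoc, h2]

/-- The partial isometries from the first corner to the diagonal corners, cut down by `p`. -/
def CornerTr_v (hs : star p = p) (hp : p * p = p) (he : p * single 0 0 1 = single 0 0 1)
    (j : Fin (n + 1)) : Corner p hs hp := ⟨p * single j 0 1, CornerTr_v_mem hs hp he j⟩

theorem CornerTr_star_mul (hs : star p = p) (hp : p * p = p)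
    (he : p * single 0 0 1 = single 0 0 1) (j : Fin (n + 1)) :
    star (CornerTr_v hs hp he j) * CornerTr_v hs hp he j = eC hs hp he (p j j) := by
  apply Subtype.ext
  show star (p * single j 0 1) * (p * single j 0 1) = single 0 0 (p j j)
  rw [star_mul, hs]
  have h4 : star (single j 0 1 : Matrix (Fin (n + 1)) (Fin (n + 1)) M) = single 0 j 1 := by
    rw [star_eq_conjTranspose, conjTranspose_single, star_one]
  rw [h4, mul_assoc, ← mul_assoc p p, hp, ← mul_assoc, single_mul_mul_single, one_mul, mul_one]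

theorem CornerTr_mul_star (hs : star p = p) (hp : p * p = p)
    (he : p * single 0 0 1 = single 0 0 1) :
    ∑ j, CornerTr_v hs hp he j * star (CornerTr_v hs hp he j) = Corner.unit hs hp := by
  apply Subtype.ext
  have h1 : ((∑ j, CornerTr_v hs hp he j * star (CornerTr_v hs hp he j) : Corner p hs hp) :
      Matrix (Fin (n + 1)) (Fin (n + 1)) M) =
      ∑ j, (p * single j 0 1) * star (p * single j 0 1) := by
    rw [AddSubmonoidClass.coe_finsetSum]
    rfl
  rw [h1]
  show _ = p
  have h2 : ∀ j : Fin (n + 1), (p * single j 0 1) * star (p * single j 0 1) =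
      p * single j j 1 * p := by
    intro j
    rw [star_mul, hs]
    have h4 : star (single j 0 1 : Matrix (Fin (n + 1)) (Fin (n + 1)) M) = single 0 j 1 := by
      rw [star_eq_conjTranspose, conjTranspose_single, star_one]
    rw [h4, mul_assoc, ← mul_assoc (single j 0 1), single_mul_single_same, one_mul, mul_assoc]
  simp only [h2]
  rw [← Finset.sum_mul, ← Finset.mul_sum, sum_single_eq_diagonal, diagonal_one, mul_one, hp]

theorem CornerTr_diag (hs : star p = p) (hp : p * p = p) (j : Fin (n + 1)) :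
    p j j = ∑ i, star (p i j) * p i j := by
  have h1 : p j j = (p * p) j j := by rw [hp]
  rw [h1, mul_apply]
  refine Finset.sum_congr rfl fun i _ => ?_
  have h2 : star (p i j) = p j i := by
    have := congrFun (congrFun hs j) i
    rw [star_apply] at this
    exact this
  rw [h2]

theorem CornerTr_col (he : p * single 0 0 1 = single 0 0 1) (i : Fin (n + 1)) :
    p i 0 = (single 0 0 1 : Matrix (Fin (n + 1)) (Fin (n + 1)) M) i 0 := by
  rw [← he, mul_single_apply_same, mul_one]

end CornerTr

theorem corner_trace {M : Type u} [CStarAlgebra M] {τ : M →ₗ[ℂ] ℂ} (h : Stmt.IsII1Factor τ)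
    {n : ℕ} {p : Matrix (Fin (n + 1)) (Fin (n + 1)) M} (hs : star p = p) (hp : p * p = p)
    (he : p * single 0 0 1 = single 0 0 1) (hne : p ≠ single 0 0 1)
    (ψ : Corner p hs hp →ₗ[ℂ] ℂ) (ψtr : ∀ a b, ψ (a * b) = ψ (b * a))
    (ψpos : ∀ a, ∃ r : ℝ, 0 ≤ r ∧ ψ (star a * a) = r) (ψone : ψ (Corner.unit hs hp) = 1) :
    ∃ κ : ℝ, 0 < κ ∧ κ < 1 ∧ ∀ x, ψ (eC hs hp he x) = κ * τ x := by
  have hτ : ∀ x : M, 0 ≤ τ (star x * x) := by
    obtain ⟨H, _, _, _, A, π, ξ, hr⟩ := h.1.normal
    exact fun x => rep_nonneg hr x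
  set f : M →ₗ[ℂ] ℂ :=
    { toFun := fun x => ψ (eC hs hp he x)
      map_add' := fun x y => by rw [eC_add, map_add]
      map_smul' := fun c x => by rw [eC_smul, map_smul]; rfl } with hf
  have hfx : ∀ x, f x = ψ (eC hs hp he x) := fun x => rfl
  have hftr : ∀ x y, f (x * y) = f (y * x) := by
    intro x y
    rw [hfx, hfx, eC_mul, eC_mul, ψtr]
  have hfpos : ∀ x, ∃ r : ℝ, 0 ≤ r ∧ f (star x * x) = r := by
    intro x
    obtain ⟨r, hr, h1⟩ := ψpos (eC hs hp he x)
    refine ⟨r, hr, ?_⟩
    rw [hfx, eC_mul, eC_star]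
    exact h1
  have hu := unique_trace h f hftr hfpos
  obtain ⟨κ, hκ, hκ1⟩ := hfpos 1
  rw [star_one, one_mul] at hκ1
  have hmain : ∀ x, ψ (eC hs hp he x) = κ * τ x := by
    intro x
    rw [← hfx, hu x, hκ1]
  -- the sum of the diagonal traces
  have hsum : (1 : ℂ) = κ * ∑ j, τ (p j j) := by
    rw [← ψone, ← CornerTr_mul_star hs hp he, map_sum, Finset.mul_sum]
    refine Finset.sum_congr rfl fun j _ => ?_
    rw [ψtr, CornerTr_star_mul, hmain]
  -- real parts
  have hdiag : ∀ j, τ (p j j) = ∑ i, τ (star (p i j) * p i j) := by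
    intro j
    conv_lhs => rw [CornerTr_diag hs hp j]
    rw [map_sum]
  have hre : ∀ j, (τ (p j j)).re = ∑ i, (τ (star (p i j) * p i j)).re := by
    intro j
    rw [hdiag, Complex.re_sum]
  have hnn : ∀ x : M, 0 ≤ (τ (star x * x)).re := fun x => (Complex.le_def.1 (hτ x)).1
  have hpj : ∀ j, 0 ≤ (τ (p j j)).re := by
    intro j
    rw [hre]
    exact Finset.sum_nonneg fun i _ => hnn _
  have hsumre : 1 = κ * ∑ j, (τ (p j j)).re := by
    have h1 := congrArg Complex.re hsum
    rw [Complex.one_re, Complex.re_ofReal_mul, Complex.re_sum] at h1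
    exact h1
  have h00 : (τ (p 0 0)).re = 1 := by
    rw [CornerTr_col he 0, single_apply_same, h.1.one, Complex.one_re]
  -- a nonzero entry
  obtain ⟨i, j, hij⟩ : ∃ i j, p i j ≠ (single 0 0 1 : Matrix (Fin (n + 1)) (Fin (n + 1)) M) i j := by
    by_contra hcon
    push Not at hcon
    exact hne (Matrix.ext hcon)
  have hj : j ≠ 0 := by
    rintro rfl
    exact hij (CornerTr_col he i)
  have hpij : p i j ≠ 0 := by
    intro h0
    refine hij ?_
    rw [h0, single_apply_of_col_ne _ _ (fun h' => hj h'.symm)]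
  have hpos : 0 < (τ (star (p i j) * p i j)).re := by
    rcases (hnn (p i j)).lt_or_eq with h1 | h1
    · exact h1
    · exfalso
      refine hpij (h.1.faithful _ ?_)
      exact Complex.ext h1.symm (Complex.le_def.1 (hτ (p i j))).2.symm
  have hjpos : 0 < (τ (p j j)).re := by
    rw [hre]
    exact lt_of_lt_of_le hpos (Finset.single_le_sum (f := fun i => (τ (star (p i j) * p i j)).re)
      (fun i _ => hnn _) (Finset.mem_univ i))
  have hT : 1 < ∑ j, (τ (p j j)).re := by
    have h1 : (τ (p 0 0)).re + (τ (p j j)).re ≤ ∑ j, (τ (p j j)).re := by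
      rw [← Finset.sum_pair (f := fun j => (τ (p j j)).re) hj.symm]
      exact Finset.sum_le_sum_of_subset_of_nonneg (Finset.subset_univ _) fun l _ _ => hpj l
    rw [h00] at h1
    linarith
  have hκpos : 0 < κ := by
    rcases hκ.lt_or_eq with h1 | h1
    · exact h1
    · rw [← h1, zero_mul] at hsumre
      exact absurd hsumre one_ne_zero
  refine ⟨κ, hκpos, ?_, hmain⟩
  by_contra hcon
  push Not at hcon
  have : 1 < κ * ∑ j, (τ (p j j)).re :=
    lt_of_lt_of_le hT (le_mul_of_one_le_left (by linarith) hcon)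
  linarith

end Pool.Agent.H68.Amp
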