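import Mathlib

set_option autoImplicit false

/-! # A Delta-system lemma for countable sets -/

open Cardinal Set

namespace Pool.Agent.H68.Amp

/-- Maximal families with pairwise intersections in `C`. -/
theorem Delta_exists_max {ι V : Type} (S : ι → Set V) (C : Set V) :
    ∃ Z : Set ι, (∀ i ∈ Z, ∀ j ∈ Z, i ≠ j → S i ∩ S j ⊆ C) ∧
      ∀ i, (∀ j ∈ Z, S i ∩ S j ⊆ C) → i ∈ Z := by
  obtain ⟨Z, hZ⟩ := zorn_subset {Z : Set ι | Z.Pairwise fun i j => S i ∩ S j ⊆ C} (by
    intro c hc hchain
    refine ⟨⋃₀ c, ?_, fun s hs => Set.subset_sUnion_of_mem hs⟩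
    exact (Set.pairwise_sUnion hchain.directedOn).2 fun a ha => hc ha)
  refine ⟨Z, fun i hi j hj hij => hZ.prop hi hj hij, fun i hi => ?_⟩
  have h1 : insert i Z ∈ {Z : Set ι | Z.Pairwise fun i j => S i ∩ S j ⊆ C} := by
    refine Set.Pairwise.insert hZ.prop fun j hj _ => ⟨hi j hj, ?_⟩
    rw [Set.inter_comm]
    exact hi j hj
  exact hZ.le_of_ge h1 (Set.subset_insert i Z) (Set.mem_insert i Z)

/-- Enumeration of a countable set by options. -/
theorem Delta_enum {V : Type} {s : Set V} (hs : s.Countable) :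
    ∃ e : ℕ → Option V, ∀ v, v ∈ s ↔ ∃ n, e n = some v := by
  rcases s.eq_empty_or_nonempty with rfl | hne
  · exact ⟨fun _ => none, fun v => by simp⟩
  · obtain ⟨f, rfl⟩ := hs.exists_eq_range hne
    refine ⟨fun n => some (f n), fun v => ?_⟩
    simp only [Set.mem_range, Option.some.injEq]

/-- The arities. -/
def DeltaArity (K : Type) : Option (K × ℕ) → Type
  | none => Empty
  | some _ => ℕ

theorem Delta_card_W {κ : Cardinal.{0}} (hκ : κ ^ (ℵ₀ : Cardinal.{0}) = κ) (hinf : ℵ₀ ≤ κ)
    {K : Type} (hK : #K = κ) : #(WType (DeltaArity K)) ≤ κ := by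
  refine WType.cardinalMk_le_of_le ?_
  have h1 : ∀ a : Option (K × ℕ), κ ^ #(DeltaArity K a) ≤ κ := by
    intro a
    cases a with
    | none =>
      have : #(DeltaArity K none) = 0 := Cardinal.mk_eq_zero Empty
      rw [this, Cardinal.power_zero]
      exact (Cardinal.one_lt_aleph0.trans_le hinf).le
    | some a =>
      have : #(DeltaArity K (some a)) = ℵ₀ := Cardinal.mk_nat
      rw [this, hκ]
  calc (sum fun a : Option (K × ℕ) => κ ^ #(DeltaArity K a))
      ≤ sum fun _ : Option (K × ℕ) => κ := Cardinal.sum_le_sum _ _ h1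
    _ = #(Option (K × ℕ)) * κ := by simp
    _ ≤ κ * κ := by
        refine mul_le_mul' ?_ le_rfl
        rw [Cardinal.mk_option, Cardinal.mk_prod, Cardinal.lift_id, Cardinal.lift_id, hK,
          Cardinal.mk_nat, Cardinal.mul_aleph0_eq hinf,
          Cardinal.add_one_eq hinf]
    _ = κ := Cardinal.mul_eq_self hinf

theorem delta_system {ι V : Type} (κ : Cardinal.{0}) (hκ : κ ^ (ℵ₀ : Cardinal.{0}) = κ)
    (hinf : ℵ₀ ≤ κ) (hι : κ < #ι) (S : ι → Set V) (hS : ∀ i, (S i).Countable) :
    ∃ (C : Set V) (Z : Set ι), C.Countable ∧ κ < #Z ∧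
      ∀ i ∈ Z, ∀ j ∈ Z, i ≠ j → S i ∩ S j ⊆ C := by
  classical
  by_contra hno
  push Not at hno
  have hιne : Nonempty ι := by
    by_contra h
    rw [not_nonempty_iff] at h
    rw [Cardinal.mk_eq_zero ι] at hι
    exact absurd hι (not_lt.2 zero_le)
  obtain ⟨i0⟩ := hιne
  choose Z hZ1 hZ2 using Delta_exists_max S
  obtain ⟨K, hK⟩ : ∃ K : Type, #K = κ := ⟨κ.out, Cardinal.mk_out κ⟩
  -- every `Z C` with `C` countable is contained in the range of a map on `K`
  have hz : ∀ C : Set V, ∃ z : K → ι, C.Countable → Z C ⊆ Set.range z := by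
    intro C
    by_cases hC : C.Countable
    · have hle : #(Z C) ≤ #K := by
        rw [hK]
        by_contra hlt
        rw [not_le] at hlt
        obtain ⟨i, hi, j, hj, hij, hnot⟩ := hno C (Z C) hC hlt
        exact hnot (hZ1 C i hi j hj hij)
      obtain ⟨f⟩ := hle
      refine ⟨fun k => if h : ∃ x : Z C, f x = k then (h.choose : ι) else i0, fun _ x hx => ?_⟩
      refine ⟨f ⟨x, hx⟩, ?_⟩
      have h : ∃ y : Z C, f y = f ⟨x, hx⟩ := ⟨_, rfl⟩
      show (if h : ∃ y : Z C, f y = f ⟨x, hx⟩ then (h.choose : ι) else i0) = x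
      rw [dif_pos h]
      exact congrArg Subtype.val (f.injective h.choose_spec)
    · exact ⟨fun _ => i0, fun h => absurd h hC⟩
  choose z hz using hz
  choose e he using fun i => Delta_enum (hS i)
  let Cf : (ℕ → Option V) → Set V := fun f => {v | ∃ m, f m = some v}
  have hCf : ∀ f, (Cf f).Countable := by
    intro f
    refine (Set.countable_range f).preimage_of_injOn (f := some) ?_ |>.mono ?_
    · exact (Option.some_injective V).injOn
    · rintro v ⟨m, hm⟩
      exact ⟨m, hm⟩
  let step : (Σ a : Option (K × ℕ), DeltaArity K a → Option V) → Option V := fun x =>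
    match x with
    | ⟨none, _⟩ => none
    | ⟨some kn, f⟩ => e (z (Cf f) kn.1) kn.2
  let ev : WType (DeltaArity K) → Option V := WType.elim (Option V) step
  let U : Set V := {v | ∃ w, ev w = some v}
  -- closure
  have hclosed : ∀ (f : ℕ → WType (DeltaArity K)) (k : K),
      S (z (Cf fun m => ev (f m)) k) ⊆ U := by
    intro f k v hv
    obtain ⟨n, hn⟩ := (he _ v).1 hv
    exact ⟨WType.mk (some (k, n)) f, hn⟩
  -- every countable subset of `U` is coded
  have hcode : ∀ C : Set V, C.Countable → C ⊆ U → ∃ f : ℕ → WType (DeltaArity K),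
      Cf (fun m => ev (f m)) = C := by
    intro C hC hCU
    obtain ⟨g, hg⟩ := Delta_enum hC
    have h1 : ∀ n, ∃ w, ev w = g n := by
      intro n
      rcases hgn : g n with _ | v
      · exact ⟨WType.mk none Empty.elim, rfl⟩
      · exact hCU ((hg v).2 ⟨n, hgn⟩)
    choose f hf using h1
    refine ⟨f, ?_⟩
    ext v
    simp only [Cf, hf, Set.mem_ofPred_eq]
    exact (hg v).symm
  -- an index outside the small union
  have hW := Delta_card_W hκ hinf hK
  obtain ⟨i, hi⟩ : ∃ i : ι, ∀ (f : ℕ → WType (DeltaArity K)) (k : K),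
      z (Cf fun m => ev (f m)) k ≠ i := by
    by_contra hcon
    push Not at hcon
    have hsurj : Function.Surjective
        (fun x : (ℕ → WType (DeltaArity K)) × K => z (Cf fun m => ev (x.1 m)) x.2) := by
      intro i
      obtain ⟨f, k, h⟩ := hcon i
      exact ⟨(f, k), h⟩
    have h1 := Cardinal.mk_le_of_surjective hsurj
    have h2 : #((ℕ → WType (DeltaArity K)) × K) ≤ κ := by
      rw [Cardinal.mk_prod, Cardinal.lift_id, Cardinal.lift_id, hK, ← Cardinal.power_def,
        Cardinal.mk_nat]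
      calc #(WType (DeltaArity K)) ^ (ℵ₀ : Cardinal.{0}) * κ ≤ κ ^ (ℵ₀ : Cardinal.{0}) * κ :=
            mul_le_mul' (Cardinal.power_le_power_right hW) le_rfl
        _ = κ := by rw [hκ, Cardinal.mul_eq_self hinf]
    exact absurd (hι.trans_le (h1.trans h2)) (lt_irrefl _)
  have hCc : (S i ∩ U).Countable := (hS i).mono Set.inter_subset_left
  obtain ⟨f, hf⟩ := hcode (S i ∩ U) hCc Set.inter_subset_right
  have hmem : i ∈ Z (S i ∩ U) := by
    refine hZ2 _ i fun j hj v hv => ⟨hv.1, ?_⟩
    obtain ⟨k, rfl⟩ := hz _ hCc hj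
    have := hclosed f k
    rw [hf] at this
    exact this hv.2
  obtain ⟨k, hk⟩ := hz _ hCc hmem
  refine hi f k ?_
  rw [hf]
  exact hk

end Pool.Agent.H68.Amp
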