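import Pool.Agent.H68.Amp.LGvn

set_option autoImplicit false

/-! # `L(G)` is a II₁ factor if `G` is ICC -/

open Filter Topology H80VN

namespace Pool.Agent.H68.Amp

open scoped InnerProductSpace in
theorem Factor_orthonormal (G : Type) [Group G] : Orthonormal ℂ (fun g : G => (dl g : L2 G)) := by
  classical
  rw [orthonormal_iff_ite]
  intro g h
  rw [inner_dl_left]
  by_cases hgh : g = h
  · subst hgh
    rw [dl_self, if_pos rfl]
  · rw [dl_ne hgh, if_neg hgh]

theorem Factor_const {G : Type} [Group G] {z : LGE G} (hz : ∀ y : LGE G, z * y = y * z) (g k : G) :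
    hat z.op (g * k * g⁻¹) = hat z.op k := by
  have h1 := congrArg (fun T : LGE G => T.op (dl 1) (g * k)) (hz (LGE.u g))
  have h2 : (z * LGE.u g).op (dl 1) (g * k) = hat z.op (g * k * g⁻¹) := by
    show (z.op * ltC g) (dl 1) (g * k) = _
    rw [mul_apply_eq_comp, ltC_apply, lt_dl, mul_one, z.isLG.coeff]
  have h3 : (LGE.u g * z).op (dl 1) (g * k) = hat z.op k := by
    show (ltC g * z.op) (dl 1) (g * k) = _
    rw [mul_apply_eq_comp, ltC_apply, lt_apply, inv_mul_cancel_left]
    rfl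
  rw [← h2, ← h3]
  exact h1

theorem Factor_zero {G : Type} [Group G]
    (hicc : ∀ g : G, g ≠ 1 → {h | ∃ k, h = k * g * k⁻¹}.Infinite) {z : LGE G}
    (hz : ∀ y : LGE G, z * y = y * z) {g : G} (hg : g ≠ 1) : hat z.op g = 0 := by
  by_contra hne
  have hpos : 0 < ‖hat z.op g‖ ^ 2 := by positivity
  have h1 := (L2_summable (hat z.op)).tendsto_cofinite_zero
  have h2 : ∀ᶠ h in cofinite, ‖hat z.op h‖ ^ 2 < ‖hat z.op g‖ ^ 2 := h1.eventually_lt_const hpos
  rw [eventually_cofinite] at h2
  refine hicc g hg (h2.subset ?_)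
  rintro h ⟨k, rfl⟩
  show ¬ ‖hat z.op (k * g * k⁻¹)‖ ^ 2 < ‖hat z.op g‖ ^ 2
  rw [Factor_const hz]
  exact lt_irrefl _

theorem Factor_infinite {G : Type} [Group G] [Nontrivial G]
    (hicc : ∀ g : G, g ≠ 1 → {h | ∃ k, h = k * g * k⁻¹}.Infinite) : Infinite G := by
  obtain ⟨g, hg⟩ := exists_ne (1 : G)
  by_contra hfin
  rw [not_infinite_iff_finite] at hfin
  exact hicc g hg (Set.toFinite _)

theorem isII1Factor_LG {G : Type} [Group G] [Nontrivial G]
    (hicc : ∀ g : G, g ≠ 1 → {h | ∃ k, h = k * g * k⁻¹}.Infinite) :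
    Stmt.IsII1Factor (LGtr G) := by
  refine ⟨isTracialVN_LG G, fun z hz => ⟨hat z.op 1, ?_⟩, fun hfin => ?_⟩
  · apply Subtype.ext
    show z.op = hat z.op 1 • (1 : L2 G →L[ℂ] L2 G)
    refine IsLG.ext z.isLG (IsLG.smul _ isLG_one) ?_
    ext g
    have h1 : hat (hat z.op 1 • (1 : L2 G →L[ℂ] L2 G)) g = hat z.op 1 * (dl 1 : L2 G) g := rfl
    rw [h1]
    by_cases hg : g = 1
    · subst hg
      rw [dl_self, mul_one]
    · rw [dl_ne hg, mul_zero]
      exact Factor_zero hicc hz hg
  · have hinf := Factor_infinite hicc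
    let φ : LGE G →ₗ[ℂ] L2 G :=
      { toFun := fun T => hat T.op
        map_add' := fun S T => rfl
        map_smul' := fun c T => rfl }
    have h1 : LinearIndependent ℂ (φ ∘ fun g : G => LGE.u g) := by
      have h2 : (φ ∘ fun g : G => LGE.u g) = fun g : G => (dl g : L2 G) := by
        funext g
        exact hat_ltC g
      rw [h2]
      exact (Factor_orthonormal G).linearIndependent
    have h3 : LinearIndependent ℂ (fun g : G => LGE.u g) := LinearIndependent.of_comp φ h1
    have h4 : Finite G := h3.finite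
    exact not_finite G

end Pool.Agent.H68.Amp
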