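import Pool.Agent.H80.VNBridge

set_option autoImplicit false

/-!
# Amplifications and ultrapowers of II₁ factors

The definitions used in the statement on `MP_08ffb4_an`. Tracial von Neumann algebras
(`H80VN.Stmt.IsTracialVN`) and II₁ factors (`H80VN.Stmt.IsII1Factor`) are defined in
`Pool.Agent.H80.VNStmt`.
-/

universe u

open Filter Topology H80VN

namespace Pool.Agent.H68.Amp

variable {M : Type u} [CStarAlgebra M]

/-- `ℓ^∞(ℕ, M)`, the ⋆-algebra of norm bounded sequences. -/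
def Bdd (M : Type u) [CStarAlgebra M] : StarSubalgebra ℂ (ℕ → M) where
  carrier := {x | ∃ C : ℝ, ∀ k, ‖x k‖ ≤ C}
  mul_mem' := by
    rintro x y ⟨C, hC⟩ ⟨E, hE⟩
    refine ⟨C * E, fun k => (norm_mul_le _ _).trans ?_⟩
    exact mul_le_mul (hC k) (hE k) (norm_nonneg _) ((norm_nonneg _).trans (hC k))
  add_mem' := by
    rintro x y ⟨C, hC⟩ ⟨E, hE⟩
    exact ⟨C + E, fun k => (norm_add_le _ _).trans (add_le_add (hC k) (hE k))⟩
  algebraMap_mem' := fun r => ⟨‖algebraMap ℂ M r‖, fun _ => le_rfl⟩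
  star_mem' := by
    rintro x ⟨C, hC⟩
    exact ⟨C, fun k => by rw [Pi.star_apply, norm_star]; exact hC k⟩

section norm2

variable {τ : M →ₗ[ℂ] ℂ} (h : Stmt.IsTracialVN τ)
include h

theorem norm2_nonneg (x : M) : 0 ≤ Stmt.norm2 τ x := Real.sqrt_nonneg _

theorem norm2_zero : Stmt.norm2 τ (0 : M) = 0 := @n2_zero M _ (toTracialVN h)

theorem norm2_add_le (x y : M) : Stmt.norm2 τ (x + y) ≤ Stmt.norm2 τ x + Stmt.norm2 τ y :=
  @n2_add_le M _ (toTracialVN h) x y

theorem norm2_mul_le_left (x y : M) : Stmt.norm2 τ (x * y) ≤ ‖x‖ * Stmt.norm2 τ y :=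
  @n2_mul_le_left M _ (toTracialVN h) x y

theorem norm2_mul_le_right (x y : M) : Stmt.norm2 τ (x * y) ≤ Stmt.norm2 τ x * ‖y‖ :=
  @n2_mul_le_right M _ (toTracialVN h) x y

theorem norm2_star (x : M) : Stmt.norm2 τ (star x) = Stmt.norm2 τ x :=
  @n2_star M _ (toTracialVN h) x

end norm2

/-- The ideal `I_ω = {x ∈ ℓ^∞(ℕ, M) | lim_ω ‖x_k‖₂ = 0}`, where `‖x‖₂ = τ (x⋆ x) ^ (1/2)`. -/
def ultraIdeal {τ : M →ₗ[ℂ] ℂ} (h : Stmt.IsTracialVN τ) (ω : Filter ℕ) : Ideal (Bdd M) where
  carrier := {x | Tendsto (fun k => Stmt.norm2 τ (x.1 k)) ω (𝓝 0)}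
  add_mem' := by
    intro x y hx hy
    have h1 := Tendsto.add hx hy
    rw [add_zero] at h1
    exact squeeze_zero (fun k => norm2_nonneg h _) (fun k => norm2_add_le h (x.1 k) (y.1 k)) h1
  zero_mem' := by
    have h1 : (fun k : ℕ => Stmt.norm2 τ (((0 : Bdd M) : ℕ → M) k)) = fun _ => 0 := by
      funext k
      exact norm2_zero h
    show Tendsto (fun k : ℕ => Stmt.norm2 τ (((0 : Bdd M) : ℕ → M) k)) ω (𝓝 0)
    rw [h1]
    exact tendsto_const_nhds
  smul_mem' := by
    rintro ⟨c, C, hC⟩ x hx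
    have h1 := Tendsto.const_mul C hx
    rw [mul_zero] at h1
    exact squeeze_zero (fun k => norm2_nonneg h _)
      (fun k => (norm2_mul_le_left h (c k) (x.1 k)).trans
        (mul_le_mul_of_nonneg_right (hC k) (norm2_nonneg h _))) h1

theorem mem_ultraIdeal {τ : M →ₗ[ℂ] ℂ} {h : Stmt.IsTracialVN τ} {ω : Filter ℕ} {x : Bdd M} :
    x ∈ ultraIdeal h ω ↔ Tendsto (fun k => Stmt.norm2 τ (x.1 k)) ω (𝓝 0) := Iff.rfl

instance {τ : M →ₗ[ℂ] ℂ} (h : Stmt.IsTracialVN τ) (ω : Filter ℕ) : (ultraIdeal h ω).IsTwoSided where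
  mul_mem_of_left := by
    rintro x ⟨c, C, hC⟩ hx
    have h1 := Tendsto.mul_const C hx
    rw [zero_mul] at h1
    exact squeeze_zero (fun k => norm2_nonneg h _)
      (fun k => (norm2_mul_le_right h (x.1 k) (c k)).trans
        (mul_le_mul_of_nonneg_left (hC k) (norm2_nonneg h _))) h1

/-- The ultrapower `M^ω = ℓ^∞(ℕ, M) / I_ω`. -/
abbrev Ultra {τ : M →ₗ[ℂ] ℂ} (h : Stmt.IsTracialVN τ) (ω : Filter ℕ) : Type u :=
  Bdd M ⧸ ultraIdeal h ω

/-- The class of a bounded sequence in the ultrapower. -/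
noncomputable abbrev Ultra.mk {τ : M →ₗ[ℂ] ℂ} (h : Stmt.IsTracialVN τ) (ω : Filter ℕ) : Bdd M →+* Ultra h ω :=
  Ideal.Quotient.mk (ultraIdeal h ω)

/-- The involution of the ultrapower, `(x_k)⋆ = (x_k⋆)`. -/
noncomputable instance {τ : M →ₗ[ℂ] ℂ} (h : Stmt.IsTracialVN τ) (ω : Filter ℕ) :
    Star (Ultra h ω) where
  star := Quotient.lift (fun x : Bdd M => Ultra.mk h ω (star x)) (by
    intro x y hxy
    rw [Ideal.Quotient.eq, mem_ultraIdeal]
    have h1 : x - y ∈ ultraIdeal h ω := by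
      have := (Submodule.quotientRel_def (ultraIdeal h ω)).1 hxy
      exact this
    rw [mem_ultraIdeal] at h1
    refine h1.congr fun k => ?_
    show Stmt.norm2 τ ((x - y).1 k) = Stmt.norm2 τ ((star x - star y).1 k)
    have h2 : (star x - star y).1 k = star ((x - y).1 k) := by
      show star (x.1 k) - star (y.1 k) = star (x.1 k - y.1 k)
      rw [star_sub]
    rw [h2, norm2_star h])

theorem Ultra.star_mk {τ : M →ₗ[ℂ] ℂ} (h : Stmt.IsTracialVN τ) (ω : Filter ℕ) (x : Bdd M) :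
    star (Ultra.mk h ω x) = Ultra.mk h ω (star x) := rfl

/-- The (unnormalized) trace `Tr ⊗ τ` on `M_n(M)`. -/
noncomputable def TrMat (τ : M →ₗ[ℂ] ℂ) {n : ℕ} (a : Matrix (Fin n) (Fin n) M) : ℂ :=
  ∑ i, τ (a i i)

/-- For a projection `p ∈ M_n(M)` with `(Tr ⊗ τ)(p) = t`, the corner `p M_n(M) p` is (a copy of) the
amplification `M^t`. Its unit is `p`. -/
def Corner {n : ℕ} (p : Matrix (Fin n) (Fin n) M) (hs : star p = p) (hp : p * p = p) :
    NonUnitalStarSubalgebra ℂ (Matrix (Fin n) (Fin n) M) where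
  carrier := {a | p * a * p = a}
  zero_mem' := by
    show p * 0 * p = 0
    rw [mul_zero, zero_mul]
  add_mem' := by
    intro a b ha hb
    show p * (a + b) * p = a + b
    have ha' : p * a * p = a := ha
    have hb' : p * b * p = b := hb
    rw [mul_add, add_mul, ha', hb']
  mul_mem' := by
    intro a b ha hb
    have ha' : p * a * p = a := ha
    have hb' : p * b * p = b := hb
    show p * (a * b) * p = a * b
    have h1 : p * a = a := by rw [← ha', ← mul_assoc, ← mul_assoc, hp]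
    have h2 : b * p = b := by rw [← hb', mul_assoc, hp]
    rw [← mul_assoc, h1, mul_assoc, h2]
  smul_mem' := by
    intro c a ha
    have ha' : p * a * p = a := ha
    show p * (c • a) * p = c • a
    rw [mul_smul_comm, smul_mul_assoc, ha']
  star_mem' := by
    intro a ha
    have ha' : p * a * p = a := ha
    show p * star a * p = star a
    calc p * star a * p = star (p * a * p) := by
          rw [star_mul, star_mul, hs, ← mul_assoc]
      _ = star a := by rw [ha']

/-- The unit of the corner. -/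
def Corner.unit {n : ℕ} {p : Matrix (Fin n) (Fin n) M} (hs : star p = p) (hp : p * p = p) :
    Corner p hs hp :=
  ⟨p, by
    show p * p * p = p
    rw [hp, hp]⟩

/-- There is a unital ⋆-homomorphism from the corner `p M_n(M) p` to the ultrapower `M^ω` (for II₁
factors, such a homomorphism is automatically normal, injective and trace preserving; nothing of this
is assumed). -/
def Embeds {τ : M →ₗ[ℂ] ℂ} (h : Stmt.IsTracialVN τ) (ω : Filter ℕ) {n : ℕ}
    (p : Matrix (Fin n) (Fin n) M) (hs : star p = p) (hp : p * p = p) : Prop :=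
  ∃ φ : Corner p hs hp →⋆ₙₐ[ℂ] Ultra h ω, φ (Corner.unit hs hp) = 1

end Pool.Agent.H68.Amp
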