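import Pool.Agent.H80.VNDiffuse
import Pool.Agent.H68.Amp.Stmt

set_option autoImplicit false

/-! # Projections of every trace `t > 1` in `M_n(M)` containing `e_11` -/

universe u

open Filter Topology H80VN Matrix

namespace Pool.Agent.H68.Amp

theorem ProjAmp_proj {M : Type u} [CStarAlgebra M] {τ : M →ₗ[ℂ] ℂ} (h : Stmt.IsII1Factor τ)
    {s : ℝ} (h0 : 0 ≤ s) (h1 : s ≤ 1) : ∃ e : M, star e = e ∧ e * e = e ∧ τ e = (s : ℂ) := by
  letI := toTracialVN h.1
  have h2 : s ≤ rt (1 : M) := by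
    rw [rt_one]
    exact h1
  obtain ⟨e, he, _, hes⟩ := exists_darboux h.2.1 h.2.2 (Proj.one (M := M)) h0 h2
  refine ⟨e, he.star_eq, he.mul_self, ?_⟩
  have h3 := tr_eq_rt he.star_eq
  rw [hes] at h3
  exact h3

theorem exists_proj_amp {M : Type u} [CStarAlgebra M] {τ : M →ₗ[ℂ] ℂ} (h : Stmt.IsII1Factor τ)
    {t : ℝ} (ht : 1 < t) :
    ∃ (n : ℕ) (p : Matrix (Fin (n + 1)) (Fin (n + 1)) M), star p = p ∧ p * p = p ∧
      p * single 0 0 1 = single 0 0 1 ∧ p ≠ single 0 0 1 ∧ TrMat τ p = t := by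
  classical
  have ht0 : (0 : ℝ) ≤ t := by linarith
  have hm1 : 1 ≤ ⌊t⌋₊ := by
    rw [Nat.one_le_floor_iff]
    exact ht.le
  have hle : (⌊t⌋₊ : ℝ) ≤ t := Nat.floor_le ht0
  have hlt : t < (⌊t⌋₊ : ℝ) + 1 := Nat.lt_floor_add_one t
  obtain ⟨e, hse, hee, hte⟩ := ProjAmp_proj h (s := t - (⌊t⌋₊ : ℝ)) (by linarith) (by linarith)
  have hτ1 : τ 1 = 1 := h.1.one
  generalize ⌊t⌋₊ = m at hm1 hle hlt hte
  let d : Fin (m + 1) → M := Fin.snoc (α := fun _ => M) (fun _ : Fin m => (1 : M)) e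
  have hdl : d (Fin.last m) = e := Fin.snoc_last _ _
  have hdc : ∀ i : Fin m, d i.castSucc = 1 := fun i => Fin.snoc_castSucc (α := fun _ => M) _ _ i
  have hds : ∀ i, star (d i) = d i := by
    intro i
    refine Fin.lastCases ?_ (fun j => ?_) i
    · rw [hdl, hse]
    · rw [hdc, star_one]
  have hdd : ∀ i, d i * d i = d i := by
    intro i
    refine Fin.lastCases ?_ (fun j => ?_) i
    · rw [hdl, hee]
    · rw [hdc, mul_one]
  have hd0 : d 0 = 1 := by
    have : (0 : Fin (m + 1)) = (⟨0, hm1⟩ : Fin m).castSucc := rfl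
    rw [this, hdc]
  have htr : TrMat τ (diagonal d) = t := by
    unfold TrMat
    rw [Fin.sum_univ_castSucc]
    simp only [diagonal_apply_eq, hdc, hdl, hte, hτ1, Finset.sum_const, Finset.card_univ,
      Fintype.card_fin, nsmul_eq_mul, mul_one]
    push_cast
    ring
  refine ⟨m, diagonal d, ?_, ?_, ?_, ?_, htr⟩
  · rw [star_eq_conjTranspose, diagonal_conjTranspose]
    congr 1
    funext i
    exact hds i
  · rw [diagonal_mul_diagonal]
    congr 1
    funext i
    exact hdd i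
  · ext i j
    rw [diagonal_mul]
    by_cases hi : i = 0
    · subst hi
      rw [hd0, one_mul]
    · have : (single (0 : Fin (m + 1)) (0 : Fin (m + 1)) (1 : M)) i j = 0 := by
        rw [single_apply_of_ne]
        rintro ⟨rfl, _⟩
        exact hi rfl
      rw [this, mul_zero]
  · intro hp
    rw [hp] at htr
    have h3 : TrMat τ (single (0 : Fin (m + 1)) (0 : Fin (m + 1)) (1 : M)) = 1 := by
      unfold TrMat
      rw [Finset.sum_eq_single 0]
      · rw [single_apply_same, hτ1]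
      · intro i _ hi
        rw [single_apply_of_ne, map_zero]
        rintro ⟨rfl, _⟩
        exact hi rfl
      · intro h0
        exact absurd (Finset.mem_univ _) h0
    rw [h3] at htr
    have h4 : (1 : ℝ) = t := by exact_mod_cast htr
    linarith

end Pool.Agent.H68.Amp
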