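import Pool.Agent.H68.Amp.LG
import Pool.Agent.H68.Amp.Stmt

set_option autoImplicit false

/-! # The group von Neumann algebra as a tracial von Neumann algebra -/

open scoped InnerProductSpace ComplexOrder
open Filter Topology H80VN

namespace Pool.Agent.H68.Amp

variable (G : Type) [Group G]

/-- Right translation as a continuous linear map. -/
noncomputable def rtC (g : G) : L2 G →L[ℂ] L2 G := (rt g).toContinuousLinearEquiv.toContinuousLinearMap

theorem isLG_iff_mem_centralizer (T : L2 G →L[ℂ] L2 G) :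
    IsLG T ↔ T ∈ Set.centralizer (Set.range (rtC G)) := by
  rw [Set.mem_centralizer_iff]
  constructor
  · rintro h _ ⟨g, rfl⟩
    ext ξ : 1
    exact (h g ξ).symm
  · intro h g ξ
    exact (congrArg (fun R : L2 G →L[ℂ] L2 G => R ξ) (h _ ⟨g, rfl⟩)).symm

/-- The group von Neumann algebra `L(G)`: the operators on `ℓ²(G)` commuting with the right
translations. -/
noncomputable def LGvn : VonNeumannAlgebra (L2 G) where
  carrier := {T | IsLG T}
  mul_mem' := fun ha hb => IsLG.mul ha hb
  add_mem' := fun ha hb => IsLG.add ha hb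
  algebraMap_mem' := fun r => by
    rw [Algebra.algebraMap_eq_smul_one]
    exact IsLG.smul r isLG_one
  star_mem' := fun ha => IsLG.star ha
  centralizer_centralizer' := by
    have h : {T : L2 G →L[ℂ] L2 G | IsLG T} = Set.centralizer (Set.range (rtC G)) := by
      ext T
      exact isLG_iff_mem_centralizer G T
    show Set.centralizer (Set.centralizer {T : L2 G →L[ℂ] L2 G | IsLG T}) = {T | IsLG T}
    rw [h, Set.centralizer_centralizer_centralizer]

theorem mem_LGvn {T : L2 G →L[ℂ] L2 G} : T ∈ (LGvn G).toStarSubalgebra ↔ IsLG T := Iff.rfl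

/-- `L(G)` with its canonical trace `T ↦ ⟪δ_1, T δ_1⟫`. -/
noncomputable def LGP : TracialVNA.{0} where
  H := L2 G
  alg := LGvn G
  tr :=
    { toFun := fun T => tra (T : L2 G →L[ℂ] L2 G)
      map_add' := fun S T => by
        show hat ((S : L2 G →L[ℂ] L2 G) + (T : L2 G →L[ℂ] L2 G)) 1 = _
        rfl
      map_smul' := fun c T => by
        show hat (c • (T : L2 G →L[ℂ] L2 G)) 1 = _
        rfl }
  tr_one := tra_one
  nonneg := fun T => by
    show 0 ≤ tra (star (T : L2 G →L[ℂ] L2 G) * (T : L2 G →L[ℂ] L2 G))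
    rw [tra_star_mul_self]
    exact_mod_cast sq_nonneg ‖hat (T : L2 G →L[ℂ] L2 G)‖
  tracial := fun S T => tra_mul_comm S.2 T.2
  faithful := fun T h => by
    have h1 : tra (star (T : L2 G →L[ℂ] L2 G) * (T : L2 G →L[ℂ] L2 G)) = 0 := h
    rw [tra_star_mul_self] at h1
    have h2 : ‖hat (T : L2 G →L[ℂ] L2 G)‖ = 0 := by
      have h3 : ‖hat (T : L2 G →L[ℂ] L2 G)‖ ^ 2 = 0 := by exact_mod_cast h1
      exact pow_eq_zero_iff (two_ne_zero) |>.1 h3
    apply Subtype.ext
    exact IsLG.ext T.2 isLG_zero (by rw [norm_eq_zero.1 h2]; rfl)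
  normal := by
    refine ⟨fun n => if n = 0 then dl 1 else 0, ?_, fun T => ?_⟩
    · refine summable_of_ne_finset_zero (s := {0}) fun n hn => ?_
      have hn' : n ≠ 0 := by simpa using hn
      show ‖(if n = 0 then dl 1 else 0 : L2 G)‖ ^ 2 = 0
      rw [if_neg hn']
      simp
    · have h1 := hasSum_ite_eq (0 : ℕ) (⟪(dl 1 : L2 G), (T : L2 G →L[ℂ] L2 G) (dl 1)⟫_ℂ)
      have h2 : (fun n : ℕ => ⟪(if n = 0 then dl 1 else 0 : L2 G),
          (T : L2 G →L[ℂ] L2 G) (if n = 0 then dl 1 else 0)⟫_ℂ) =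
          fun n => if n = 0 then (⟪(dl 1 : L2 G), (T : L2 G →L[ℂ] L2 G) (dl 1)⟫_ℂ) else 0 := by
        funext n
        split_ifs
        · rfl
        · simp
      have h3 : tra (T : L2 G →L[ℂ] L2 G) = ⟪(dl 1 : L2 G), (T : L2 G →L[ℂ] L2 G) (dl 1)⟫_ℂ :=
        tra_eq_inner _
      show HasSum _ (tra (T : L2 G →L[ℂ] L2 G))
      rw [h3]
      exact (congrArg (fun f => HasSum f _) h2).mpr h1

/-- The elements of `L(G)`. -/
abbrev LGE : Type := (LGP G).El

/-- The canonical trace. -/
noncomputable abbrev LGtr : LGE G →ₗ[ℂ] ℂ := (LGP G).tr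

/-- The operator on `ℓ²(G)` of an element of `L(G)`. -/
abbrev LGE.op {G : Type} [Group G] (T : LGE G) : L2 G →L[ℂ] L2 G := T.1

theorem LGE.isLG {G : Type} [Group G] (T : LGE G) : IsLG T.op := T.2

theorem LGtr_apply (T : LGE G) : LGtr G T = tra T.op := rfl

theorem isTracialVN_LG : Stmt.IsTracialVN (LGtr G) := (LGP G).isTracialVN

theorem norm2_LG (T : LGE G) : Stmt.norm2 (LGtr G) T = ‖hat T.op‖ := by
  show √(tra (star T.op * T.op)).re = _
  rw [tra_star_mul_self, Complex.ofReal_re, Real.sqrt_sq (norm_nonneg _)]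

/-- Left translation as an element of `L(G)`. -/
noncomputable def LGE.u {G : Type} [Group G] (g : G) : LGE G := ⟨ltC g, isLG_ltC g⟩

end Pool.Agent.H68.Amp
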