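import Pool.Agent.H68.Amp.CornerTr
import Pool.Agent.H68.Amp.UTr
import Pool.Agent.H68.Amp.LGvn
import Pool.Agent.H68.Amp.Approx

set_option autoImplicit false

/-! # From embeddings of an amplification to approximate representations -/

open Filter Topology H80VN Matrix

namespace Pool.Agent.H68.Amp

theorem ToApprox_u_mul {G : Type} [Group G] (g g' : G) :
    (LGE.u g : LGE G) * LGE.u g' = LGE.u (g * g') := by
  apply Subtype.ext
  show ltC g * ltC g' = ltC (g * g')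
  ext1 ξ
  rw [mul_apply_eq_comp]
  exact lt_lt g g' ξ

theorem ToApprox_u_star {G : Type} [Group G] (g : G) :
    star (LGE.u g : LGE G) = LGE.u g⁻¹ := by
  apply Subtype.ext
  show star (ltC g) = ltC g⁻¹
  ext1 ξ
  refine ext_inner_left ℂ fun η => ?_
  show inner ℂ η (ContinuousLinearMap.adjoint (ltC g) ξ) = inner ℂ η (ltC g⁻¹ ξ)
  rw [ContinuousLinearMap.adjoint_inner_right, ltC_apply, ltC_apply, lt_inner]

theorem toApprox {G : Type} [Group G] (h : Stmt.IsII1Factor (LGtr G)) (ω : Ultrafilter ℕ) {n : ℕ}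
    {p : Matrix (Fin (n + 1)) (Fin (n + 1)) (LGE G)} (hs : star p = p) (hp : p * p = p)
    (he : p * single 0 0 1 = single 0 0 1) (hne : p ≠ single 0 0 1)
    (hφ : Embeds h.1 (ω : Filter ℕ) p hs hp) :
    ∃ κ : ℝ, 0 < κ ∧ κ < 1 ∧ Nonempty (ApproxRep G (ω : Filter ℕ) κ) := by
  obtain ⟨t, ht, ht1, htr, htp⟩ := exists_utr h.1 ω
  obtain ⟨φ, hφ1⟩ := hφ
  let ψ : Corner p hs hp →ₗ[ℂ] ℂ :=
    { toFun := fun a => t (φ a)
      map_add' := fun a b => by rw [map_add, map_add]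
      map_smul' := fun c a => by rw [map_smul, map_smul]; rfl }
  have hψ : ∀ a, ψ a = t (φ a) := fun _ => rfl
  obtain ⟨κ, hκ0, hκ1, hκ⟩ := corner_trace h hs hp he hne ψ
    (fun a b => by rw [hψ, hψ, map_mul φ, map_mul φ, htr])
    (fun a => by
      obtain ⟨r, hr, hr'⟩ := htp (φ a)
      exact ⟨r, hr, by rw [hψ, map_mul φ, map_star φ, hr']⟩)
    (by rw [hψ, hφ1, ht1])
  have hX : ∀ g : G, ∃ X : Bdd (LGE G), Ultra.mk h.1 (ω : Filter ℕ) X = φ (eC hs hp he (LGE.u g)) :=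
    fun g => Ideal.Quotient.mk_surjective _
  choose X hX using hX
  refine ⟨κ, hκ0, hκ1, ⟨⟨fun g k => ((X g).1 k).op, fun g k => LGE.isLG _, fun g => ?_,
    fun g g' => ?_, fun g => ?_, ?_, fun g hg => ?_⟩⟩⟩
  · obtain ⟨B, hB⟩ := (X g).2
    exact ⟨B, hB⟩
  · have h1 : Ultra.mk h.1 (ω : Filter ℕ) (X g * X g') = Ultra.mk h.1 (ω : Filter ℕ) (X (g * g')) := by
      rw [map_mul, hX, hX, hX, ← map_mul, ← eC_mul, ToApprox_u_mul]
    rw [Ideal.Quotient.eq, mem_ultraIdeal] at h1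
    refine h1.congr fun k => ?_
    exact norm2_LG G _
  · have h1 : Ultra.mk h.1 (ω : Filter ℕ) (star (X g)) = Ultra.mk h.1 (ω : Filter ℕ) (X g⁻¹) := by
      rw [← Ultra.star_mk, hX, hX, ← map_star, ← eC_star, ToApprox_u_star]
    rw [Ideal.Quotient.eq, mem_ultraIdeal] at h1
    refine h1.congr fun k => ?_
    exact norm2_LG G _
  · have h1 := ht (X 1)
    have h2 : t (Ultra.mk h.1 (ω : Filter ℕ) (X 1)) = (κ : ℂ) := by
      rw [hX, ← hψ, hκ, LGtr_apply]
      have h3 : (LGE.u (1 : G) : LGE G).op = 1 := by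
        show ltC (1 : G) = 1
        ext1 ξ
        exact lt_one ξ
      rw [h3, tra_one, mul_one]
    rw [h2] at h1
    exact h1
  · have h1 := ht (X g)
    have h2 : t (Ultra.mk h.1 (ω : Filter ℕ) (X g)) = 0 := by
      rw [hX, ← hψ, hκ, LGtr_apply]
      have h3 : tra (LGE.u g : LGE G).op = 0 := tra_ltC hg
      rw [h3, mul_zero]
    rw [h2] at h1
    exact h1

end Pool.Agent.H68.Amp
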