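import Pool.Agent.H68.Amp.Core
import Pool.Agent.H68.Amp.ToApprox
import Pool.Agent.H68.Amp.Factor
import Pool.Agent.H68.Amp.ProjAmp

set_option autoImplicit false

/-! # The final theorem -/

open Filter Topology H80VN Matrix

namespace Pool.Agent.H68.Amp

theorem final :
    ∃ (M : Type) (_ : CStarAlgebra M) (τ : M →ₗ[ℂ] ℂ) (h : Stmt.IsII1Factor τ),
      (∀ ω : Ultrafilter ℕ, (ω : Filter ℕ) ≤ cofinite →
        ∀ (n : ℕ) (p : Matrix (Fin (n + 1)) (Fin (n + 1)) M) (hs : star p = p) (hp : p * p = p),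
          p * single 0 0 1 = single 0 0 1 → p ≠ single 0 0 1 →
            ¬ Embeds h.1 (ω : Filter ℕ) p hs hp) ∧
      ∀ t : ℝ, 1 < t → ∃ (n : ℕ) (p : Matrix (Fin (n + 1)) (Fin (n + 1)) M), star p = p ∧
        p * p = p ∧ p * single 0 0 1 = single 0 0 1 ∧ p ≠ single 0 0 1 ∧ TrMat τ p = t := by
  obtain ⟨D⟩ := exists_treeData
  obtain ⟨A, hA⟩ := exists_rigid D
  haveI : Nontrivial (Raag (bGraph (D.nb A))) := by
    obtain ⟨v, -, -⟩ := exists_nonadj D A ∅ Set.finite_empty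
    refine ⟨gen _ v, 1, fun h => ?_⟩
    have h1 := gen_zpow_eq_one (bGraph (D.nb A)) (v := v) (n := 1) (by rw [zpow_one]; exact h)
    exact one_ne_zero h1
  have hF : Stmt.IsII1Factor (LGtr (Raag (bGraph (D.nb A)))) :=
    isII1Factor_LG fun g hg => raag_icc _ (fun F hF => exists_nonadj D A F hF) g hg
  refine ⟨LGE (Raag (bGraph (D.nb A))), inferInstance, LGtr _, hF, ?_, ?_⟩
  · intro ω _ n p hs hp he hne hφ
    obtain ⟨κ, hκ0, hκ1, ⟨R⟩⟩ := toApprox hF ω hs hp he hne hφ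
    exact core D A hA hκ0 hκ1 R
  · intro t ht
    exact exists_proj_amp hF ht

end Pool.Agent.H68.Amp
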