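import Pool.Agent.H68.Amp.HitDefs

set_option autoImplicit false

/-! # The rigid family, by transfinite recursion -/

open Cardinal Set

namespace Pool.Agent.H68.Amp

/-- Everything met by a valid test on a branch. -/
def Hit_E (D : TreeData) (t : D.Test) (B : Set D.L) : Set D.Pt :=
  {x | D.Valid t ∧ ∃ i m, x = t (D.br B i) m}

theorem Hit_aleph0_le_I (D : TreeData) : ℵ₀ ≤ #D.I :=
  Cardinal.aleph0_le_continuum.trans D.cont_lt.le

theorem Hit_aleph0_le_L (D : TreeData) : ℵ₀ ≤ #D.L :=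
  (Hit_aleph0_le_I D).trans D.I_le

theorem Hit_mk_E (D : TreeData) (t : D.Test) (B : Set D.L) : #(Hit_E D t B) ≤ #D.I := by
  have h1 : Hit_E D t B ⊆ Set.range (fun p : D.I × ℕ => t (D.br B p.1) p.2) := by
    rintro x ⟨_, i, m, rfl⟩
    exact ⟨(i, m), rfl⟩
  calc #(Hit_E D t B) ≤ #(Set.range (fun p : D.I × ℕ => t (D.br B p.1) p.2)) :=
        mk_le_mk_of_subset h1
    _ ≤ #(D.I × ℕ) := mk_range_le
    _ = #D.I * ℵ₀ := by simp
    _ = #D.I := mul_aleph0_eq (Hit_aleph0_le_I D)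

theorem Hit_br_inj (D : TreeData) (B B' : Set D.L) (i i' : D.I) (h : D.br B i = D.br B' i') :
    i = i' ∧ B ∩ D.Lj i = B' ∩ D.Lj i := by
  have h1 : (i, B ∩ D.Lj i) = (i', B' ∩ D.Lj i') := congrArg Subtype.val h
  have h2 : i = i' := congrArg Prod.fst h1
  subst h2
  exact ⟨rfl, congrArg Prod.snd h1⟩

theorem Hit_bad (D : TreeData) (t : D.Test) (ht : D.Valid t) (E : Set D.Pt) (hE : #E ≤ #D.I) :
    #{B : Set D.L | ¬ #{i : D.I | ∃ m, t (D.br B i) m ∈ E} < #D.I} ≤ 2 ^ #D.I := by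
  classical
  set Q : Set D.Tr := {s | ∃ m, t s m ∈ E} with hQ
  have hQE : #Q ≤ #E := by
    have hc : ∀ s : Q, ∃ m, t s.1 m ∈ E := fun s => s.2
    choose m hm using hc
    refine mk_le_of_injective (f := fun s : Q => (⟨t s.1 (m s), hm s⟩ : E)) ?_
    intro s s' hss
    have h1 : t s.1 (m s) = t s'.1 (m s') := congrArg Subtype.val hss
    exact Subtype.ext (ht _ _ _ _ h1)
  have hset : #(Set Q) ≤ 2 ^ #D.I := by
    rw [mk_set]
    exact Cardinal.power_le_power_left two_ne_zero (hQE.trans hE)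
  refine le_trans ?_ hset
  refine mk_le_of_injective
    (f := fun B : {B : Set D.L | ¬ #{i : D.I | ∃ m, t (D.br B i) m ∈ E} < #D.I} =>
      ({s : Q | ∃ i, s.1 = D.br B.1 i} : Set Q)) ?_
  rintro ⟨B, hB⟩ ⟨B', hB'⟩ hBB
  have hBB : ({s : Q | ∃ i, s.1 = D.br B i} : Set Q) = {s : Q | ∃ i, s.1 = D.br B' i} := hBB
  refine Subtype.ext ?_
  change B = B'
  by_contra hne
  -- a place where they differ
  have hex : ∃ j0, B ∩ D.Lj j0 ≠ B' ∩ D.Lj j0 := by
    by_contra hcon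
    push Not at hcon
    apply hne
    ext x
    have hx : x ∈ ⋃ i, D.Lj i := by rw [D.union]; trivial
    obtain ⟨i, hi⟩ := Set.mem_iUnion.1 hx
    have h1 := Set.ext_iff.1 (hcon i) x
    simp only [Set.mem_inter_iff, hi, and_true] at h1
    exact h1
  obtain ⟨j0, hj0⟩ := hex
  apply hB
  refine lt_of_le_of_lt ?_ (D.initial j0)
  refine mk_le_mk_of_subset ?_
  rintro i ⟨m, hm⟩
  have hiQ : D.br B i ∈ Q := ⟨m, hm⟩
  have h1 : (⟨D.br B i, hiQ⟩ : Q) ∈ ({s : Q | ∃ i, s.1 = D.br B' i} : Set Q) := by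
    rw [← hBB]
    exact ⟨i, rfl⟩
  obtain ⟨i', hi'⟩ := h1
  have h2 := Hit_br_inj D B B' i i' hi'
  rw [Set.mem_Iio]
  by_contra hge
  rw [not_lt] at hge
  apply hj0
  have h3 := h2.2
  ext x
  have h4 := Set.ext_iff.1 h3 x
  simp only [Set.mem_inter_iff] at h4 ⊢
  constructor
  · rintro ⟨hx, hxj⟩
    exact ⟨(h4.1 ⟨hx, D.mono hge hxj⟩).1, hxj⟩
  · rintro ⟨hx, hxj⟩
    exact ⟨(h4.2 ⟨hx, D.mono hge hxj⟩).1, hxj⟩

theorem Hit_mk_Tr (D : TreeData) : #D.Tr ≤ #D.L := by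
  refine le_trans ?_ D.tree_le
  refine mk_le_of_injective
    (f := fun p : D.Tr => (⟨p.1.1, {x | x.1 ∈ p.1.2}⟩ : Σ i : D.I, Set (D.Lj i))) ?_
  rintro ⟨⟨i, B⟩, hB⟩ ⟨⟨i', B'⟩, hB'⟩ h
  simp only [Sigma.mk.injEq] at h
  obtain ⟨h1, h2⟩ := h
  subst h1
  have h3 := eq_of_heq h2
  refine Subtype.ext (Prod.ext rfl ?_)
  change B = B'
  ext x
  constructor
  · intro hx
    have h4 : (⟨x, hB hx⟩ : D.Lj i) ∈ ({y | y.1 ∈ B} : Set (D.Lj i)) := hx
    rw [h3] at h4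
    exact h4
  · intro hx
    have h4 : (⟨x, hB' hx⟩ : D.Lj i) ∈ ({y | y.1 ∈ B'} : Set (D.Lj i)) := hx
    rw [← h3] at h4
    exact h4

theorem Hit_mk_Bl (D : TreeData) : #D.Bl ≤ 2 ^ #D.L := by
  have hL := Hit_aleph0_le_L D
  have h0 : #D.Test = ((2 ^ #D.L) ^ (ℵ₀ : Cardinal.{0})) ^ #D.Tr := by
    simp [TreeData.Test, mk_pi, TreeData.Pt]
  have h1 : #D.Test ≤ 2 ^ #D.L := by
    rw [h0, ← Cardinal.power_mul, ← Cardinal.power_mul]
    refine Cardinal.power_le_power_left two_ne_zero ?_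
    calc #D.L * (ℵ₀ * #D.Tr) ≤ #D.L * (ℵ₀ * #D.L) := by gcongr; exact Hit_mk_Tr D
      _ = #D.L := by rw [aleph0_mul_eq hL, mul_eq_self hL]
  calc #D.Bl = #D.Test * #(Set D.L) := by simp [TreeData.Bl]
    _ ≤ 2 ^ #D.L * 2 ^ #D.L := by
        rw [mk_set]
        gcongr
    _ = 2 ^ #D.L := mul_eq_self (hL.trans (cantor _).le)

theorem Hit_step (D : TreeData) (r : D.Bl → D.Bl → Prop) (y : D.Bl)
    (hr : #{y' // r y' y} < 2 ^ #D.L) (g : (y' : D.Bl) → r y' y → Set D.L) :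
    ∃ B : Set D.L, ∀ (y' : D.Bl) (h : r y' y), D.Valid y.1 →
      #{i : D.I | ∃ m, y.1 (D.br B i) m ∈ Hit_E D y'.1 (g y' h)} < #D.I := by
  classical
  by_cases hv : D.Valid y.1
  swap
  · exact ⟨∅, fun y' h hv' => absurd hv' hv⟩
  have hL := Hit_aleph0_le_L D
  by_contra hcon
  push Not at hcon
  have hcov : (Set.univ : Set (Set D.L)) ⊆ ⋃ p : {y' // r y' y},
      {B : Set D.L | ¬ #{i : D.I | ∃ m, y.1 (D.br B i) m ∈ Hit_E D p.1.1 (g p.1 p.2)} < #D.I} := by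
    intro B _
    obtain ⟨y', h, _, hB⟩ := hcon B
    rw [Set.mem_iUnion]
    exact ⟨⟨y', h⟩, by simpa using hB⟩
  have h1 : #(Set D.L) ≤ #{y' // r y' y} * 2 ^ #D.I := by
    calc #(Set D.L) = #(Set.univ : Set (Set D.L)) := mk_univ.symm
      _ ≤ _ := mk_le_mk_of_subset hcov
      _ ≤ _ := mk_iUnion_le _
      _ ≤ _ := by
        gcongr
        exact ciSup_le' fun p => Hit_bad D y.1 hv _ (Hit_mk_E D _ _)
  rw [mk_set] at h1
  have h2 : #{y' // r y' y} * 2 ^ #D.I < 2 ^ #D.L :=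
    mul_lt_of_lt (hL.trans (cantor _).le) hr D.two_pow
  exact absurd h1 (not_le.2 h2)

theorem exists_rigid (D : TreeData) : ∃ A : D.Bl → Set D.L, D.Rigid A := by
  classical
  obtain ⟨r, wo, hr⟩ := Cardinal.exists_ord_eq D.Bl
  have hlt : ∀ y : D.Bl, #{y' // r y' y} < 2 ^ #D.L := by
    intro y
    have h1 : (Ordinal.typein r y).card < #D.Bl := Cardinal.card_typein_lt y hr
    rw [Ordinal.card_typein] at h1
    exact h1.trans_le (Hit_mk_Bl D)
  have hstep := fun (y : D.Bl) (g : (y' : D.Bl) → r y' y → Set D.L) => Hit_step D r y (hlt y) g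
  choose F hF using hstep
  have wf : WellFounded r := IsWellFounded.wf
  let A : D.Bl → Set D.L := wf.fix F
  have hA : ∀ y y', r y' y → D.Valid y.1 →
      #{i : D.I | ∃ m, y.1 (D.br (A y) i) m ∈ Hit_E D y'.1 (A y')} < #D.I := by
    intro y y' h hv
    have h1 : A y = F y (fun y' _ => A y') := wf.fix_eq F y
    rw [h1]
    exact hF y (fun y' _ => A y') y' h hv
  refine ⟨A, ?_⟩
  intro y y' hne hv
  rcases (trichotomous_of r y' y) with h | h | h
  · refine lt_of_le_of_lt (mk_le_mk_of_subset ?_) (hA y y' h hv)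
    rintro i ⟨m, hm⟩
    refine ⟨m, ?_⟩
    obtain ⟨hv', j, hj⟩ := hm
    exact ⟨hv', j, 0, hj⟩
  · exact absurd h.symm hne
  · by_cases hv' : D.Valid y'.1
    swap
    · have h0 : {i : D.I | ∃ m, y.1 (D.br (A y) i) m ∈ D.nb A y'} = ∅ := by
        ext i
        simp only [Set.mem_ofPred_eq, Set.mem_empty_iff_false, iff_false]
        rintro ⟨m, hm⟩
        exact hv' hm.1
      rw [h0, mk_eq_zero]
      exact lt_of_lt_of_le aleph0_pos (Hit_aleph0_le_I D)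
    refine lt_of_le_of_lt ?_ (hA y' y h hv')
    have hc : ∀ i : {i : D.I | ∃ m, y.1 (D.br (A y) i) m ∈ D.nb A y'},
        ∃ m j, y.1 (D.br (A y) i.1) m = y'.1 (D.br (A y') j) 0 := by
      rintro ⟨i, m, _, j, hj⟩
      exact ⟨m, j, hj⟩
    choose m j hmj using hc
    refine mk_le_of_injective (f := fun i => (⟨j i, 0, hv, i.1, m i, (hmj i).symm⟩ :
      {i' : D.I | ∃ m, y'.1 (D.br (A y') i') m ∈ Hit_E D y.1 (A y)})) ?_
    intro i1 i2 h12
    have h12' : j i1 = j i2 := congrArg Subtype.val h12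
    have h3 : y.1 (D.br (A y) i1.1) (m i1) = y.1 (D.br (A y) i2.1) (m i2) := by
      rw [hmj i1, hmj i2, h12']
    have h4 := hv _ _ _ _ h3
    exact Subtype.ext (Hit_br_inj D _ _ _ _ h4).1

end Pool.Agent.H68.Amp
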