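import Pool.Agent.H68.Amp.Card

set_option autoImplicit false

/-! # Tree, branches, tests -/

open Cardinal Set

namespace Pool.Agent.H68.Amp

namespace TreeData

variable (D : TreeData)

/-- The tree: pairs `(i, B)` with `B ⊆ Lj i`. It has at most `#L` nodes. -/
abbrev Tr : Type := {p : D.I × Set D.L // p.2 ⊆ D.Lj p.1}

/-- The `i`-th node of the branch given by `A ⊆ L`. -/
def br (A : Set D.L) (i : D.I) : D.Tr := ⟨(i, A ∩ D.Lj i), Set.inter_subset_right⟩

/-- The points. -/
abbrev Pt : Type := Set D.L

/-- The tests: a countable (enumerated) set of points for each node. -/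
abbrev Test : Type := D.Tr → ℕ → D.Pt

/-- A test is valid if the sets attached to different nodes are disjoint. -/
def Valid (t : D.Test) : Prop := ∀ s s' m n, t s m = t s' n → s = s'

/-- The index set of the blocks. -/
abbrev Bl : Type := D.Test × Set D.L

/-- The block with index `y`, if the branch `A y` has been chosen for each `y`. -/
def nb (A : D.Bl → Set D.L) (y : D.Bl) : Set D.Pt :=
  {x | D.Valid y.1 ∧ ∃ j, x = y.1 (D.br (A y) j) 0}

/-- The rigidity property of the family of blocks. -/
def Rigid (A : D.Bl → Set D.L) : Prop :=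
  ∀ y y' : D.Bl, y ≠ y' → D.Valid y.1 →
    #{i : D.I | ∃ m, y.1 (D.br (A y) i) m ∈ D.nb A y'} < #D.I

end TreeData

end Pool.Agent.H68.Amp
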