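import Mathlib

set_option autoImplicit false
set_option linter.unusedSectionVars false

/-!
# Left convolution operators on `ℓ²(G)`

Basic facts on the group von Neumann algebra `L(G)`, as the operators on `ℓ²(G)` commuting with all
right translations.
-/

open scoped InnerProductSpace ComplexConjugate
open Filter Topology

namespace Pool.Agent.H68.Amp

/-- `ℓ²(G)`. -/
abbrev L2 (G : Type*) : Type _ := lp (fun _ : G => ℂ) 2

section basic

variable {G : Type*}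

theorem L2_summable (ξ : L2 G) : Summable fun g => ‖ξ g‖ ^ 2 := by
  have h := (lp.memℓp ξ).summable (by simp)
  simpa using h

theorem L2_hasSum (ξ : L2 G) : HasSum (fun g => ‖ξ g‖ ^ 2) (‖ξ‖ ^ 2) := by
  have h := lp.hasSum_norm (p := 2) (by simp) ξ
  simpa using h

theorem L2_norm_sq (ξ : L2 G) : ‖ξ‖ ^ 2 = ∑' g, ‖ξ g‖ ^ 2 := (L2_hasSum ξ).tsum_eq.symm

theorem L2_mem (f : G → ℂ) (h : Summable fun g => ‖f g‖ ^ 2) : Memℓp f 2 := by
  refine memℓp_gen ?_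
  simpa using h

/-- An element of `ℓ²(G)` from a square summable function. -/
def mkL2 (f : G → ℂ) (h : Summable fun g => ‖f g‖ ^ 2) : L2 G := ⟨f, L2_mem f h⟩

@[simp] theorem mkL2_apply (f : G → ℂ) (h : Summable fun g => ‖f g‖ ^ 2) (g : G) :
    mkL2 f h g = f g := rfl

/-- The basis vector `δ_g`. -/
noncomputable def dl (g : G) : L2 G :=
  letI := Classical.decEq G
  lp.single 2 g (1 : ℂ)

theorem dl_self (g : G) : (dl g : L2 G) g = 1 := by
  classical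
  unfold dl
  rw [lp.single_apply]
  exact Pi.single_eq_same _ _

theorem dl_ne {g h : G} (hgh : h ≠ g) : (dl g : L2 G) h = 0 := by
  classical
  unfold dl
  rw [lp.single_apply]
  exact Pi.single_eq_of_ne hgh _

theorem inner_dl_left (g : G) (ξ : L2 G) : ⟪dl g, ξ⟫_ℂ = ξ g := by
  classical
  unfold dl
  rw [lp.inner_single_left]
  simp

theorem inner_dl_right (g : G) (ξ : L2 G) : ⟪ξ, dl g⟫_ℂ = conj (ξ g) := by
  rw [← inner_conj_symm, inner_dl_left]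

theorem norm_dl (g : G) : ‖(dl g : L2 G)‖ = 1 := by
  classical
  unfold dl
  rw [lp.norm_single (by simp)]
  simp

theorem norm_apply_le (ξ : L2 G) (g : G) : ‖ξ g‖ ≤ ‖ξ‖ := lp.norm_apply_le_norm (by simp) ξ g

/-- Continuous linear maps agreeing on the basis vectors are equal. -/
theorem clm_ext {E : Type*} [NormedAddCommGroup E] [NormedSpace ℂ E] {S T : L2 G →L[ℂ] E}
    (h : ∀ g, S (dl g) = T (dl g)) : S = T := by
  classical
  ext ξ
  have h1 := lp.hasSum_single (p := 2) (by simp) ξ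
  have h2 := S.hasSum h1
  have h3 := T.hasSum h1
  refine h2.unique ?_
  have h4 : (fun i => S (lp.single 2 i (ξ i))) = fun i => T (lp.single 2 i (ξ i)) := by
    funext i
    have h5 : lp.single 2 i (ξ i) = (ξ i) • (dl i : L2 G) := by
      ext j
      rw [lp.coeFn_smul, Pi.smul_apply, lp.single_apply]
      by_cases hj : j = i
      · subst hj
        rw [dl_self, Pi.single_eq_same]
        simp
      · rw [dl_ne hj, Pi.single_eq_of_ne hj]
        simp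
    rw [h5, map_smul, map_smul, h i]
  rw [h4]
  exact h3

/-- Reindexing. -/
noncomputable def reidx (e : G ≃ G) : L2 G ≃ₗᵢ[ℂ] L2 G where
  toFun f := mkL2 (fun u => f (e u)) ((e.summable_iff (f := fun g => ‖f g‖ ^ 2)).2 (L2_summable f))
  invFun f := mkL2 (fun u => f (e.symm u))
    ((e.symm.summable_iff (f := fun g => ‖f g‖ ^ 2)).2 (L2_summable f))
  left_inv f := by ext u; simp
  right_inv f := by ext u; simp
  map_add' f g := by ext u; rfl
  map_smul' c f := by ext u; rfl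
  norm_map' f := by
    have h : ‖(mkL2 (fun u => f (e u))
        ((e.summable_iff (f := fun g => ‖f g‖ ^ 2)).2 (L2_summable f)) : L2 G)‖ ^ 2 = ‖f‖ ^ 2 := by
      rw [L2_norm_sq, L2_norm_sq]
      exact e.tsum_eq (fun u => ‖f u‖ ^ 2)
    have h1 := (sq_eq_sq₀ (norm_nonneg _) (norm_nonneg _)).1 h
    exact h1

@[simp] theorem reidx_apply (e : G ≃ G) (f : L2 G) (u : G) : reidx e f u = f (e u) := rfl

theorem reidx_dl (e : G ≃ G) (g : G) : reidx e (dl g) = dl (e.symm g) := by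
  ext u
  rw [reidx_apply]
  by_cases h : u = e.symm g
  · subst h
    rw [dl_self, e.apply_symm_apply, dl_self]
  · rw [dl_ne h, dl_ne]
    intro h'
    exact h (by rw [← h', e.symm_apply_apply])

end basic

section supp

variable {G : Type*}

/-- `ξ` is supported in `A`. -/
def Supp (ξ : L2 G) (A : Set G) : Prop := ∀ g, g ∉ A → ξ g = 0

theorem Supp.mono {ξ : L2 G} {A B : Set G} (h : Supp ξ A) (hAB : A ⊆ B) : Supp ξ B :=
  fun g hg => h g fun h' => hg (hAB h')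

theorem Supp.add {ξ η : L2 G} {A : Set G} (h : Supp ξ A) (h' : Supp η A) : Supp (ξ + η) A := by
  intro g hg
  rw [lp.coeFn_add, Pi.add_apply, h g hg, h' g hg, add_zero]

theorem Supp.sub {ξ η : L2 G} {A : Set G} (h : Supp ξ A) (h' : Supp η A) : Supp (ξ - η) A := by
  intro g hg
  rw [lp.coeFn_sub, Pi.sub_apply, h g hg, h' g hg, sub_zero]

theorem Supp.smul {ξ : L2 G} {A : Set G} (c : ℂ) (h : Supp ξ A) : Supp (c • ξ) A := by
  intro g hg
  rw [lp.coeFn_smul, Pi.smul_apply, h g hg, smul_zero]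

theorem Supp.inter {ξ : L2 G} {A B : Set G} (h : Supp ξ A) (h' : Supp ξ B) : Supp ξ (A ∩ B) := by
  intro g hg
  by_cases h1 : g ∈ A
  · exact h' g fun h2 => hg ⟨h1, h2⟩
  · exact h g h1

theorem supp_dl (g : G) : Supp (dl g : L2 G) {g} := fun _ hh => dl_ne hh

theorem supp_univ (ξ : L2 G) : Supp ξ Set.univ := fun _ hg => absurd (Set.mem_univ _) hg

theorem supp_zero (A : Set G) : Supp (0 : L2 G) A := fun _ _ => rfl

open Classical in
theorem pr_summable (A : Set G) (ξ : L2 G) : Summable fun g => ‖if g ∈ A then ξ g else 0‖ ^ 2 := by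
  refine Summable.of_nonneg_of_le (fun g => by positivity) (fun g => ?_) (L2_summable ξ)
  split_ifs
  · exact le_rfl
  · simp

open Classical in
/-- The orthogonal projection onto `ℓ²(A)`. -/
noncomputable def pr (A : Set G) : L2 G →L[ℂ] L2 G :=
  LinearMap.mkContinuous
    { toFun := fun ξ => mkL2 (fun g => if g ∈ A then ξ g else 0) (pr_summable A ξ)
      map_add' := fun ξ η => by
        ext g
        simp only [mkL2_apply, lp.coeFn_add, Pi.add_apply]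
        split_ifs <;> simp
      map_smul' := fun c ξ => by
        ext g
        simp only [mkL2_apply, lp.coeFn_smul, Pi.smul_apply, RingHom.id_apply]
        split_ifs <;> simp } 1 (fun ξ => by
      rw [one_mul]
      have h : ‖(mkL2 (fun g => if g ∈ A then ξ g else 0) (pr_summable A ξ) : L2 G)‖ ^ 2 ≤
          ‖ξ‖ ^ 2 := by
        rw [L2_norm_sq, L2_norm_sq]
        refine Summable.tsum_le_tsum (fun g => ?_) (pr_summable A ξ) (L2_summable ξ)
        rw [mkL2_apply]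
        split_ifs
        · exact le_rfl
        · simp
      exact (sq_le_sq₀ (norm_nonneg _) (norm_nonneg _)).1 h)

open Classical in
theorem pr_apply (A : Set G) (ξ : L2 G) (g : G) : pr A ξ g = if g ∈ A then ξ g else 0 := rfl

theorem pr_apply_mem {A : Set G} (ξ : L2 G) {g : G} (h : g ∈ A) : pr A ξ g = ξ g := by
  rw [pr_apply, if_pos h]

theorem pr_apply_not {A : Set G} (ξ : L2 G) {g : G} (h : g ∉ A) : pr A ξ g = 0 := by
  rw [pr_apply, if_neg h]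

theorem supp_pr (A : Set G) (ξ : L2 G) : Supp (pr A ξ) A := fun _ h => pr_apply_not ξ h

theorem norm_pr_le (A : Set G) (ξ : L2 G) : ‖pr A ξ‖ ≤ ‖ξ‖ := by
  have h := (pr A).le_of_opNorm_le (LinearMap.mkContinuous_norm_le _ zero_le_one _) ξ
  rwa [one_mul] at h

theorem Supp.pr {ξ : L2 G} {A : Set G} (B : Set G) (h : Supp ξ A) : Supp (pr B ξ) (A ∩ B) := by
  intro g hg
  by_cases h1 : g ∈ B
  · rw [pr_apply_mem ξ h1]
    exact h g fun h2 => hg ⟨h2, h1⟩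
  · exact pr_apply_not ξ h1

theorem pr_eq_self {ξ : L2 G} {A : Set G} (h : Supp ξ A) : pr A ξ = ξ := by
  ext g
  by_cases h1 : g ∈ A
  · exact pr_apply_mem ξ h1
  · rw [pr_apply_not ξ h1, h g h1]

theorem pr_eq_zero {ξ : L2 G} {A B : Set G} (h : Supp ξ A) (hAB : ∀ g ∈ A, g ∉ B) :
    pr B ξ = 0 := by
  ext g
  by_cases h1 : g ∈ B
  · rw [pr_apply_mem ξ h1]
    exact h g fun h2 => hAB g h2 h1
  · exact pr_apply_not ξ h1

theorem pr_add_pr_compl (A : Set G) (ξ : L2 G) : pr A ξ + pr Aᶜ ξ = ξ := by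
  ext g
  rw [lp.coeFn_add, Pi.add_apply]
  by_cases h1 : g ∈ A
  · rw [pr_apply_mem ξ h1, pr_apply_not ξ (by simpa using h1), add_zero]
  · rw [pr_apply_not ξ h1, pr_apply_mem ξ (by simpa using h1), zero_add]

theorem pr_pr (A B : Set G) (ξ : L2 G) : pr A (pr B ξ) = pr (A ∩ B) ξ := by
  ext g
  by_cases h1 : g ∈ A
  · rw [pr_apply_mem _ h1]
    by_cases h2 : g ∈ B
    · rw [pr_apply_mem _ h2, pr_apply_mem (A := A ∩ B) _ ⟨h1, h2⟩]
    · rw [pr_apply_not _ h2, pr_apply_not _ fun h => h2 h.2]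
  · rw [pr_apply_not _ h1, pr_apply_not _ fun h => h1 h.1]

/-- Pythagoras for vectors with disjoint supports. -/
theorem norm_add_sq_of_disjoint {ξ η : L2 G} {A B : Set G} (hξ : Supp ξ A) (hη : Supp η B)
    (hAB : ∀ g ∈ A, g ∉ B) : ‖ξ + η‖ ^ 2 = ‖ξ‖ ^ 2 + ‖η‖ ^ 2 := by
  rw [L2_norm_sq, L2_norm_sq, L2_norm_sq, ← (L2_summable ξ).tsum_add (L2_summable η)]
  refine tsum_congr fun g => ?_
  rw [lp.coeFn_add, Pi.add_apply]
  by_cases h1 : g ∈ A
  · rw [hη g (hAB g h1)]; simp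
  · rw [hξ g h1]; simp

theorem norm_pr_sq_add (A : Set G) (ξ : L2 G) : ‖pr A ξ‖ ^ 2 + ‖pr Aᶜ ξ‖ ^ 2 = ‖ξ‖ ^ 2 := by
  rw [← norm_add_sq_of_disjoint (supp_pr A ξ) (supp_pr Aᶜ ξ) (fun g h h' => h' h),
    pr_add_pr_compl]

theorem inner_eq_zero_of_disjoint {ξ η : L2 G} {A B : Set G} (hξ : Supp ξ A) (hη : Supp η B)
    (hAB : ∀ g ∈ A, g ∉ B) : ⟪ξ, η⟫_ℂ = 0 := by
  rw [lp.inner_eq_tsum]
  rw [← tsum_zero (α := ℂ) (β := G)]
  refine tsum_congr fun g => ?_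
  by_cases h1 : g ∈ A
  · rw [hη g (hAB g h1)]; simp
  · rw [hξ g h1]; simp

end supp

section group

variable {G : Type*} [Group G]

/-- Left translation: `lt g δ_h = δ_{gh}`. -/
noncomputable def lt (g : G) : L2 G ≃ₗᵢ[ℂ] L2 G := reidx (Equiv.mulLeft g⁻¹)

/-- Right translation: `rt g δ_h = δ_{h g⁻¹}`. -/
noncomputable def rt (g : G) : L2 G ≃ₗᵢ[ℂ] L2 G := reidx (Equiv.mulRight g)

@[simp] theorem lt_apply (g : G) (ξ : L2 G) (h : G) : lt g ξ h = ξ (g⁻¹ * h) := rfl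

@[simp] theorem rt_apply (g : G) (ξ : L2 G) (h : G) : rt g ξ h = ξ (h * g) := rfl

theorem lt_dl (g h : G) : lt g (dl h) = dl (g * h) := by
  unfold lt
  rw [reidx_dl]
  simp

theorem rt_dl (g h : G) : rt g (dl h) = dl (h * g⁻¹) := by
  unfold rt
  rw [reidx_dl]
  simp

theorem lt_lt (g h : G) (ξ : L2 G) : lt g (lt h ξ) = lt (g * h) ξ := by
  ext u
  simp [mul_assoc]

theorem lt_rt (g h : G) (ξ : L2 G) : lt g (rt h ξ) = rt h (lt g ξ) := by
  ext u
  simp [mul_assoc]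

theorem rt_rt (g h : G) (ξ : L2 G) : rt g (rt h ξ) = rt (g * h) ξ := by
  ext u
  simp [mul_assoc]

theorem lt_one (ξ : L2 G) : lt 1 ξ = ξ := by
  ext u
  simp

theorem rt_one (ξ : L2 G) : rt 1 ξ = ξ := by
  ext u
  simp

theorem Supp.lt {ξ : L2 G} {A : Set G} (g : G) (h : Supp ξ A) :
    Supp (lt g ξ) {u | ∃ a ∈ A, u = g * a} := by
  intro u hu
  rw [lt_apply]
  refine h _ fun h' => hu ⟨_, h', ?_⟩
  group

/-- `T` belongs to `L(G)`. -/
def IsLG (T : L2 G →L[ℂ] L2 G) : Prop := ∀ (g : G) (ξ : L2 G), T (rt g ξ) = rt g (T ξ)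

/-- `T` belongs to the commutant `R(G)` of `L(G)`. -/
def IsRG (T : L2 G →L[ℂ] L2 G) : Prop := ∀ (g : G) (ξ : L2 G), T (lt g ξ) = lt g (T ξ)

/-- The vector `T δ_1`. -/
noncomputable def hat (T : L2 G →L[ℂ] L2 G) : L2 G := T (dl 1)

theorem norm_hat_le (T : L2 G →L[ℂ] L2 G) : ‖hat T‖ ≤ ‖T‖ := by
  have h := T.le_opNorm (dl (1 : G))
  rwa [norm_dl, mul_one] at h

/-- Left translation as an element of `L(G)`. -/
noncomputable def ltC (g : G) : L2 G →L[ℂ] L2 G := (lt g).toContinuousLinearEquiv.toContinuousLinearMap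

@[simp] theorem ltC_apply (g : G) (ξ : L2 G) : ltC g ξ = lt g ξ := rfl

theorem isLG_ltC (g : G) : IsLG (ltC g) := fun h ξ => by
  rw [ltC_apply, ltC_apply, lt_rt]

theorem hat_ltC (g : G) : hat (ltC g) = dl g := by
  unfold hat
  rw [ltC_apply, lt_dl, mul_one]

theorem norm_ltC_le (g : G) : ‖ltC g‖ ≤ 1 := by
  refine ContinuousLinearMap.opNorm_le_bound _ zero_le_one fun ξ => ?_
  rw [one_mul, ltC_apply, LinearIsometryEquiv.norm_map]

theorem isLG_one : IsLG (1 : L2 G →L[ℂ] L2 G) := fun _ _ => rfl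

theorem isLG_zero : IsLG (0 : L2 G →L[ℂ] L2 G) := fun g ξ => by simp

theorem IsLG.mul {S T : L2 G →L[ℂ] L2 G} (hS : IsLG S) (hT : IsLG T) : IsLG (S * T) :=
  fun g ξ => by
    rw [mul_apply_eq_comp, mul_apply_eq_comp, hT, hS]

theorem IsLG.add {S T : L2 G →L[ℂ] L2 G} (hS : IsLG S) (hT : IsLG T) : IsLG (S + T) :=
  fun g ξ => by
    simp only [add_apply, map_add, hS g ξ, hT g ξ]

theorem IsLG.sub {S T : L2 G →L[ℂ] L2 G} (hS : IsLG S) (hT : IsLG T) : IsLG (S - T) :=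
  fun g ξ => by
    simp only [sub_apply, map_sub, hS g ξ, hT g ξ]

theorem IsLG.smul {S : L2 G →L[ℂ] L2 G} (c : ℂ) (hS : IsLG S) : IsLG (c • S) :=
  fun g ξ => by
    simp only [smul_apply, map_smul, hS g ξ]

theorem rt_inner (g : G) (ξ η : L2 G) : ⟪rt g ξ, η⟫_ℂ = ⟪ξ, rt g⁻¹ η⟫_ℂ := by
  have h : η = rt g (rt g⁻¹ η) := by rw [rt_rt]; simp [rt_one]
  conv_lhs => rw [h]
  exact (rt g).inner_map_map _ _

theorem lt_inner (g : G) (ξ η : L2 G) : ⟪lt g ξ, η⟫_ℂ = ⟪ξ, lt g⁻¹ η⟫_ℂ := by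
  have h : η = lt g (lt g⁻¹ η) := by rw [lt_lt]; simp [lt_one]
  conv_lhs => rw [h]
  exact (lt g).inner_map_map _ _

theorem IsLG.star {S : L2 G →L[ℂ] L2 G} (hS : IsLG S) : IsLG (star S) := fun g ξ => by
  refine ext_inner_left ℂ fun η => ?_
  show ⟪η, ContinuousLinearMap.adjoint S (rt g ξ)⟫_ℂ = ⟪η, rt g (ContinuousLinearMap.adjoint S ξ)⟫_ℂ
  rw [ContinuousLinearMap.adjoint_inner_right]
  have h1 : ⟪η, rt g (ContinuousLinearMap.adjoint S ξ)⟫_ℂ =
      ⟪rt g⁻¹ η, ContinuousLinearMap.adjoint S ξ⟫_ℂ := by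
    rw [rt_inner, inv_inv]
  rw [h1, ContinuousLinearMap.adjoint_inner_right, hS, rt_inner, inv_inv]

theorem IsRG.star {S : L2 G →L[ℂ] L2 G} (hS : IsRG S) : IsRG (star S) := fun g ξ => by
  refine ext_inner_left ℂ fun η => ?_
  show ⟪η, ContinuousLinearMap.adjoint S (lt g ξ)⟫_ℂ = ⟪η, lt g (ContinuousLinearMap.adjoint S ξ)⟫_ℂ
  rw [ContinuousLinearMap.adjoint_inner_right]
  have h1 : ⟪η, lt g (ContinuousLinearMap.adjoint S ξ)⟫_ℂ =
      ⟪lt g⁻¹ η, ContinuousLinearMap.adjoint S ξ⟫_ℂ := by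
    rw [lt_inner, inv_inv]
  rw [h1, ContinuousLinearMap.adjoint_inner_right, hS, lt_inner, inv_inv]

/-- Matrix coefficients of an element of `L(G)`. -/
theorem IsLG.coeff {T : L2 G →L[ℂ] L2 G} (hT : IsLG T) (g h : G) :
    T (dl h) g = hat T (g * h⁻¹) := by
  have h1 : (dl h : L2 G) = rt h⁻¹ (dl 1) := by rw [rt_dl]; simp
  rw [h1, hT, rt_apply]
  rfl

theorem IsRG.coeff {T : L2 G →L[ℂ] L2 G} (hT : IsRG T) (g h : G) :
    T (dl h) g = hat T (h⁻¹ * g) := by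
  have h1 : (dl h : L2 G) = lt h (dl 1) := by rw [lt_dl]; simp
  rw [h1, hT, lt_apply]
  rfl

theorem IsLG.ext {S T : L2 G →L[ℂ] L2 G} (hS : IsLG S) (hT : IsLG T) (h : hat S = hat T) :
    S = T := by
  apply clm_ext
  intro g
  ext u
  rw [hS.coeff, hT.coeff, h]

/-- Coordinates of `T ξ`. -/
theorem apply_hasSum (T : L2 G →L[ℂ] L2 G) (ξ : L2 G) (g : G) :
    HasSum (fun h => T (dl h) g * ξ h) (T ξ g) := by
  have h1 : T ξ g = ⟪ContinuousLinearMap.adjoint T (dl g), ξ⟫_ℂ := by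
    rw [ContinuousLinearMap.adjoint_inner_left, inner_dl_left]
  rw [h1]
  have h2 := lp.hasSum_inner (𝕜 := ℂ) (G := fun _ : G => ℂ) (ContinuousLinearMap.adjoint T (dl g)) ξ
  have h3 : (fun i => ⟪(ContinuousLinearMap.adjoint T (dl g) : L2 G) i, ξ i⟫_ℂ) =
      fun h => T (dl h) g * ξ h := by
    funext h
    have h4 : (ContinuousLinearMap.adjoint T (dl g) : L2 G) h = conj (T (dl h) g) := by
      rw [← inner_dl_left, ContinuousLinearMap.adjoint_inner_right, inner_dl_right]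
    rw [h4]
    simp [mul_comm]
  rwa [h3] at h2

theorem Supp.applyLG {T : L2 G →L[ℂ] L2 G} (hT : IsLG T) {ξ : L2 G} {A B : Set G}
    (hA : Supp (hat T) A) (hB : Supp ξ B) : Supp (T ξ) {g | ∃ a ∈ A, ∃ b ∈ B, g = a * b} := by
  intro g hg
  have h1 := apply_hasSum T ξ g
  have h2 : (fun h => T (dl h) g * ξ h) = fun _ => (0 : ℂ) := by
    funext h
    by_cases hh : h ∈ B
    · rw [hT.coeff, hA, zero_mul]
      intro h3
      exact hg ⟨_, h3, h, hh, by group⟩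
    · rw [hB h hh, mul_zero]
  rw [h2] at h1
  exact h1.unique hasSum_zero

theorem Supp.applyRG {T : L2 G →L[ℂ] L2 G} (hT : IsRG T) {ξ : L2 G} {A B : Set G}
    (hA : Supp (hat T) A) (hB : Supp ξ B) : Supp (T ξ) {g | ∃ b ∈ B, ∃ a ∈ A, g = b * a} := by
  intro g hg
  have h1 := apply_hasSum T ξ g
  have h2 : (fun h => T (dl h) g * ξ h) = fun _ => (0 : ℂ) := by
    funext h
    by_cases hh : h ∈ B
    · rw [hT.coeff, hA, zero_mul]
      intro h3
      exact hg ⟨h, hh, _, h3, by group⟩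
    · rw [hB h hh, mul_zero]
  rw [h2] at h1
  exact h1.unique hasSum_zero

/-- Elements of `L(G)` and of its commutant commute. -/
theorem LG_comm_RG {T S : L2 G →L[ℂ] L2 G} (hT : IsLG T) (hS : IsRG S) (ξ : L2 G) :
    T (S ξ) = S (T ξ) := by
  have h : T * S = S * T := by
    apply clm_ext
    intro h
    ext g
    rw [mul_apply_eq_comp, mul_apply_eq_comp]
    have h1 := apply_hasSum T (S (dl h)) g
    have h2 := apply_hasSum S (T (dl h)) g
    have h3 : (fun k => T (dl k) g * S (dl h) k) = fun k => hat T (g * k⁻¹) * hat S (h⁻¹ * k) := by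
      funext k
      rw [hT.coeff, hS.coeff]
    have h4 : (fun k => S (dl k) g * T (dl h) k) = fun k => hat S (k⁻¹ * g) * hat T (k * h⁻¹) := by
      funext k
      rw [hT.coeff, hS.coeff]
    rw [h3] at h1
    rw [h4] at h2
    let e : G ≃ G :=
      { toFun := fun k => g * k⁻¹ * h
        invFun := fun k => h * k⁻¹ * g
        left_inv := fun k => by group
        right_inv := fun k => by group }
    have h5 : HasSum (fun k => hat S ((e k)⁻¹ * g) * hat T (e k * h⁻¹)) (S (T (dl h)) g) :=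
      (e.hasSum_iff (f := fun k => hat S (k⁻¹ * g) * hat T (k * h⁻¹))).2 h2
    have h6 : (fun k => hat S ((e k)⁻¹ * g) * hat T (e k * h⁻¹)) =
        fun k => hat T (g * k⁻¹) * hat S (h⁻¹ * k) := by
      funext k
      show hat S ((g * k⁻¹ * h)⁻¹ * g) * hat T (g * k⁻¹ * h * h⁻¹) = _
      rw [mul_comm]
      congr 2 <;> group
    rw [h6] at h5
    exact h1.unique h5
  have h7 := congrArg (fun R : L2 G →L[ℂ] L2 G => R ξ) h
  simpa only [mul_apply_eq_comp] using h7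

/-- The antiunitary `ξ ↦ (g ↦ conj (ξ g⁻¹))`. -/
noncomputable def Jf (ξ : L2 G) : L2 G :=
  mkL2 (fun g => conj (ξ g⁻¹)) (by
    have h := ((Equiv.inv G).summable_iff (f := fun g => ‖ξ g‖ ^ 2)).2 (L2_summable ξ)
    refine h.congr fun g => ?_
    simp)

@[simp] theorem Jf_apply (ξ : L2 G) (g : G) : Jf ξ g = conj (ξ g⁻¹) := rfl

theorem Jf_Jf (ξ : L2 G) : Jf (Jf ξ) = ξ := by
  ext g
  simp

theorem Jf_add (ξ η : L2 G) : Jf (ξ + η) = Jf ξ + Jf η := by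
  ext g
  simp

theorem Jf_sub (ξ η : L2 G) : Jf (ξ - η) = Jf ξ - Jf η := by
  ext g
  simp

theorem Jf_smul (c : ℂ) (ξ : L2 G) : Jf (c • ξ) = conj c • Jf ξ := by
  ext g
  simp

theorem norm_Jf (ξ : L2 G) : ‖Jf ξ‖ = ‖ξ‖ := by
  have h : ‖Jf ξ‖ ^ 2 = ‖ξ‖ ^ 2 := by
    rw [L2_norm_sq, L2_norm_sq]
    have h1 := (Equiv.inv G).tsum_eq (fun g => ‖ξ g‖ ^ 2)
    rw [← h1]
    refine tsum_congr fun g => ?_
    simp
  exact (sq_eq_sq₀ (norm_nonneg _) (norm_nonneg _)).1 h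

theorem Jf_dl (g : G) : Jf (dl g) = dl g⁻¹ := by
  ext h
  rw [Jf_apply]
  by_cases hh : h = g⁻¹
  · subst hh
    rw [inv_inv, dl_self, dl_self, map_one]
  · rw [dl_ne hh, dl_ne, map_zero]
    intro h'
    exact hh (by rw [← h', inv_inv])

theorem Jf_inner (ξ η : L2 G) : ⟪Jf ξ, Jf η⟫_ℂ = ⟪η, ξ⟫_ℂ := by
  rw [lp.inner_eq_tsum, lp.inner_eq_tsum]
  have h1 := (Equiv.inv G).tsum_eq (fun g => ⟪η g, ξ g⟫_ℂ)
  rw [← h1]
  refine tsum_congr fun g => ?_
  simp [mul_comm]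

theorem Jf_rt (g : G) (ξ : L2 G) : Jf (rt g ξ) = lt g (Jf ξ) := by
  ext h
  simp

theorem Jf_lt (g : G) (ξ : L2 G) : Jf (lt g ξ) = rt g (Jf ξ) := by
  ext h
  simp

/-- Right convolution by `hat W`: `rm W = J W⋆ J`. -/
noncomputable def rm (W : L2 G →L[ℂ] L2 G) : L2 G →L[ℂ] L2 G :=
  LinearMap.mkContinuous
    { toFun := fun ξ => Jf (star W (Jf ξ))
      map_add' := fun ξ η => by rw [Jf_add, map_add, Jf_add]
      map_smul' := fun c ξ => by
        rw [Jf_smul, map_smul, Jf_smul, RingHom.id_apply, starRingEnd_self_apply] } ‖W‖ (fun ξ => by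
      show ‖Jf (star W (Jf ξ))‖ ≤ _
      rw [norm_Jf]
      have h := (star W).le_opNorm (Jf ξ)
      have h1 : ‖star W‖ = ‖W‖ := norm_star W
      rwa [h1, norm_Jf] at h)

theorem rm_apply (W : L2 G →L[ℂ] L2 G) (ξ : L2 G) : rm W ξ = Jf (star W (Jf ξ)) := rfl

theorem norm_rm_le (W : L2 G →L[ℂ] L2 G) : ‖rm W‖ ≤ ‖W‖ :=
  LinearMap.mkContinuous_norm_le _ (norm_nonneg _) _

theorem norm_rm_apply_le (W : L2 G →L[ℂ] L2 G) (ξ : L2 G) : ‖rm W ξ‖ ≤ ‖W‖ * ‖ξ‖ :=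
  (rm W).le_of_opNorm_le (norm_rm_le W) ξ

theorem IsLG.rm {W : L2 G →L[ℂ] L2 G} (hW : IsLG W) : IsRG (rm W) := fun g ξ => by
  rw [rm_apply, rm_apply, Jf_lt, hW.star, Jf_rt]

theorem hat_star_apply (T : L2 G →L[ℂ] L2 G) (hT : IsLG T) (g : G) :
    hat (star T) g = conj (hat T g⁻¹) := by
  have h1 : hat (star T) g = ⟪T (dl g), dl 1⟫_ℂ := by
    rw [← inner_dl_left]
    exact ContinuousLinearMap.adjoint_inner_right T (dl g) (dl 1)
  rw [h1, inner_dl_right, hT.coeff, one_mul]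

theorem hat_star (T : L2 G →L[ℂ] L2 G) (hT : IsLG T) : hat (star T) = Jf (hat T) := by
  ext g
  rw [hat_star_apply T hT, Jf_apply]

theorem hat_rm {W : L2 G →L[ℂ] L2 G} (hW : IsLG W) : hat (rm W) = hat W := by
  show Jf (star W (Jf (dl 1))) = _
  rw [Jf_dl, inv_one]
  show Jf (hat (star W)) = _
  rw [hat_star W hW, Jf_Jf]

theorem norm_hat_star {T : L2 G →L[ℂ] L2 G} (hT : IsLG T) : ‖hat (star T)‖ = ‖hat T‖ := by
  rw [hat_star T hT, norm_Jf]

/-- Elements of `L(G)` commute with right convolutions. -/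
theorem rm_comm {T W : L2 G →L[ℂ] L2 G} (hT : IsLG T) (hW : IsLG W) (ξ : L2 G) :
    T (rm W ξ) = rm W (T ξ) := LG_comm_RG hT hW.rm ξ

theorem rm_hat {T W : L2 G →L[ℂ] L2 G} (hT : IsLG T) (hW : IsLG W) :
    rm W (hat T) = hat (T * W) := by
  unfold hat
  rw [← rm_comm hT hW, mul_apply_eq_comp]
  show T (hat (rm W)) = T (hat W)
  rw [hat_rm hW]

theorem rm_lt {W : L2 G →L[ℂ] L2 G} (hW : IsLG W) (g : G) (ξ : L2 G) :
    rm W (lt g ξ) = lt g (rm W ξ) := hW.rm g ξ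

theorem rm_mul (W Z : L2 G →L[ℂ] L2 G) (ξ : L2 G) : rm (W * Z) ξ = rm Z (rm W ξ) := by
  rw [rm_apply, rm_apply, rm_apply, Jf_Jf, star_mul, mul_apply_eq_comp]

theorem rm_one (ξ : L2 G) : rm (1 : L2 G →L[ℂ] L2 G) ξ = ξ := by
  rw [rm_apply, star_one]
  exact Jf_Jf ξ

theorem rm_sub (W Z : L2 G →L[ℂ] L2 G) (ξ : L2 G) : rm (W - Z) ξ = rm W ξ - rm Z ξ := by
  rw [rm_apply, rm_apply, rm_apply, star_sub, sub_apply, Jf_sub]

theorem rm_inner {W : L2 G →L[ℂ] L2 G} (ξ η : L2 G) :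
    ⟪rm W ξ, η⟫_ℂ = ⟪ξ, rm (star W) η⟫_ℂ := by
  have h1 : ⟪rm W ξ, η⟫_ℂ = ⟪Jf η, star W (Jf ξ)⟫_ℂ := by
    rw [rm_apply, ← Jf_inner, Jf_Jf]
  have h2 : ⟪ξ, rm (star W) η⟫_ℂ = ⟪W (Jf η), Jf ξ⟫_ℂ := by
    rw [rm_apply, ← Jf_inner, Jf_Jf, star_star]
  rw [h1, h2]
  exact ContinuousLinearMap.adjoint_inner_right W (Jf η) (Jf ξ)

theorem Supp.rm {W : L2 G →L[ℂ] L2 G} (hW : IsLG W) {ξ : L2 G} {A B : Set G}
    (hA : Supp (hat W) A) (hB : Supp ξ B) : Supp (rm W ξ) {g | ∃ b ∈ B, ∃ a ∈ A, g = b * a} :=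
  Supp.applyRG hW.rm (by rwa [hat_rm hW]) hB

theorem Supp.star {T : L2 G →L[ℂ] L2 G} (hT : IsLG T) {A : Set G} (h : Supp (hat T) A) :
    Supp (hat (star T)) {g | g⁻¹ ∈ A} := by
  intro g hg
  rw [hat_star_apply T hT, h _ hg, map_zero]

/-- The trace. -/
noncomputable def tra (T : L2 G →L[ℂ] L2 G) : ℂ := hat T 1

theorem tra_eq_inner (T : L2 G →L[ℂ] L2 G) : tra T = ⟪dl 1, T (dl 1)⟫_ℂ := by
  rw [inner_dl_left]
  rfl

theorem inner_hat {S T : L2 G →L[ℂ] L2 G} : ⟪hat S, hat T⟫_ℂ = tra (star S * T) := by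
  rw [tra_eq_inner, mul_apply_eq_comp]
  exact (ContinuousLinearMap.adjoint_inner_right S (dl 1) (T (dl 1))).symm

theorem tra_mul_comm {S T : L2 G →L[ℂ] L2 G} (hS : IsLG S) (hT : IsLG T) :
    tra (S * T) = tra (T * S) := by
  have h1 : tra (S * T) = ⟪hat (star S), hat T⟫_ℂ := by rw [inner_hat, star_star]
  have h2 : tra (T * S) = ⟪hat (star T), hat S⟫_ℂ := by rw [inner_hat, star_star]
  rw [h1, h2, hat_star S hS, hat_star T hT, ← Jf_inner, Jf_Jf]

theorem tra_star {T : L2 G →L[ℂ] L2 G} (hT : IsLG T) : tra (star T) = conj (tra T) := by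
  unfold tra
  rw [hat_star_apply T hT, inv_one]

theorem tra_star_mul_self (T : L2 G →L[ℂ] L2 G) : tra (star T * T) = ((‖hat T‖ ^ 2 : ℝ) : ℂ) := by
  rw [← inner_hat, inner_self_eq_norm_sq_to_K]
  push_cast
  rfl

theorem norm_tra_le (T : L2 G →L[ℂ] L2 G) : ‖tra T‖ ≤ ‖hat T‖ := norm_apply_le _ _

theorem norm_hat_mul_le_left (S T : L2 G →L[ℂ] L2 G) : ‖hat (S * T)‖ ≤ ‖S‖ * ‖hat T‖ := by
  unfold hat
  rw [mul_apply_eq_comp]
  exact S.le_opNorm _

theorem norm_hat_mul_le_right {S T : L2 G →L[ℂ] L2 G} (hS : IsLG S) (hT : IsLG T) :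
    ‖hat (S * T)‖ ≤ ‖T‖ * ‖hat S‖ := by
  rw [← rm_hat hS hT]
  exact norm_rm_apply_le T _

theorem tra_one : tra (1 : L2 G →L[ℂ] L2 G) = 1 := dl_self 1

theorem tra_ltC {g : G} (hg : g ≠ 1) : tra (ltC g) = 0 := by
  unfold tra
  rw [hat_ltC]
  exact dl_ne (Ne.symm hg)

end group

end Pool.Agent.H68.Amp
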