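import Pool.Agent.H68.Amp.Step2

set_option autoImplicit false

/-! # The left vector state of `b` is almost the trace -/

open scoped InnerProductSpace

namespace Pool.Agent.H68.Amp

variable {G : Type*} [Group G] {K S T C' : Subgroup G} {x y : G}

theorem LeftState_coord (hP : AlgPair K S T C' x y) {ζ : L2 G} (hζ : Supp ζ (Yst K y))
    {a : L2 G →L[ℂ] L2 G} (ha : IsLG a) (haK : Supp (hat a) (K : Set G)) {g : G}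
    (hg : g ∈ Yst K y) : a ζ g = tra a * ζ g := by
  have h1 := apply_hasSum a ζ g
  have h2 : HasSum (fun h => a (dl h) g * ζ h) (a (dl g) g * ζ g) := by
    refine hasSum_single g fun h hh => ?_
    by_cases hy : h ∈ Yst K y
    · rw [ha.coeff, haK, zero_mul]
      intro hK
      obtain ⟨m', hm', k', hk', hgk⟩ := hg
      obtain ⟨m, hm, k, hk, hhk⟩ := hy
      have h3 : g * h⁻¹ = 1 := by
        refine hP.r5 (g * h⁻¹) hK m m' hm k hk k' hk' ?_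
        rw [← hhk, ← hgk]
        group
      exact hh (mul_inv_eq_one.1 h3).symm
    · rw [hζ h hy, mul_zero]
  rw [h1.unique h2, ha.coeff, mul_inv_cancel]
  rfl

/-- Vectors supported on `{y ^ l k}`, `l ≠ 0`, have scalar left vector state on `L(K)`. -/
theorem inner_Yst (hP : AlgPair K S T C' x y) {ζ : L2 G} (hζ : Supp ζ (Yst K y))
    {a : L2 G →L[ℂ] L2 G} (ha : IsLG a) (haK : Supp (hat a) (K : Set G)) :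
    ⟪ζ, a ζ⟫_ℂ = tra a * ((‖ζ‖ ^ 2 : ℝ) : ℂ) := by
  have h0 : ((‖ζ‖ ^ 2 : ℝ) : ℂ) = ⟪ζ, ζ⟫_ℂ := by
    rw [inner_self_eq_norm_sq_to_K]
    push_cast
    rfl
  rw [h0, lp.inner_eq_tsum, lp.inner_eq_tsum, ← tsum_mul_left]
  refine tsum_congr fun g => ?_
  by_cases hg : g ∈ Yst K y
  · rw [LeftState_coord hP hζ ha haK hg]
    simp only [RCLike.inner_apply]
    ring
  · rw [hζ g hg]
    simp

theorem LeftState_aux {W : L2 G →L[ℂ] L2 G} (hW : IsLG W)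
    {b : L2 G} {a : L2 G →L[ℂ] L2 G} (ha : IsLG a) :
    ⟪b, a b⟫_ℂ - ⟪rm W b, a (rm W b)⟫_ℂ = ⟪rm (1 - W * star W) b, a b⟫_ℂ := by
  have hst : star (W * star W) = W * star W := by
    rw [star_mul, star_star]
  rw [rm_sub, rm_one, inner_sub_left, rm_comm ha hW, rm_inner, rm_inner, hst,
    rm_mul, ← rm_inner]

theorem LeftState_core (hP : AlgPair K S T C' x y) {W : L2 G →L[ℂ] L2 G} (hW : IsLG W)
    {b : L2 G} {η : ℝ} (hη : 0 ≤ η)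
    (h1 : ‖rm (1 - W * star W) b‖ ≤ η * ‖b‖)
    (h2 : ‖rm W b - pr (Yst K y) (rm W b)‖ ≤ η * ‖b‖) {a : L2 G →L[ℂ] L2 G} (ha : IsLG a)
    (haK : Supp (hat a) (K : Set G)) :
    ‖⟪b, a b⟫_ℂ - tra a * ((‖pr (Yst K y) (rm W b)‖ ^ 2 : ℝ) : ℂ)‖ ≤
      (1 + 2 * ‖W‖) * η * ‖a‖ * ‖b‖ ^ 2 := by
  set d := rm W b with hd
  set d' := pr (Yst K y) d with hd'
  have e1 := LeftState_aux (b := b) hW ha
  have e2 : ⟪d', a d'⟫_ℂ = tra a * ((‖d'‖ ^ 2 : ℝ) : ℂ) := inner_Yst hP (supp_pr _ _) ha haK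
  have e3 : ⟪b, a b⟫_ℂ - tra a * ((‖d'‖ ^ 2 : ℝ) : ℂ) =
      ⟪rm (1 - W * star W) b, a b⟫_ℂ + (⟪d - d', a d⟫_ℂ + ⟪d', a (d - d')⟫_ℂ) := by
    rw [← e1, ← e2, map_sub, inner_sub_left, inner_sub_right]
    ring
  have hb := norm_nonneg b
  have hna := norm_nonneg a
  have hnW := norm_nonneg W
  have f1 : ‖⟪rm (1 - W * star W) b, a b⟫_ℂ‖ ≤ (η * ‖b‖) * (‖a‖ * ‖b‖) :=
    (norm_inner_le_norm _ _).trans (mul_le_mul h1 (a.le_opNorm b) (norm_nonneg _) (by positivity))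
  have hdn : ‖d‖ ≤ ‖W‖ * ‖b‖ := norm_rm_apply_le W b
  have hd'n : ‖d'‖ ≤ ‖W‖ * ‖b‖ := (norm_pr_le _ _).trans hdn
  have f2 : ‖⟪d - d', a d⟫_ℂ‖ ≤ (η * ‖b‖) * (‖a‖ * (‖W‖ * ‖b‖)) :=
    (norm_inner_le_norm _ _).trans (mul_le_mul h2
      ((a.le_opNorm d).trans (mul_le_mul_of_nonneg_left hdn hna)) (norm_nonneg _) (by positivity))
  have f3 : ‖⟪d', a (d - d')⟫_ℂ‖ ≤ (‖W‖ * ‖b‖) * (‖a‖ * (η * ‖b‖)) :=
    (norm_inner_le_norm _ _).trans (mul_le_mul hd'n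
      ((a.le_opNorm _).trans (mul_le_mul_of_nonneg_left h2 hna)) (norm_nonneg _) (by positivity))
  rw [e3]
  calc ‖⟪rm (1 - W * star W) b, a b⟫_ℂ + (⟪d - d', a d⟫_ℂ + ⟪d', a (d - d')⟫_ℂ)‖
      ≤ ‖⟪rm (1 - W * star W) b, a b⟫_ℂ‖ + (‖⟪d - d', a d⟫_ℂ‖ + ‖⟪d', a (d - d')⟫_ℂ‖) :=
        (norm_add_le _ _).trans (add_le_add le_rfl (norm_add_le _ _))
    _ ≤ (η * ‖b‖) * (‖a‖ * ‖b‖) + ((η * ‖b‖) * (‖a‖ * (‖W‖ * ‖b‖)) +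
        (‖W‖ * ‖b‖) * (‖a‖ * (η * ‖b‖))) := add_le_add f1 (add_le_add f2 f3)
    _ = (1 + 2 * ‖W‖) * η * ‖a‖ * ‖b‖ ^ 2 := by ring

theorem left_state (hP : AlgPair K S T C' x y) {W : L2 G →L[ℂ] L2 G} (hW : IsLG W)
    {b : L2 G} {η : ℝ} (hη : 0 ≤ η)
    (h1 : ‖rm (1 - W * star W) b‖ ≤ η * ‖b‖)
    (h2 : ‖rm W b - pr (Yst K y) (rm W b)‖ ≤ η * ‖b‖) {a : L2 G →L[ℂ] L2 G} (ha : IsLG a)
    (haK : Supp (hat a) (K : Set G)) :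
    ‖⟪b, a b⟫_ℂ - tra a * ((‖b‖ ^ 2 : ℝ) : ℂ)‖ ≤ 2 * (1 + 2 * ‖W‖) * η * ‖a‖ * ‖b‖ ^ 2 := by
  have g1 := LeftState_core hP hW hη h1 h2 ha haK
  have hone : Supp (hat (1 : L2 G →L[ℂ] L2 G)) (K : Set G) := by
    intro g hg
    have : hat (1 : L2 G →L[ℂ] L2 G) = dl 1 := rfl
    rw [this]
    refine dl_ne ?_
    rintro rfl
    exact hg K.one_mem
  have g2 := LeftState_core hP hW hη h1 h2 isLG_one hone
  set d' := pr (Yst K y) (rm W b) with hd'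
  have h3 : ‖(1 : L2 G →L[ℂ] L2 G)‖ ≤ 1 := ContinuousLinearMap.norm_id_le
  have h4 : ⟪b, (1 : L2 G →L[ℂ] L2 G) b⟫_ℂ = ((‖b‖ ^ 2 : ℝ) : ℂ) := by
    show ⟪b, b⟫_ℂ = _
    rw [inner_self_eq_norm_sq_to_K]
    push_cast
    rfl
  rw [h4, tra_one, one_mul] at g2
  have hW0 := norm_nonneg W
  have g3 : ‖((‖b‖ ^ 2 : ℝ) : ℂ) - ((‖d'‖ ^ 2 : ℝ) : ℂ)‖ ≤ (1 + 2 * ‖W‖) * η * ‖b‖ ^ 2 := by
    refine g2.trans ?_
    have : (1 + 2 * ‖W‖) * η * ‖(1 : L2 G →L[ℂ] L2 G)‖ * ‖b‖ ^ 2 ≤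
        (1 + 2 * ‖W‖) * η * 1 * ‖b‖ ^ 2 := by gcongr
    simpa using this
  have h5 : ‖tra a‖ ≤ ‖a‖ := (norm_tra_le a).trans (norm_hat_le a)
  have h6 : ⟪b, a b⟫_ℂ - tra a * ((‖b‖ ^ 2 : ℝ) : ℂ) =
      (⟪b, a b⟫_ℂ - tra a * ((‖d'‖ ^ 2 : ℝ) : ℂ)) -
        tra a * (((‖b‖ ^ 2 : ℝ) : ℂ) - ((‖d'‖ ^ 2 : ℝ) : ℂ)) := by ring
  rw [h6]
  calc _ ≤ ‖⟪b, a b⟫_ℂ - tra a * ((‖d'‖ ^ 2 : ℝ) : ℂ)‖ +
        ‖tra a * (((‖b‖ ^ 2 : ℝ) : ℂ) - ((‖d'‖ ^ 2 : ℝ) : ℂ))‖ := norm_sub_le _ _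
    _ ≤ (1 + 2 * ‖W‖) * η * ‖a‖ * ‖b‖ ^ 2 + ‖a‖ * ((1 + 2 * ‖W‖) * η * ‖b‖ ^ 2) := by
        rw [norm_mul]
        exact add_le_add g1 (mul_le_mul h5 g3 (norm_nonneg _) (norm_nonneg _))
    _ = 2 * (1 + 2 * ‖W‖) * η * ‖a‖ * ‖b‖ ^ 2 := by ring

end Pool.Agent.H68.Amp
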