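import Pool.Agent.H68.Amp.Raag1

set_option autoImplicit false

/-! # Right-angled Artin groups: Britton's lemma -/

open Set

namespace Pool.Agent.H68.Amp

variable {V : Type*} (Γ : SimpleGraph V)

open Classical in
theorem toHNN_aux (β u v : V) (huv : Γ.Adj u v) :
    (if u = β then HNNExtension.t else HNNExtension.of (gen Γ u) :
      HNNExtension (Raag Γ) (par Γ {v | Γ.Adj β v}) (par Γ {v | Γ.Adj β v}) (MulEquiv.refl _)) *
      (if v = β then HNNExtension.t else HNNExtension.of (gen Γ v)) =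
    (if v = β then HNNExtension.t else HNNExtension.of (gen Γ v)) *
      (if u = β then HNNExtension.t else HNNExtension.of (gen Γ u)) := by
  by_cases h1 : u = β
  · by_cases h2 : v = β
    · exact absurd (h1.trans h2.symm) huv.ne
    · rw [if_pos h1, if_neg h2]
      subst h1
      exact HNNExtension.t_mul_of (⟨gen Γ v, gen_mem_par Γ huv⟩ : par Γ {v | Γ.Adj u v})
  · by_cases h2 : v = β
    · rw [if_neg h1, if_pos h2]
      subst h2
      exact (HNNExtension.t_mul_of (⟨gen Γ u, gen_mem_par Γ huv.symm⟩ : par Γ {u | Γ.Adj v u})).symm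
    · rw [if_neg h1, if_neg h2, ← map_mul, ← map_mul, gen_comm Γ huv]

open Classical in
/-- The homomorphism to the HNN extension with stable letter `β` (base group: the whole group). -/
noncomputable def toHNN (β : V) :
    Raag Γ →* HNNExtension (Raag Γ) (par Γ {v | Γ.Adj β v}) (par Γ {v | Γ.Adj β v})
      (MulEquiv.refl _) :=
  raagLift Γ (fun v => if v = β then HNNExtension.t else HNNExtension.of (gen Γ v))
    (fun u v huv => toHNN_aux Γ β u v huv)

theorem toHNN_eq_of {β : V} {g : Raag Γ} (h : g ∈ par Γ {v | v ≠ β}) :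
    toHNN Γ β g = HNNExtension.of g := by
  classical
  have h1 : par Γ {v | v ≠ β} ≤ (toHNN Γ β).eqLocus HNNExtension.of := by
    unfold par
    rw [Subgroup.closure_le]
    rintro x ⟨v, hv, rfl⟩
    show toHNN Γ β (gen Γ v) = HNNExtension.of (gen Γ v)
    unfold toHNN
    rw [raagLift_gen, if_neg hv]
  exact h1 h

theorem RaagB_toHNN_gen (β : V) : toHNN Γ β (gen Γ β) = HNNExtension.t := by
  classical
  unfold toHNN
  rw [raagLift_gen, if_pos rfl]

theorem RaagB_par_ne {T : Set V} {β : V} {g : Raag Γ} (h : g ∈ par Γ (T \ {β})) :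
    g ∈ par Γ {v | v ≠ β} := par_mono Γ (fun _ hv => hv.2) h

/-- Value of a word in the right-angled Artin group. -/
def RaagB_val (β : V) (l : List (ℤˣ × Raag Γ)) : Raag Γ :=
  (l.map (fun x => gen Γ β ^ (x.1 : ℤ) * x.2)).prod

theorem RaagB_val_cons (β : V) (x : ℤˣ × Raag Γ) (l : List (ℤˣ × Raag Γ)) :
    RaagB_val Γ β (x :: l) = gen Γ β ^ (x.1 : ℤ) * x.2 * RaagB_val Γ β l := by
  unfold RaagB_val
  rw [List.map_cons, List.prod_cons]

theorem RaagB_toHNN_val {β : V} (l : List (ℤˣ × Raag Γ))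
    (hl : ∀ p ∈ l, p.2 ∈ par Γ {v | v ≠ β}) :
    toHNN Γ β (RaagB_val Γ β l) =
      (l.map (fun x => HNNExtension.t ^ (x.1 : ℤ) * HNNExtension.of x.2)).prod := by
  induction l with
  | nil => simp [RaagB_val]
  | cons x l ih =>
    rw [RaagB_val_cons, map_mul, map_mul, map_zpow, RaagB_toHNN_gen,
      ih fun p hp => hl p (List.mem_cons_of_mem _ hp), toHNN_eq_of Γ (hl x List.mem_cons_self),
      List.map_cons, List.prod_cons]

open HNNExtension NormalWord in
/-- Existence of reduced expressions. -/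
theorem RaagB_red {β : V} {T : Set V} {h : Raag Γ} (hT : h ∈ par Γ T) :
    ∃ w : ReducedWord (Raag Γ) (par Γ {v | Γ.Adj β v}) (par Γ {v | Γ.Adj β v}),
      w.head * RaagB_val Γ β w.toList = h ∧ w.head ∈ par Γ (T \ {β}) ∧
      ∀ p ∈ w.toList, p.2 ∈ par Γ (T \ {β}) := by
  -- adding a letter `β ^ u` on the left
  have hstep : ∀ (u : ℤˣ) (y : Raag Γ),
      (∃ w : ReducedWord (Raag Γ) (par Γ {v | Γ.Adj β v}) (par Γ {v | Γ.Adj β v}),
        w.head * RaagB_val Γ β w.toList = y ∧ w.head ∈ par Γ (T \ {β}) ∧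
        ∀ p ∈ w.toList, p.2 ∈ par Γ (T \ {β})) →
      ∃ w : ReducedWord (Raag Γ) (par Γ {v | Γ.Adj β v}) (par Γ {v | Γ.Adj β v}),
        w.head * RaagB_val Γ β w.toList = gen Γ β ^ (u : ℤ) * y ∧ w.head ∈ par Γ (T \ {β}) ∧
        ∀ p ∈ w.toList, p.2 ∈ par Γ (T \ {β}) := by
    rintro u y ⟨⟨g0, l, hch⟩, hw, hg0, hl⟩
    by_cases hred : ∀ p ∈ l.head?, g0 ∈ toSubgroup (par Γ {v | Γ.Adj β v})
        (par Γ {v | Γ.Adj β v}) u → u = p.1
    · refine ⟨⟨1, (u, g0) :: l, List.isChain_cons.2 ⟨fun p hp => hred p hp, hch⟩⟩, ?_, one_mem _, ?_⟩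
      · show 1 * RaagB_val Γ β ((u, g0) :: l) = _
        rw [RaagB_val_cons, one_mul, ← hw, mul_assoc]
      · intro p hp
        rcases List.mem_cons.1 hp with rfl | hp
        · exact hg0
        · exact hl p hp
    · push Not at hred
      obtain ⟨p, hp, hg, hup⟩ := hred
      cases l with
      | nil => simp at hp
      | cons q l =>
        have hpq : q = p := by simpa using hp
        subst hpq
        have hq := hl q List.mem_cons_self
        refine ⟨⟨g0 * q.2, l, (List.isChain_cons.1 hch).2⟩, ?_, mul_mem hg0 hq,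
          fun p hp => hl p (List.mem_cons_of_mem _ hp)⟩
        show g0 * q.2 * RaagB_val Γ β l = gen Γ β ^ (u : ℤ) * y
        have hw' : g0 * (gen Γ β ^ (q.1 : ℤ) * q.2 * RaagB_val Γ β l) = y := by
          rw [← hw, RaagB_val_cons]
        rw [← hw']
        have hqu : q.1 = -u := by
          rcases Int.units_eq_one_or u with hu | hu <;> rcases Int.units_eq_one_or q.1 with h1 | h1
          · exact absurd (hu.trans h1.symm) hup
          · rw [h1, hu]
          · rw [h1, hu, neg_neg]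
          · exact absurd (hu.trans h1.symm) hup
        have hg' : g0 ∈ par Γ {v | Γ.Adj β v} := by
          rcases Int.units_eq_one_or u with hu | hu
          · rw [hu] at hg
            exact hg
          · rw [hu] at hg
            exact hg
        have hc : Commute (gen Γ β) g0 := by
          have h1 : par Γ {v | Γ.Adj β v} ≤ Subgroup.centralizer {gen Γ β} := by
            unfold par
            rw [Subgroup.closure_le]
            rintro x ⟨v, hv, rfl⟩
            rw [SetLike.mem_coe, Subgroup.mem_centralizer_iff]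
            rintro z rfl
            exact gen_comm Γ hv
          exact Subgroup.mem_centralizer_iff.1 (h1 hg') _ rfl
        have hc2 : gen Γ β ^ (u : ℤ) * g0 = g0 * gen Γ β ^ (u : ℤ) := (hc.zpow_left _).eq
        have hinv : gen Γ β ^ (u : ℤ) * gen Γ β ^ (q.1 : ℤ) = 1 := by
          rw [hqu, Units.val_neg, zpow_neg, mul_inv_cancel]
        calc g0 * q.2 * RaagB_val Γ β l
            = g0 * (gen Γ β ^ (u : ℤ) * gen Γ β ^ (q.1 : ℤ)) * q.2 * RaagB_val Γ β l := by
              rw [hinv, mul_one]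
          _ = (g0 * gen Γ β ^ (u : ℤ)) * (gen Γ β ^ (q.1 : ℤ) * q.2 * RaagB_val Γ β l) := by
              simp only [mul_assoc]
          _ = gen Γ β ^ (u : ℤ) * (g0 * (gen Γ β ^ (q.1 : ℤ) * q.2 * RaagB_val Γ β l)) := by
              rw [← hc2]
              simp only [mul_assoc]
  -- adding another letter on the left
  have hstep' : ∀ (x y : Raag Γ), x ∈ par Γ (T \ {β}) →
      (∃ w : ReducedWord (Raag Γ) (par Γ {v | Γ.Adj β v}) (par Γ {v | Γ.Adj β v}),
        w.head * RaagB_val Γ β w.toList = y ∧ w.head ∈ par Γ (T \ {β}) ∧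
        ∀ p ∈ w.toList, p.2 ∈ par Γ (T \ {β})) →
      ∃ w : ReducedWord (Raag Γ) (par Γ {v | Γ.Adj β v}) (par Γ {v | Γ.Adj β v}),
        w.head * RaagB_val Γ β w.toList = x * y ∧ w.head ∈ par Γ (T \ {β}) ∧
        ∀ p ∈ w.toList, p.2 ∈ par Γ (T \ {β}) := by
    rintro x y hx ⟨⟨g0, l, hch⟩, hw, hg0, hl⟩
    refine ⟨⟨x * g0, l, hch⟩, ?_, mul_mem hx hg0, hl⟩
    show x * g0 * RaagB_val Γ β l = x * y
    rw [← hw, mul_assoc]
  refine Subgroup.closure_induction_left (p := fun h _ =>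
    ∃ w : ReducedWord (Raag Γ) (par Γ {v | Γ.Adj β v}) (par Γ {v | Γ.Adj β v}),
      w.head * RaagB_val Γ β w.toList = h ∧ w.head ∈ par Γ (T \ {β}) ∧
      ∀ p ∈ w.toList, p.2 ∈ par Γ (T \ {β})) ?_ ?_ ?_ hT
  · exact ⟨⟨1, [], List.isChain_nil⟩, by simp [RaagB_val], one_mem _, by simp⟩
  · rintro x ⟨v, hv, rfl⟩ y hy ih
    by_cases hvβ : v = β
    · subst hvβ
      have h1 := hstep 1 y ih
      simpa using h1
    · exact hstep' _ y (gen_mem_par Γ ⟨hv, hvβ⟩) ih
  · rintro x ⟨v, hv, rfl⟩ y hy ih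
    by_cases hvβ : v = β
    · subst hvβ
      have h1 := hstep (-1) y ih
      simpa using h1
    · exact hstep' _ y (inv_mem (gen_mem_par Γ ⟨hv, hvβ⟩)) ih

open HNNExtension NormalWord in
theorem exists_reduced {β : V} {T : Set V} {h : Raag Γ} (hT : h ∈ par Γ T) :
    ∃ w : ReducedWord (Raag Γ) (par Γ {v | Γ.Adj β v}) (par Γ {v | Γ.Adj β v}),
      w.prod (MulEquiv.refl _) = toHNN Γ β h ∧ w.head ∈ par Γ (T \ {β}) ∧
      (∀ p ∈ w.toList, p.2 ∈ par Γ (T \ {β})) ∧ (w.toList = [] → h ∈ par Γ (T \ {β})) := by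
  obtain ⟨w, hw, hh, hl⟩ := RaagB_red Γ (β := β) hT
  refine ⟨w, ?_, hh, hl, ?_⟩
  · rw [← hw, map_mul, toHNN_eq_of Γ (RaagB_par_ne Γ hh),
      RaagB_toHNN_val Γ w.toList fun p hp => RaagB_par_ne Γ (hl p hp)]
    rfl
  · intro h0
    rw [← hw, h0]
    simpa [RaagB_val] using hh

open HNNExtension in
/-- Multiplication of the last entry of a reduced list. -/
theorem RaagB_mulLast {G : Type*} [Group G] {A B : Subgroup G} (φ : A ≃* B) (g' : G)
    (l : List (ℤˣ × G)) (hne : l ≠ [])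
    (hch : l.IsChain (fun a b => a.2 ∈ toSubgroup A B a.1 → a.1 = b.1)) :
    ∃ l' : List (ℤˣ × G), l'.IsChain (fun a b => a.2 ∈ toSubgroup A B a.1 → a.1 = b.1) ∧
      l'.map Prod.fst = l.map Prod.fst ∧
      (l'.map (fun x => (t ^ (x.1 : ℤ) * of x.2 : HNNExtension G A B φ))).prod =
        (l.map (fun x => (t ^ (x.1 : ℤ) * of x.2 : HNNExtension G A B φ))).prod * of g' := by
  induction l with
  | nil => exact absurd rfl hne
  | cons a l ih =>
    cases l with
    | nil =>
      refine ⟨[(a.1, a.2 * g')], List.isChain_singleton _, by simp, ?_⟩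
      simp [mul_assoc]
    | cons b l =>
      obtain ⟨hab, hch'⟩ := List.isChain_cons.1 hch
      obtain ⟨l', h1, h2, h3⟩ := ih (by simp) hch'
      refine ⟨a :: l', List.isChain_cons.2 ⟨?_, h1⟩, by simp [h2], ?_⟩
      · intro c hc ha
        have hb := hab b (by simp) ha
        cases l' with
        | nil => simp at hc
        | cons c' l' =>
          have hcc : c' = c := by simpa using hc
          subst hcc
          have h4 : c'.1 = b.1 := by
            rw [List.map_cons, List.map_cons] at h2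
            exact (List.cons.inj h2).1
          rw [hb, h4]
      · have h5 : ∀ (x : ℤˣ × G) (L : List (ℤˣ × G)),
            ((x :: L).map (fun x => (t ^ (x.1 : ℤ) * of x.2 : HNNExtension G A B φ))).prod =
              (t ^ (x.1 : ℤ) * of x.2) *
                (L.map (fun x => (t ^ (x.1 : ℤ) * of x.2 : HNNExtension G A B φ))).prod :=
          fun x L => by rw [List.map_cons, List.prod_cons]
        rw [h5 a l', h3, h5 a (b :: l)]
        simp only [mul_assoc]

open HNNExtension in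
theorem RaagB_mem_toSubgroup {G : Type*} [Group G] {A : Subgroup G} {u : ℤˣ} {x : G}
    (h : x ∈ toSubgroup A A u) : x ∈ A := by
  rcases Int.units_eq_one_or u with hu | hu
  · rw [hu] at h
    exact h
  · rw [hu] at h
    exact h

open HNNExtension NormalWord in
/-- The main consequence of Britton's lemma: if `g h = h' g'` with `g, g' ∈ par S`,
`h, h' ∈ par T`, `β ∉ S` and `h ∉ par (V \ {β})`, then `g = l' e l⁻¹` with `l, l' ∈ par (T \ {β})` and
`e ∈ par (neighbours of β)`. -/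
theorem britton {S T : Set V} {β : V} (hβ : β ∉ S) {g g' h h' : Raag Γ} (hg : g ∈ par Γ S)
    (hg' : g' ∈ par Γ S) (hh : h ∈ par Γ T) (hh' : h' ∈ par Γ T) (hne : h ∉ par Γ {v | v ≠ β})
    (heq : g * h = h' * g') :
    ∃ l ∈ par Γ (T \ {β}), ∃ l' ∈ par Γ (T \ {β}), ∃ e ∈ par Γ {v | Γ.Adj β v},
      g = l' * e * l⁻¹ := by
  have hS : par Γ S ≤ par Γ {v | v ≠ β} := par_mono Γ (fun v hv hvβ => hβ (hvβ ▸ hv))
  obtain ⟨w1, hw1, hd1, -, hn1⟩ := exists_reduced Γ (β := β) hh
  obtain ⟨w2, hw2, hd2, -, hn2⟩ := exists_reduced Γ (β := β) hh'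
  have hne1 : w1.toList ≠ [] := fun h0 => hne (RaagB_par_ne Γ (hn1 h0))
  let W1 : ReducedWord (Raag Γ) (par Γ {v | Γ.Adj β v}) (par Γ {v | Γ.Adj β v}) :=
    ⟨g * w1.head, w1.toList, w1.chain⟩
  have hW1 : W1.prod (MulEquiv.refl _) = toHNN Γ β (g * h) := by
    rw [map_mul, ← hw1, toHNN_eq_of Γ (hS hg)]
    show of (g * w1.head) * _ = of g * (of w1.head * _)
    rw [map_mul, mul_assoc]
  by_cases hne2 : w2.toList = []
  · exfalso
    have h0 : h' * g' ∈ par Γ {v | v ≠ β} :=
      mul_mem (RaagB_par_ne Γ (hn2 hne2)) (hS hg')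
    rw [← heq] at h0
    exact hne ((Subgroup.mul_mem_cancel_left _ (hS hg)).1 h0)
  · obtain ⟨l2, hc2, hm2, hp2⟩ := RaagB_mulLast (MulEquiv.refl (par Γ {v | Γ.Adj β v})) g' w2.toList
      hne2 w2.chain
    let W2 : ReducedWord (Raag Γ) (par Γ {v | Γ.Adj β v}) (par Γ {v | Γ.Adj β v}) :=
      ⟨w2.head, l2, hc2⟩
    have hW2 : W2.prod (MulEquiv.refl _) = toHNN Γ β (h' * g') := by
      rw [map_mul, ← hw2, toHNN_eq_of Γ (hS hg')]
      show of w2.head * (l2.map _).prod = of w2.head * (w2.toList.map _).prod * of g'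
      rw [hp2, mul_assoc]
    have hprod : W1.prod (MulEquiv.refl _) = W2.prod (MulEquiv.refl _) := by rw [hW1, hW2, heq]
    obtain ⟨-, h2⟩ := ReducedWord.map_fst_eq_and_of_prod_eq _ hprod
    have h3 : ∃ u, u ∈ W1.toList.head?.map Prod.fst := by
      show ∃ u, u ∈ w1.toList.head?.map Prod.fst
      cases hl : w1.toList with
      | nil => exact absurd hl hne1
      | cons a l => exact ⟨a.1, by simp⟩
    obtain ⟨u, hu⟩ := h3
    have h4 : (g * w1.head)⁻¹ * w2.head ∈ par Γ {v | Γ.Adj β v} :=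
      RaagB_mem_toSubgroup (h2 u hu)
    refine ⟨w1.head, hd1, w2.head, hd2, ((g * w1.head)⁻¹ * w2.head)⁻¹, inv_mem h4, ?_⟩
    group

open HNNExtension NormalWord in
theorem RaagB_commute_pow {R : Set V} {v : V} (hv : v ∉ R) {k : Raag Γ} (hk : k ∈ par Γ R) {m : ℕ}
    (h : gen Γ v ^ (m + 1) * k = k * gen Γ v ^ (m + 1)) : k ∈ par Γ {u | Γ.Adj v u} := by
  have hS : par Γ R ≤ par Γ {u | u ≠ v} := par_mono Γ (fun a ha hav => hv (hav ▸ ha))
  have hkv : toHNN Γ v k = of k := toHNN_eq_of Γ (hS hk)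
  have hch : ∀ n : ℕ, (List.replicate n ((1, 1) : ℤˣ × Raag Γ)).IsChain
      (fun a b => a.2 ∈ toSubgroup (par Γ {u | Γ.Adj v u}) (par Γ {u | Γ.Adj v u}) a.1 →
        a.1 = b.1) := by
    intro n
    induction n with
    | zero => exact List.isChain_nil
    | succ n ih =>
      rw [List.replicate_succ]
      refine List.isChain_cons.2 ⟨?_, ih⟩
      intro c hc _
      have : c ∈ List.replicate n ((1, 1) : ℤˣ × Raag Γ) := List.mem_of_mem_head? hc
      rw [List.eq_of_mem_replicate this]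
  have hpr : ∀ n : ℕ, ((List.replicate n ((1, 1) : ℤˣ × Raag Γ)).map
      (fun x => (t ^ (x.1 : ℤ) * of x.2 : HNNExtension (Raag Γ) (par Γ {u | Γ.Adj v u})
        (par Γ {u | Γ.Adj v u}) (MulEquiv.refl _)))).prod = t ^ n := by
    intro n
    rw [List.map_replicate, List.prod_replicate]
    simp
  obtain ⟨l2, hc2, hm2, hp2⟩ := RaagB_mulLast (MulEquiv.refl (par Γ {u | Γ.Adj v u})) k
    (List.replicate (m + 1) (1, 1)) (by simp) (hch (m + 1))
  let W1 : ReducedWord (Raag Γ) (par Γ {u | Γ.Adj v u}) (par Γ {u | Γ.Adj v u}) :=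
    ⟨k, List.replicate (m + 1) (1, 1), hch (m + 1)⟩
  let W2 : ReducedWord (Raag Γ) (par Γ {u | Γ.Adj v u}) (par Γ {u | Γ.Adj v u}) :=
    ⟨1, l2, hc2⟩
  have hprod : W1.prod (MulEquiv.refl _) = W2.prod (MulEquiv.refl _) := by
    show of k * (List.map _ (List.replicate (m + 1) (1, 1))).prod = of 1 * (l2.map _).prod
    rw [hp2, hpr, map_one, one_mul]
    have h1 := congrArg (toHNN Γ v) h
    rw [map_mul, map_mul, map_pow, hkv, RaagB_toHNN_gen] at h1
    exact h1.symm
  obtain ⟨-, h2⟩ := ReducedWord.map_fst_eq_and_of_prod_eq _ hprod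
  have h4 : k⁻¹ * 1 ∈ par Γ {u | Γ.Adj v u} := by
    refine RaagB_mem_toSubgroup (h2 1 ?_)
    show (1 : ℤˣ) ∈ (List.replicate (m + 1) ((1, 1) : ℤˣ × Raag Γ)).head?.map Prod.fst
    rw [List.replicate_succ]
    simp
  rw [mul_one] at h4
  exact inv_mem_iff.1 h4

/-- An element of `par R`, `v ∉ R`, commuting with a nontrivial power of `v`, lies in the parabolic
subgroup of the neighbours of `v`. -/
theorem mem_of_commute_zpow {R : Set V} {v : V} (hv : v ∉ R) {k : Raag Γ} (hk : k ∈ par Γ R) {n : ℤ}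
    (hn : n ≠ 0) (h : gen Γ v ^ n * k = k * gen Γ v ^ n) : k ∈ par Γ (R ∩ {u | Γ.Adj v u}) := by
  rw [← par_inter]
  refine ⟨hk, ?_⟩
  obtain ⟨m, hm⟩ : ∃ m : ℕ, n.natAbs = m + 1 :=
    ⟨n.natAbs - 1, by have := Int.natAbs_pos.2 hn; omega⟩
  apply RaagB_commute_pow Γ hv hk (m := m)
  rw [← hm]
  have hc : Commute (gen Γ v ^ n) k := h
  rcases Int.natAbs_eq n with hn' | hn'
  · have h1 : gen Γ v ^ n = gen Γ v ^ n.natAbs := by
      conv_lhs => rw [hn']
      rw [zpow_natCast]
    rw [← h1]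
    exact h
  · have h1 : (gen Γ v ^ n)⁻¹ = gen Γ v ^ n.natAbs := by
      conv_lhs => rw [hn']
      rw [zpow_neg, zpow_natCast, inv_inv]
    rw [← h1]
    exact hc.inv_left.eq

end Pool.Agent.H68.Amp
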