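import Mathlib

set_option autoImplicit false

/-! # Right-angled Artin groups -/

open Set

namespace Pool.Agent.H68.Amp

variable {V : Type*}

/-- The relators `[u, v]`, for the adjacent pairs of vertices. -/
def raagRels (Γ : SimpleGraph V) : Set (FreeGroup V) :=
  {r | ∃ u v, Γ.Adj u v ∧
    r = FreeGroup.of u * FreeGroup.of v * (FreeGroup.of u)⁻¹ * (FreeGroup.of v)⁻¹}

/-- The right-angled Artin group of a graph. -/
abbrev Raag (Γ : SimpleGraph V) : Type _ := PresentedGroup (raagRels Γ)

variable (Γ : SimpleGraph V)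

/-- The generators. -/
def gen (v : V) : Raag Γ := PresentedGroup.of v

/-- The parabolic subgroup generated by the vertices in `A`. -/
def par (A : Set V) : Subgroup (Raag Γ) := Subgroup.closure (gen Γ '' A)

theorem gen_comm {u v : V} (h : Γ.Adj u v) : gen Γ u * gen Γ v = gen Γ v * gen Γ u := by
  have h1 : (PresentedGroup.mk (raagRels Γ)
      (FreeGroup.of u * FreeGroup.of v * (FreeGroup.of u)⁻¹ * (FreeGroup.of v)⁻¹)) = 1 :=
    (PresentedGroup.mk_eq_one_iff).2 (Subgroup.subset_normalClosure ⟨u, v, h, rfl⟩)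
  simp only [map_mul, map_inv] at h1
  rw [mul_inv_eq_one, mul_inv_eq_iff_eq_mul] at h1
  exact h1

/-- Homomorphisms out of a right-angled Artin group. -/
def raagLift {H : Type*} [Group H] (f : V → H) (hf : ∀ u v, Γ.Adj u v → f u * f v = f v * f u) :
    Raag Γ →* H :=
  PresentedGroup.toGroup (f := f) (by
    rintro r ⟨u, v, huv, rfl⟩
    simp only [map_mul, map_inv, FreeGroup.lift_apply_of]
    rw [mul_inv_eq_one, mul_inv_eq_iff_eq_mul]
    exact hf u v huv)

theorem raagLift_gen {H : Type*} [Group H] (f : V → H)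
    (hf : ∀ u v, Γ.Adj u v → f u * f v = f v * f u) (v : V) : raagLift Γ f hf (gen Γ v) = f v :=
  PresentedGroup.toGroup.of _

theorem raag_hom_ext {H : Type*} [Group H] {f g : Raag Γ →* H}
    (h : ∀ v, f (gen Γ v) = g (gen Γ v)) : f = g :=
  PresentedGroup.ext h

theorem gen_mem_par {A : Set V} {v : V} (h : v ∈ A) : gen Γ v ∈ par Γ A :=
  Subgroup.subset_closure ⟨v, h, rfl⟩

theorem par_mono {A B : Set V} (h : A ⊆ B) : par Γ A ≤ par Γ B :=
  Subgroup.closure_mono (Set.image_mono h)

end Pool.Agent.H68.Amp
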