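import Pool.Agent.H68.Amp.Hit
import Pool.Agent.H68.Amp.Delta
import Pool.Agent.H68.Amp.PairDefs

set_option autoImplicit false

/-! # Selection of a good pair -/

open Cardinal Set

namespace Pool.Agent.H68.Amp

/-- The bipartite graph of an incidence structure. -/
def bGraph {X Y : Type*} (N : Y → Set X) : SimpleGraph (X ⊕ Y) where
  Adj a b := match a, b with
    | .inl x, .inr y => x ∈ N y
    | .inr y, .inl x => x ∈ N y
    | _, _ => False
  symm := ⟨by rintro (x | y) (x' | y') h <;> simpa using h⟩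
  loopless := ⟨by rintro (x | y) h <;> simp at h⟩

theorem Select_mk_le_of_rel {ι α : Type} {B : Set ι} {A : Set α} (r : ι → α → Prop)
    (h1 : ∀ i ∈ B, ∃ a ∈ A, r i a) (h2 : ∀ i ∈ B, ∀ i' ∈ B, ∀ a, r i a → r i' a → i = i') :
    #B ≤ #A := by
  choose f hf hr using h1
  refine mk_le_of_injective (f := fun i : B => (⟨f i.1 i.2, hf i.1 i.2⟩ : A)) ?_
  intro i i' h
  have h3 : f i.1 i.2 = f i'.1 i'.2 := congrArg Subtype.val h
  refine Subtype.ext (h2 i.1 i.2 i'.1 i'.2 _ (hr i.1 i.2) ?_)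
  rw [h3]
  exact hr i'.1 i'.2

theorem Select_biUnion_le {ι α : Type} {κ : Cardinal.{0}} (hκ : ℵ₀ ≤ κ) (s : Set ι)
    (A : ι → Set α) (hs : #s ≤ κ) (hA : ∀ i ∈ s, #(A i) ≤ κ) : #(⋃ i ∈ s, A i) ≤ κ := by
  calc #(⋃ i ∈ s, A i) ≤ #s * ⨆ x : s, #(A x.1) := mk_biUnion_le A s
    _ ≤ κ * κ := mul_le_mul' hs (ciSup_le' fun x => hA x.1 x.2)
    _ = κ := mul_eq_self hκ

theorem Select_union_le {α : Type} {κ : Cardinal.{0}} (hκ : ℵ₀ ≤ κ) {A B : Set α}
    (hA : #A ≤ κ) (hB : #B ≤ κ) : #(A ∪ B : Set α) ≤ κ :=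
  (mk_union_le A B).trans ((add_le_add hA hB).trans (add_eq_self hκ).le)

theorem Select_union_lt {α : Type} {κ : Cardinal.{0}} (hκ : ℵ₀ ≤ κ) {A B : Set α}
    (hA : #A < κ) (hB : #B < κ) : #(A ∪ B : Set α) < κ :=
  (mk_union_le A B).trans_lt (add_lt_of_lt hκ hA hB)

theorem Select_exists_notMem {α : Type} {κ : Cardinal.{0}} {W B : Set α} (hW : κ < #W)
    (hB : #B ≤ κ) : ∃ j ∈ W, j ∉ B := by
  by_contra hcon
  push Not at hcon
  exact absurd ((mk_le_mk_of_subset (show W ⊆ B from hcon)).trans hB) (not_le.2 hW)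

theorem Select_aleph0_lt_I (D : TreeData) : ℵ₀ < #D.I :=
  aleph0_lt_continuum.trans D.cont_lt

theorem Select_aleph0_le_L (D : TreeData) : ℵ₀ ≤ #D.L :=
  (Select_aleph0_lt_I D).le.trans D.I_le

theorem Select_cont_le_L (D : TreeData) : 𝔠 ≤ #D.L := D.cont_lt.le.trans D.I_le

theorem Select_L_lt_Pt (D : TreeData) : #D.L < #D.Pt := by
  rw [mk_set]
  exact cantor _

theorem Select_Tr_le (D : TreeData) : #D.Tr ≤ #D.L := by
  refine le_trans ?_ D.tree_le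
  refine mk_le_of_injective
    (f := fun p : D.Tr => (⟨p.1.1, {x | x.1 ∈ p.1.2}⟩ : Σ i : D.I, Set (D.Lj i))) ?_
  rintro ⟨⟨i, B⟩, hB⟩ ⟨⟨i', B'⟩, hB'⟩ h
  rw [Sigma.mk.injEq] at h
  obtain ⟨h1, h2⟩ := h
  change i = i' at h1
  subst h1
  have h3 := eq_of_heq h2
  have h4 : B = B' := by
    ext x
    constructor
    · intro hx
      have h5 : (⟨x, hB hx⟩ : D.Lj i) ∈ {x : D.Lj i | x.1 ∈ B} := hx
      rw [h3] at h5
      exact h5
    · intro hx
      have h5 : (⟨x, hB' hx⟩ : D.Lj i) ∈ {x : D.Lj i | x.1 ∈ B'} := hx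
      rw [← h3] at h5
      exact h5
  subst h4
  rfl

theorem Select_nb_le (D : TreeData) (A : D.Bl → Set D.L) (y : D.Bl) : #(D.nb A y) ≤ #D.L := by
  refine le_trans ?_ D.I_le
  have h : D.nb A y ⊆ Set.range (fun j : D.I => y.1 (D.br (A y) j) 0) := by
    rintro x ⟨_, j, rfl⟩
    exact ⟨j, rfl⟩
  exact (mk_le_mk_of_subset h).trans mk_range_le

theorem Select_br_inj (D : TreeData) (A : Set D.L) {i i' : D.I} (h : D.br A i = D.br A i') :
    i = i' := by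
  have h1 := congrArg (fun p : D.Tr => p.1.1) h
  exact h1

/-- Every finite set of vertices has a vertex outside it adjacent to none of its elements. -/
theorem exists_nonadj (D : TreeData) (A : D.Bl → Set D.L) (F : Set (D.Pt ⊕ D.Bl)) (hF : F.Finite) :
    ∃ v, v ∉ F ∧ ∀ a ∈ F, ¬ (bGraph (D.nb A)).Adj v a := by
  have hκ := Select_aleph0_le_L D
  have h1 : #(Sum.inl ⁻¹' F : Set D.Pt) ≤ #D.L :=
    ((hF.preimage Sum.inl_injective.injOn).countable.le_aleph0).trans hκ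
  have h2 : #(Sum.inr ⁻¹' F : Set D.Bl) ≤ #D.L :=
    ((hF.preimage Sum.inr_injective.injOn).countable.le_aleph0).trans hκ
  have h3 : #(⋃ y ∈ (Sum.inr ⁻¹' F : Set D.Bl), D.nb A y) ≤ #D.L :=
    Select_biUnion_le hκ _ _ h2 fun y _ => Select_nb_le D A y
  have h4 : #D.L < #(Set.univ : Set D.Pt) := by
    rw [mk_univ]
    exact Select_L_lt_Pt D
  obtain ⟨x, _, hx⟩ := Select_exists_notMem h4 (Select_union_le hκ h1 h3)
  rw [Set.mem_union, not_or] at hx
  refine ⟨Sum.inl x, hx.1, ?_⟩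
  rintro (a | y) ha hadj
  · exact hadj
  · apply hx.2
    rw [Set.mem_iUnion₂]
    exact ⟨y, ha, hadj⟩

theorem Select_enum {α : Type} {R : Set α} (hR : R.Countable) {a : α} (ha : a ∈ R) :
    ∃ f : ℕ → α, f 0 = a ∧ (∀ n, f n ∈ R) ∧ ∀ b ∈ R, ∃ n, f n = b := by
  obtain ⟨f, hf⟩ := hR.exists_eq_range ⟨a, ha⟩
  refine ⟨fun n => Nat.casesOn n a f, rfl, ?_, ?_⟩
  · intro n
    cases n with
    | zero => exact ha
    | succ n =>
      rw [hf]
      exact ⟨n, rfl⟩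
  · intro b hb
    rw [hf] at hb
    obtain ⟨n, hn⟩ := hb
    exact ⟨n + 1, hn⟩

theorem selection (D : TreeData) (A : D.Bl → Set D.L) (hA : D.Rigid A)
    (S : D.Pt ⊕ D.Bl → Set (D.Pt ⊕ D.Bl)) (hS : ∀ v, (S v).Countable) (hvS : ∀ v, v ∈ S v)
    (Bad : Set (D.Pt ⊕ D.Bl) → Set (D.Pt ⊕ D.Bl))
    (hBad : ∀ C, C.Countable → #(Bad C) ≤ 𝔠) :
    ∃ (x y : D.Pt ⊕ D.Bl) (S' T' C C' : Set (D.Pt ⊕ D.Bl)),
      C.Countable ∧ C'.Countable ∧ GoodPair (bGraph (D.nb A)) x y S' T' C C' ∧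
      S x ⊆ S' ∧ S y ⊆ T' ∧ x ∉ Bad C ∧ y ∉ Bad C' ∧ (bGraph (D.nb A)).Adj x y := by
  have hκ := Select_aleph0_le_L D
  -- step 1
  obtain ⟨C, Z0, hC, hZ0, hdis⟩ := delta_system (#D.L) D.pow_aleph0 hκ (Select_L_lt_Pt D)
    (fun a : D.Pt => S (Sum.inl a)) fun a => hS _
  let Z : Set D.Pt := Z0 \ (Sum.inl ⁻¹' C)
  have hZ : #D.L < #Z := by
    by_contra hcon
    rw [not_lt] at hcon
    have h1 : #(Sum.inl ⁻¹' C : Set D.Pt) ≤ #D.L :=
      ((hC.preimage Sum.inl_injective).le_aleph0).trans hκ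
    have h2 : Z0 ⊆ Z ∪ (Sum.inl ⁻¹' C) := by
      intro a ha
      by_cases h : a ∈ (Sum.inl ⁻¹' C : Set D.Pt)
      · exact Or.inr h
      · exact Or.inl ⟨ha, h⟩
    exact absurd ((mk_le_mk_of_subset h2).trans (Select_union_le hκ hcon h1)) (not_le.2 hZ0)
  -- step 2
  obtain ⟨F⟩ : Nonempty (D.Tr ↪ Z) := (Select_Tr_le D).trans hZ.le
  have hFC : ∀ s, (Sum.inl (F s).1 : D.Pt ⊕ D.Bl) ∉ C := fun s h => (F s).2.2 h
  let R : D.Tr → Set D.Pt := fun s => {a | Sum.inl a ∈ S (Sum.inl (F s).1) ∧ Sum.inl a ∉ C}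
  have hRc : ∀ s, (R s).Countable := fun s =>
    ((hS (Sum.inl (F s).1)).preimage Sum.inl_injective).mono fun a ha => ha.1
  have hFR : ∀ s, (F s).1 ∈ R s := fun s => ⟨hvS _, hFC s⟩
  choose t ht0 htR htsurj using fun s => Select_enum (hRc s) (hFR s)
  have hinj : ∀ s s', ∀ v, v ∈ S (Sum.inl (F s).1) → v ∈ S (Sum.inl (F s').1) → v ∉ C →
      s = s' := by
    intro s s' v h1 h2 h3
    by_contra hne
    have h4 : (F s).1 ≠ (F s').1 := fun h => hne (F.injective (Subtype.ext h))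
    exact h3 (hdis _ (F s).2.1 _ (F s').2.1 h4 ⟨h1, h2⟩)
  have hvalid : D.Valid t := by
    intro s s' m n h
    have h1 := htR s m
    have h2 := htR s' n
    rw [← h] at h2
    exact hinj s s' _ h1.1 h2.1 h1.2
  -- step 3
  have hκW : #D.L < #(Set D.L) := Select_L_lt_Pt D
  obtain ⟨C2, W, hC2, hW, hdis2⟩ := delta_system (#D.L) D.pow_aleph0 hκ hκW
    (fun j : Set D.L => S (Sum.inr ((t, j) : D.Bl))) fun a => hS _
  let C' : Set (D.Pt ⊕ D.Bl) := C ∪ C2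
  have hC' : C'.Countable := hC.union hC2
  -- step 4
  let AA : Set (D.Pt ⊕ D.Bl) := ⋃ s : D.Tr, S (Sum.inl (F s).1)
  have hAA : #AA ≤ #D.L := by
    have h1 : AA = ⋃ s ∈ (Set.univ : Set D.Tr), S (Sum.inl (F s).1) := by
      simp [AA]
    rw [h1]
    refine Select_biUnion_le hκ _ _ ?_ fun s _ => ((hS _).le_aleph0).trans hκ
    rw [mk_univ]
    exact Select_Tr_le D
  let NY : Set D.Pt := ⋃ a ∈ (Sum.inr ⁻¹' AA : Set D.Bl), D.nb A a
  have hNY : #NY ≤ #D.L :=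
    Select_biUnion_le hκ _ _ ((mk_preimage_of_injective _ _ Sum.inr_injective).trans hAA)
      fun y _ => Select_nb_le D A y
  let AAA : Set (D.Pt ⊕ D.Bl) := AA ∪ Sum.inl '' NY
  have hAAA : #AAA ≤ #D.L := Select_union_le hκ hAA (mk_image_le.trans hNY)
  let B1 : Set (Set D.L) := {j | (Sum.inr ((t, j) : D.Bl) : D.Pt ⊕ D.Bl) ∈ C'}
  let B2 : Set (Set D.L) := {j | (Sum.inr ((t, j) : D.Bl) : D.Pt ⊕ D.Bl) ∈ Bad C'}
  let B3 : Set (Set D.L) := {j | j ∈ W ∧ ∃ v ∈ AAA, v ∈ S (Sum.inr ((t, j) : D.Bl)) ∧ v ∉ C'}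
  have hemb : Function.Injective
      (fun j : Set D.L => (Sum.inr ((t, j) : D.Bl) : D.Pt ⊕ D.Bl)) := by
    intro j j' h
    have h1 := Sum.inr_injective h
    exact (Prod.mk.inj h1).2
  have hB1 : #B1 ≤ #D.L :=
    ((mk_preimage_of_injective _ C' hemb).trans hC'.le_aleph0).trans hκ
  have hB2 : #B2 ≤ #D.L :=
    ((mk_preimage_of_injective _ (Bad C') hemb).trans (hBad C' hC')).trans (Select_cont_le_L D)
  have hB3 : #B3 ≤ #D.L := by
    refine le_trans (Select_mk_le_of_rel (A := AAA)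
      (fun j v => v ∈ S (Sum.inr ((t, j) : D.Bl)) ∧ v ∉ C') (fun j hj => hj.2) ?_) hAAA
    intro j hj j' hj' v h1 h2
    by_contra hne
    exact h1.2 (Or.inr (hdis2 j hj.1 j' hj'.1 hne ⟨h1.1, h2.1⟩))
  obtain ⟨j, hjW, hj⟩ := Select_exists_notMem hW
    (Select_union_le hκ (Select_union_le hκ hB1 hB2) hB3)
  rw [Set.mem_union, Set.mem_union, not_or, not_or] at hj
  obtain ⟨⟨hj1, hj2⟩, hj3⟩ := hj
  set y : D.Bl := (t, j) with hy
  have hyAAA : ∀ v ∈ S (Sum.inr y), v ∉ C' → v ∉ AAA :=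
    fun v h1 h2 h3 => hj3 ⟨hjW, v, h3, h1, h2⟩
  -- step 5
  have hI := Select_aleph0_lt_I D
  let T' : Set (D.Pt ⊕ D.Bl) := S (Sum.inr y) ∪ C'
  have hT'c : T'.Countable := (hS _).union hC'
  let x : D.I → D.Pt := fun i => (F (D.br (A y) i)).1
  have hxinj : Function.Injective x := by
    intro i i' h
    exact Select_br_inj D _ (F.injective (Subtype.ext h))
  let I1 : Set D.I := {i | (Sum.inl (x i) : D.Pt ⊕ D.Bl) ∈ Bad C}
  let I2 : Set D.I := {i | ∃ v ∈ T', v ∈ S (Sum.inl (x i)) ∧ v ∉ C}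
  let K : Set D.Bl := {c | Sum.inr c ∈ T' ∧ y ≠ c}
  let I3 : Set D.I := ⋃ c ∈ K, {i : D.I | ∃ m, y.1 (D.br (A y) i) m ∈ D.nb A c}
  have hI1 : #I1 < #D.I := by
    have h1 : Function.Injective (fun i => (Sum.inl (x i) : D.Pt ⊕ D.Bl)) :=
      Sum.inl_injective.comp hxinj
    exact ((mk_preimage_of_injective _ (Bad C) h1).trans (hBad C hC)).trans_lt D.cont_lt
  have hI2 : #I2 < #D.I := by
    refine lt_of_le_of_lt (le_trans (Select_mk_le_of_rel (A := T')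
      (fun i v => v ∈ S (Sum.inl (x i)) ∧ v ∉ C) (fun i hi => hi) ?_) hT'c.le_aleph0) hI
    intro i _ i' _ v h1 h2
    exact Select_br_inj D _ (hinj _ _ v h1.1 h2.1 h1.2)
  have hKc : K.Countable := (hT'c.preimage Sum.inr_injective).mono fun c hc => hc.1
  have hI3 : #I3 < #D.I := by
    rw [card_biUnion_lt_iff_forall_of_isRegular D.regular (hKc.le_aleph0.trans_lt hI)]
    intro c hc
    exact hA y c hc.2 hvalid
  have hI123 : #(I1 ∪ I2 ∪ I3 : Set D.I) < #D.I :=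
    Select_union_lt hI.le (Select_union_lt hI.le hI1 hI2) hI3
  obtain ⟨i, hi⟩ : ∃ i, i ∉ I1 ∪ I2 ∪ I3 := by
    by_contra hcon
    push Not at hcon
    have h1 : (Set.univ : Set D.I) ⊆ I1 ∪ I2 ∪ I3 := fun i _ => hcon i
    have h2 := mk_le_mk_of_subset h1
    rw [mk_univ] at h2
    exact absurd h2 (not_le.2 hI123)
  rw [Set.mem_union, Set.mem_union, not_or, not_or] at hi
  obtain ⟨⟨hi1, hi2⟩, hi3⟩ := hi
  have hi2' : ∀ v ∈ T', v ∈ S (Sum.inl (x i)) → v ∈ C := by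
    intro v h1 h2
    by_contra h3
    exact hi2 ⟨v, h1, h2, h3⟩
  have hi3' : ∀ c, Sum.inr c ∈ T' → ∀ m, t (D.br (A y) i) m ∈ D.nb A c → y = c := by
    intro c h1 m h2
    by_contra h3
    apply hi3
    rw [Set.mem_iUnion₂]
    exact ⟨c, ⟨h1, h3⟩, m, h2⟩
  have hxi : t (D.br (A y) i) 0 = x i := ht0 _
  have hxy : x i ∈ D.nb A y := ⟨hvalid, i, hxi.symm⟩
  refine ⟨Sum.inl (x i), Sum.inr y, S (Sum.inl (x i)) ∪ C, T', C, C', hC, hC', ?_,
    Set.subset_union_left, Set.subset_union_left, hi1, hj2, hxy⟩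
  refine
    { hCC' := Set.subset_union_left
      hCS := Set.subset_union_right
      hC'T := Set.subset_union_right
      hST := ?_
      hxS := Or.inl (hvS _)
      hxC := hFC _
      hyT := Or.inl (hvS _)
      hyC' := hj1
      h2 := ?_
      h3 := ?_
      h4 := ?_ }
  · rintro v ⟨h1 | h1, h2⟩
    · exact hi2' v h2 h1
    · exact h1
  · rintro (b | c) hb hbC' hby (a | a) ha hadj
    · exact absurd hadj id
    · rcases ha with ha | ha
      · exfalso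
        have h1 : b ∈ NY := by
          refine Set.mem_iUnion₂.2 ⟨a, ?_, hadj⟩
          exact Set.mem_iUnion.2 ⟨_, ha⟩
        rcases hb with hb | hb
        · exact hyAAA _ hb hbC' (Or.inr ⟨b, h1, rfl⟩)
        · exact hbC' hb
      · exact ha
    · rcases ha with ha | ha
      · by_contra haC
        obtain ⟨m, hm⟩ := htsurj _ a ⟨ha, haC⟩
        apply hby
        rw [hi3' c hb m (by rw [hm]; exact hadj)]
      · exact ha
    · exact absurd hadj id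
  · rintro (a | a) ha hadj
    · obtain ⟨_, j', hj'⟩ := hadj
      have h1 : a = (F (D.br (A y) j')).1 := by
        rw [hj']
        exact ht0 _
      have haC : (Sum.inl a : D.Pt ⊕ D.Bl) ∉ C := by
        rw [h1]
        exact hFC _
      rcases ha with ha | ha
      · obtain ⟨m, hm⟩ := htsurj (D.br (A y) i) a ⟨ha, haC⟩
        have h2 : D.br (A y) j' = D.br (A y) i := hvalid _ _ 0 m (by
          rw [hm, hj'])
        rw [h1, h2]
      · exact absurd ha haC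
    · exact absurd hadj id
  · rintro (c | c) hc hadj
    · exact absurd hadj id
    · rw [hi3' c hc 0 (by rw [hxi]; exact hadj)]

end Pool.Agent.H68.Amp
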