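import Pool.Agent.H68.Amp.LG
import Pool.Agent.H68.Amp.PairDefs

set_option autoImplicit false

/-! # Step 1: localization of `U` on the double coset set `K⟨x⟩K` -/

open scoped InnerProductSpace

namespace Pool.Agent.H68.Amp

variable {G : Type*} [Group G] {K S T C' : Subgroup G} {x y : G}

/-- `K⟨x⟩K`. -/
def Om (K : Subgroup G) (x : G) : Set G := {g | ∃ s ∈ K, ∃ t ∈ K, ∃ n : ℤ, g = s * x ^ n * t}

theorem Step1_Om_mul {g k : G} (hg : g ∈ Om K x) (hk : k ∈ K) : g * k ∈ Om K x := by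
  obtain ⟨s, hs, t, ht, n, rfl⟩ := hg
  exact ⟨s, hs, t * k, K.mul_mem ht hk, n, by group⟩

/-- The part of `S` outside `K⟨x⟩K` times `T`. -/
def Step1_P (K S T : Subgroup G) (x : G) : Set G :=
  {g | ∃ b ∈ (S : Set G) ∩ (Om K x)ᶜ, ∃ a ∈ (T : Set G), g = b * a}

theorem Step1_disj (hP : AlgPair K S T C' x y) :
    ∀ g ∈ {g | ∃ b ∈ (S : Set G) ∩ Om K x, ∃ a ∈ (T : Set G), g = b * a}, g ∉ Step1_P K S T x := by
  rintro g ⟨b, ⟨hbS, hbO⟩, a, ha, rfl⟩ ⟨b', ⟨hbS', hbO'⟩, a', ha', h⟩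
  apply hbO'
  have h1 : b⁻¹ * b' = a * a'⁻¹ := by
    have h2 : b' = b * a * a'⁻¹ := by rw [h]; group
    rw [h2]
    group
  have h3 : b⁻¹ * b' ∈ K := by
    apply hP.ST
    refine Subgroup.mem_inf.2 ⟨S.mul_mem (S.inv_mem hbS) hbS', ?_⟩
    rw [h1]
    exact T.mul_mem ha (T.inv_mem ha')
  have h4 : b' = b * (b⁻¹ * b') := by group
  rw [h4]
  exact Step1_Om_mul hbO h3

/-- Restriction to `Step1_P` of a right convolution. -/
theorem Step1_pr (hP : AlgPair K S T C' x y) {Z : L2 G →L[ℂ] L2 G} (hZ : IsLG Z)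
    (hZT : Supp (hat Z) (T : Set G)) {u : L2 G} (hu : Supp u (S : Set G)) :
    pr (Step1_P K S T x) (rm Z u) = rm Z (pr (Om K x)ᶜ u) := by
  have h1 : rm Z u = rm Z (pr (Om K x) u) + rm Z (pr (Om K x)ᶜ u) := by
    rw [← map_add, pr_add_pr_compl]
  rw [h1, map_add, pr_eq_zero (Supp.rm hZ hZT (hu.pr (Om K x))) (Step1_disj hP), zero_add]
  exact pr_eq_self (Supp.rm hZ hZT (hu.pr (Om K x)ᶜ))

theorem step1 (hP : AlgPair K S T C' x y) {U W : L2 G →L[ℂ] L2 G} (hU : IsLG U) (hW : IsLG W)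
    (hUS : Supp (hat U) (S : Set G)) (hWT : Supp (hat W) (T : Set G)) :
    ‖pr (Om K x)ᶜ (hat U)‖ ≤ ‖hat (U * (1 - W * star W))‖ +
      ‖W‖ * (‖hat (U * W - W * U)‖ + 2 * ‖U‖ * ‖pr (C' : Set G) (hat W)‖) := by
  set u2 := pr (Om K x)ᶜ (hat U) with hu2
  set wc := pr (C' : Set G) (hat W) with hwc
  set v2 := rm W u2 with hv2
  -- `v2` is the restriction of `U W`
  have hv : pr (Step1_P K S T x) (hat (U * W)) = v2 := by
    rw [← rm_hat hU hW]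
    exact Step1_pr hP hW hWT hUS
  have hUW : hat (U * W) = U wc + U (pr (C' : Set G)ᶜ (hat W)) := by
    rw [← map_add, hwc, pr_add_pr_compl]
    rfl
  have hWU : Supp (hat (W * U)) {g | ∃ a ∈ (T : Set G), ∃ b ∈ (S : Set G), g = a * b} :=
    Supp.applyLG hW hWT hUS
  -- the set `S2 C'`
  set Q : Set G := {g | ∃ b ∈ (S : Set G) ∩ (Om K x)ᶜ, ∃ a ∈ (C' : Set G), g = b * a} with hQ
  have hQwo : ∀ g ∈ {g | ∃ a ∈ (S : Set G), ∃ b ∈ (T : Set G) ∩ (C' : Set G)ᶜ, g = a * b},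
      g ∉ Step1_P K S T x ∩ Q := by
    rintro g ⟨a, ha, b, ⟨hbT, hbC⟩, rfl⟩ ⟨-, ⟨b', ⟨hbS', -⟩, c, hc, h⟩⟩
    apply hbC
    have h1 : b * c⁻¹ = a⁻¹ * b' := by
      have h2 : a * b * c⁻¹ = b' := by rw [h]; group
      rw [← h2]
      group
    have h3 : b * c⁻¹ ∈ K := by
      apply hP.ST
      refine Subgroup.mem_inf.2 ⟨?_, T.mul_mem hbT (T.inv_mem (hP.C'T hc))⟩
      rw [h1]
      exact S.mul_mem (S.inv_mem ha) hbS'
    have h4 : b = b * c⁻¹ * c := by group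
    rw [h4]
    exact C'.mul_mem (hP.KC' h3) hc
  have hQc : ∀ g ∈ {g | ∃ a ∈ (T : Set G), ∃ b ∈ (S : Set G), g = a * b},
      g ∉ Step1_P K S T x ∩ Qᶜ := by
    rintro g ⟨h', hh', g', hg', rfl⟩ ⟨⟨b, ⟨hbS, hbO⟩, a, haT, h⟩, hnQ⟩
    refine hP.r2 b hbS hbO a haT (fun haC => hnQ ⟨b, ⟨hbS, hbO⟩, a, haC, h⟩) h' hh' g' hg' h.symm
  have e1 : pr Q v2 = pr (Step1_P K S T x ∩ Q) (U wc) := by
    rw [← hv, pr_pr, Set.inter_comm, hUW, map_add,
      pr_eq_zero (Supp.applyLG hU hUS (hWT.pr (C' : Set G)ᶜ)) hQwo, add_zero]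
  have e2 : pr Qᶜ v2 = pr (Step1_P K S T x ∩ Qᶜ) (hat (U * W - W * U)) := by
    have h1 : hat (U * W - W * U) = hat (U * W) - hat (W * U) := rfl
    rw [h1, map_sub, pr_eq_zero hWU hQc, sub_zero, ← hv, pr_pr, Set.inter_comm]
  have hv2le : ‖v2‖ ≤ ‖hat (U * W - W * U)‖ + ‖U‖ * ‖wc‖ := by
    have h1 : ‖v2‖ ≤ ‖pr Q v2‖ + ‖pr Qᶜ v2‖ := by
      conv_lhs => rw [← pr_add_pr_compl Q v2]
      exact norm_add_le _ _
    have h2 : ‖pr Q v2‖ ≤ ‖U‖ * ‖wc‖ := by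
      rw [e1]
      exact (norm_pr_le _ _).trans (U.le_opNorm _)
    have h3 : ‖pr Qᶜ v2‖ ≤ ‖hat (U * W - W * U)‖ := by
      rw [e2]
      exact norm_pr_le _ _
    linarith
  -- the operator `1 - W W*`
  have hZ : IsLG (1 - W * star W) := isLG_one.sub (hW.mul hW.star)
  have hZT : Supp (hat (1 - W * star W)) (T : Set G) := by
    have h1 : hat (1 - W * star W) = dl 1 - W (hat (star W)) := rfl
    rw [h1]
    refine Supp.sub ((supp_dl 1).mono ?_) ((Supp.applyLG hW hWT (Supp.star hW hWT)).mono ?_)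
    · intro g hg
      rw [Set.mem_singleton_iff] at hg
      rw [hg]
      exact T.one_mem
    · rintro g ⟨a, ha, b, hb, rfl⟩
      exact T.mul_mem ha (by simpa using T.inv_mem hb)
  have h4 : ‖rm (1 - W * star W) u2‖ ≤ ‖hat (U * (1 - W * star W))‖ := by
    have h5 := Step1_pr hP hZ hZT hUS
    rw [rm_hat hU hZ] at h5
    rw [hu2, ← h5]
    exact norm_pr_le _ _
  have h6 : u2 = rm (1 - W * star W) u2 + rm (star W) v2 := by
    rw [rm_sub, rm_one, rm_mul, sub_add_cancel]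
  have h7 : ‖rm (star W) v2‖ ≤ ‖W‖ * ‖v2‖ := by
    have h10 := norm_rm_apply_le (star W) v2
    have h11 : ‖star W‖ = ‖W‖ := norm_star W
    rwa [h11] at h10
  have h8 : ‖u2‖ ≤ ‖rm (1 - W * star W) u2‖ + ‖rm (star W) v2‖ := by
    conv_lhs => rw [h6]
    exact norm_add_le _ _
  have h9 : ‖W‖ * ‖v2‖ ≤ ‖W‖ * (‖hat (U * W - W * U)‖ + 2 * ‖U‖ * ‖wc‖) := by
    refine mul_le_mul_of_nonneg_left (hv2le.trans ?_) (norm_nonneg _)
    have : 0 ≤ ‖U‖ * ‖wc‖ := mul_nonneg (norm_nonneg _) (norm_nonneg _)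
    linarith
  linarith

end Pool.Agent.H68.Amp
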