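import Pool.Agent.H68.Amp.Step1

set_option autoImplicit false

/-! # Step 2: a coset piece `b` of `U` with `b W` supported on `⟨y⟩K` -/

open scoped InnerProductSpace

namespace Pool.Agent.H68.Amp

variable {G : Type*} [Group G] {K S T C' : Subgroup G} {x y : G}

/-- `{y ^ l k | l ≠ 0, k ∈ K}`. -/
def Yst (K : Subgroup G) (y : G) : Set G := {g | ∃ l : ℤ, l ≠ 0 ∧ ∃ k ∈ K, g = y ^ l * k}

/-- Index set of the pieces. -/
abbrev Step2_I (K : Subgroup G) : Type _ := {s : G // s ∈ K} × {n : ℤ // n ≠ 0}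

/-- The left coset representatives. -/
def Step2_p (x : G) (i : Step2_I K) : G := i.1.1 * x ^ i.2.1

theorem Step2_p_inj (hP : AlgPair K S T C' x y) {i j : Step2_I K} {h h' : G} (hh : h ∈ T)
    (hh' : h' ∈ T) (he : Step2_p x i * h = Step2_p x j * h') : i = j ∧ h = h' := by
  obtain ⟨⟨s, hs⟩, ⟨n, hn⟩⟩ := i
  obtain ⟨⟨s', hs'⟩, ⟨m, hm⟩⟩ := j
  obtain ⟨h1, h2, h3⟩ := hP.r3 s hs s' hs' n m hn hm h hh h' hh' he
  subst h1
  subst h2
  exact ⟨rfl, h3⟩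

/-- The union of the translates of `A`. -/
def Step2_img (K : Subgroup G) (x : G) (A : Set G) : Set G :=
  {g | ∃ i : Step2_I K, ∃ a ∈ A, g = Step2_p x i * a}

theorem Step2_mem_img_K {g : G} : g ∈ Step2_img K x (K : Set G) ↔
    ∃ s ∈ K, ∃ n : ℤ, n ≠ 0 ∧ ∃ t ∈ K, g = s * x ^ n * t := by
  constructor
  · rintro ⟨⟨⟨s, hs⟩, ⟨n, hn⟩⟩, t, ht, rfl⟩
    exact ⟨s, hs, n, hn, t, ht, rfl⟩
  · rintro ⟨s, hs, n, hn, t, ht, rfl⟩
    exact ⟨⟨⟨s, hs⟩, ⟨n, hn⟩⟩, t, ht, rfl⟩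

theorem Step2_om_sub : Om K x \ K ⊆ Step2_img K x (K : Set G) := by
  rintro g ⟨⟨s, hs, t, ht, n, rfl⟩, hg⟩
  refine Step2_mem_img_K.2 ⟨s, hs, n, ?_, t, ht, rfl⟩
  rintro rfl
  apply hg
  simpa using K.mul_mem hs ht

/-- Decomposition of the norm along the pieces. -/
theorem Step2_hasSum (hP : AlgPair K S T C' x y) {A : Set G} (hA : A ⊆ (T : Set G)) (ζ : L2 G) :
    HasSum (fun i : Step2_I K => ‖pr A (lt (Step2_p x i)⁻¹ ζ)‖ ^ 2)
      (‖pr (Step2_img K x A) ζ‖ ^ 2) := by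
  classical
  let φ : Step2_I K × A → G := fun q => Step2_p x q.1 * q.2.1
  have hφ : Function.Injective φ := by
    rintro ⟨i, h, hh⟩ ⟨j, h', hh'⟩ he
    obtain ⟨h1, h2⟩ := Step2_p_inj hP (hA hh) (hA hh') he
    subst h1
    subst h2
    rfl
  have hs := L2_hasSum (pr (Step2_img K x A) ζ)
  have h0 : ∀ g, g ∉ Set.range φ → ‖pr (Step2_img K x A) ζ g‖ ^ 2 = 0 := by
    intro g hg
    rw [pr_apply_not]
    · simp
    · rintro ⟨i, a, ha, rfl⟩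
      exact hg ⟨(i, ⟨a, ha⟩), rfl⟩
  have h1 := (hφ.hasSum_iff h0).2 hs
  refine h1.prod_fiberwise fun i => ?_
  have h2 := L2_hasSum (pr A (lt (Step2_p x i)⁻¹ ζ))
  have h3 : ∀ g, g ∉ Set.range (Subtype.val : A → G) →
      ‖pr A (lt (Step2_p x i)⁻¹ ζ) g‖ ^ 2 = 0 := by
    intro g hg
    rw [pr_apply_not]
    · simp
    · intro hg'
      exact hg ⟨⟨g, hg'⟩, rfl⟩
  have h4 := (Subtype.val_injective.hasSum_iff h3).2 h2
  refine h4.congr_fun fun a => ?_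
  show ‖pr (Step2_img K x A) ζ (Step2_p x i * a.1)‖ ^ 2 = ‖pr A (lt (Step2_p x i)⁻¹ ζ) a.1‖ ^ 2
  rw [pr_apply_mem (A := Step2_img K x A) _ ⟨i, a.1, a.2, rfl⟩,
    pr_apply_mem _ a.2, lt_apply, inv_inv]

/-- The pieces of `ξ`. -/
noncomputable def Step2_b (K : Subgroup G) (x : G) (ξ : L2 G) (i : Step2_I K) : L2 G :=
  pr (K : Set G) (lt (Step2_p x i)⁻¹ ξ)

theorem Step2_KT (hP : AlgPair K S T C' x y) : K ≤ T := hP.KC'.trans hP.C'T

/-- Localization of right convolution. -/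
theorem Step2_loc (hP : AlgPair K S T C' x y) {ξ : L2 G} (hξ : Supp ξ (Om K x \ K))
    {Z : L2 G →L[ℂ] L2 G} (hZ : IsLG Z) (hZT : Supp (hat Z) (T : Set G)) (i : Step2_I K) {h : G}
    (hh : h ∈ T) : lt (Step2_p x i)⁻¹ (rm Z ξ) h = rm Z (Step2_b K x ξ i) h := by
  rw [← rm_lt hZ]
  have h1 := pr_add_pr_compl (K : Set G) (lt (Step2_p x i)⁻¹ ξ)
  conv_lhs => rw [← h1]
  rw [map_add, lp.coeFn_add, Pi.add_apply]
  have h2 : Supp (pr (K : Set G)ᶜ (lt (Step2_p x i)⁻¹ ξ))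
      {g | g ∉ K ∧ Step2_p x i * g ∈ Om K x \ K} := by
    intro g hg
    by_cases h3 : g ∈ K
    · exact pr_apply_not _ (by simpa using h3)
    · rw [pr_apply_mem _ (by simpa using h3), lt_apply, inv_inv]
      exact hξ _ fun h4 => hg ⟨h3, h4⟩
  have h3 := Supp.rm hZ hZT h2
  have h4 : rm Z (pr (K : Set G)ᶜ (lt (Step2_p x i)⁻¹ ξ)) h = 0 := by
    refine h3 h ?_
    rintro ⟨b, ⟨hb, hb'⟩, a, ha, rfl⟩
    have hbT : b ∈ T := by
      have := T.mul_mem hh (T.inv_mem ha)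
      simpa using this
    obtain ⟨j, t, ht, he⟩ := Step2_om_sub hb'
    have htK : t ∈ K := ht
    obtain ⟨-, h5⟩ := Step2_p_inj hP hbT (Step2_KT hP htK) he
    exact hb (h5 ▸ htK)
  rw [h4, add_zero]
  rfl

theorem Step2_sum (hP : AlgPair K S T C' x y) {ξ : L2 G} (hξ : Supp ξ (Om K x \ K))
    {Z : L2 G →L[ℂ] L2 G} (hZ : IsLG Z) (hZT : Supp (hat Z) (T : Set G)) {A : Set G}
    (hA : A ⊆ (T : Set G)) :
    HasSum (fun i : Step2_I K => ‖pr A (rm Z (Step2_b K x ξ i))‖ ^ 2)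
      (‖pr (Step2_img K x A) (rm Z ξ)‖ ^ 2) := by
  refine (Step2_hasSum hP hA (rm Z ξ)).congr_fun fun i => ?_
  have h1 : pr A (rm Z (Step2_b K x ξ i)) = pr A (lt (Step2_p x i)⁻¹ (rm Z ξ)) := by
    ext g
    by_cases hg : g ∈ A
    · rw [pr_apply_mem _ hg, pr_apply_mem _ hg, Step2_loc hP hξ hZ hZT i (hA hg)]
    · rw [pr_apply_not _ hg, pr_apply_not _ hg]
  rw [h1]

theorem Step2_supp_mul (hP : AlgPair K S T C' x y) {Z : L2 G →L[ℂ] L2 G} (hZ : IsLG Z)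
    (hZT : Supp (hat Z) (T : Set G)) {b : L2 G} (hb : Supp b (K : Set G)) :
    Supp (rm Z b) (T : Set G) := by
  refine (Supp.rm hZ hZT hb).mono ?_
  rintro g ⟨b, hb, a, ha, rfl⟩
  exact T.mul_mem (Step2_KT hP hb) ha

theorem Step2_suppZ (hP : AlgPair K S T C' x y) {W : L2 G →L[ℂ] L2 G} (hW : IsLG W)
    (hWT : Supp (hat W) (T : Set G)) : Supp (hat (1 - W * star W)) (T : Set G) := by
  have h1 : hat (1 - W * star W) = dl 1 - W (hat (star W)) := by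
    unfold hat
    rw [sub_apply, mul_apply_eq_comp]
    rfl
  rw [h1]
  refine Supp.sub ((supp_dl 1).mono ?_) ?_
  · rintro g rfl
    exact T.one_mem
  · refine (Supp.applyLG hW hWT (Supp.star hW hWT)).mono ?_
    rintro g ⟨a, ha, b, hb, rfl⟩
    have hb' : b ∈ T := by
      have := T.inv_mem (show b⁻¹ ∈ T from hb)
      simpa using this
    exact T.mul_mem ha hb'

/-- `⟨y⟩K`. -/
def Step2_yK (K : Subgroup G) (y : G) : Set G := {g | ∃ l : ℤ, ∃ k ∈ K, g = y ^ l * k}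

theorem Step2_b2 (hP : AlgPair K S T C' x y) {ξ : L2 G} (hξ : Supp ξ (Om K x \ K))
    {W : L2 G →L[ℂ] L2 G} (hW : IsLG W) (hWT : Supp (hat W) (T : Set G)) :
    ‖pr (Step2_img K x ((T : Set G) \ Step2_yK K y)) (rm W ξ)‖ ≤ ‖rm W ξ - W ξ‖ := by
  have h1 : pr (Step2_img K x ((T : Set G) \ Step2_yK K y)) (W ξ) = 0 := by
    refine pr_eq_zero (Supp.applyLG hW hWT hξ) ?_
    rintro g ⟨a, ha, b, hb, rfl⟩ ⟨⟨⟨s, hs⟩, ⟨n, hn⟩⟩, h, ⟨hT, hy⟩, he⟩
    obtain ⟨s', hs', m, hm, t, ht, rfl⟩ := Step2_mem_img_K.1 (Step2_om_sub hb)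
    refine hy (hP.r4 s hs n hn h hT (a * s') (T.mul_mem ha (Step2_KT hP hs')) m t ht ?_)
    have he' : a * (s' * x ^ m * t) = s * x ^ n * h := he
    rw [← he']
    group
  have h2 : pr (Step2_img K x ((T : Set G) \ Step2_yK K y)) (rm W ξ) =
      pr (Step2_img K x ((T : Set G) \ Step2_yK K y)) (rm W ξ - W ξ) := by
    rw [map_sub, h1, sub_zero]
  rw [h2]
  exact norm_pr_le _ _

theorem Step2_b3 (hP : AlgPair K S T C' x y) {U W : L2 G →L[ℂ] L2 G} (hU : IsLG U) (hW : IsLG W)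
    (hUS : Supp (hat U) (S : Set G)) (hWT : Supp (hat W) (T : Set G)) (ξ : L2 G) :
    ‖pr (Step2_img K x (K : Set G)) (rm W ξ)‖ ≤
      ‖U‖ * ‖pr (C' : Set G) (hat W)‖ + ‖W‖ * ‖hat U - ξ‖ := by
  have hS : Step2_img K x (K : Set G) ⊆ (S : Set G) := by
    rintro g ⟨⟨⟨s, hs⟩, ⟨n, hn⟩⟩, t, ht, rfl⟩
    exact S.mul_mem (S.mul_mem (hP.KS hs) (S.zpow_mem hP.xS n)) (hP.KS ht)
  have h1 : rm W ξ = U (pr (C' : Set G) (hat W)) + U (pr (C' : Set G)ᶜ (hat W)) -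
      rm W (hat U - ξ) := by
    rw [← map_add, pr_add_pr_compl, map_sub, rm_hat hU hW]
    unfold hat
    rw [mul_apply_eq_comp]
    abel
  have h2 : pr (Step2_img K x (K : Set G)) (U (pr (C' : Set G)ᶜ (hat W))) = 0 := by
    refine pr_eq_zero (Supp.applyLG hU hUS (hWT.pr (C' : Set G)ᶜ)) ?_
    rintro g ⟨a, ha, b, ⟨hb, hb'⟩, rfl⟩ hg
    have h3 : b ∈ S := by
      have := S.mul_mem (S.inv_mem ha) (hS hg)
      simpa using this
    exact hb' (hP.KC' (hP.ST ⟨h3, hb⟩))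
  have h3 : pr (Step2_img K x (K : Set G)) (rm W ξ) =
      pr (Step2_img K x (K : Set G)) (U (pr (C' : Set G) (hat W))) -
        pr (Step2_img K x (K : Set G)) (rm W (hat U - ξ)) := by
    rw [h1, map_sub, map_add, h2, add_zero]
  rw [h3]
  refine (norm_sub_le _ _).trans (add_le_add ?_ ?_)
  · exact (norm_pr_le _ _).trans (U.le_opNorm _)
  · exact (norm_pr_le _ _).trans (norm_rm_apply_le _ _)

theorem Step2_final (hP : AlgPair K S T C' x y) {d : L2 G} (hd : Supp d (T : Set G)) :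
    ‖d - pr (Yst K y) d‖ ^ 2 ≤
      ‖pr ((T : Set G) \ Step2_yK K y) d‖ ^ 2 + ‖pr (K : Set G) d‖ ^ 2 := by
  have h1 : d - pr (Yst K y) d = pr (Yst K y)ᶜ d := by
    rw [sub_eq_iff_eq_add, add_comm, pr_add_pr_compl]
  have hd1 : Supp (pr (Yst K y)ᶜ d) (((T : Set G) \ Step2_yK K y) ∪ K) := by
    intro g hg
    by_cases h2 : g ∈ Yst K y
    · exact pr_apply_not _ (by simpa using h2)
    · rw [pr_apply_mem _ (by simpa using h2)]
      refine hd g fun hT => hg ?_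
      by_cases h3 : g ∈ Step2_yK K y
      · obtain ⟨l, k, hk, rfl⟩ := h3
        right
        by_cases hl : l = 0
        · subst hl
          simpa using hk
        · exact absurd ⟨l, hl, k, hk, rfl⟩ h2
      · exact Or.inl ⟨hT, h3⟩
  have h2 : pr (Yst K y)ᶜ d = pr (Yst K y)ᶜ (pr (((T : Set G) \ Step2_yK K y) ∪ K) d) := by
    rw [← pr_eq_self hd1, pr_pr, pr_pr, Set.inter_comm]
  have h3 : pr (((T : Set G) \ Step2_yK K y) ∪ K) d =
      pr ((T : Set G) \ Step2_yK K y) d + pr (K : Set G) d := by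
    ext g
    rw [lp.coeFn_add, Pi.add_apply]
    have hKy : g ∈ (K : Set G) → g ∈ Step2_yK K y := fun h => ⟨0, g, h, by simp⟩
    by_cases hg : g ∈ (K : Set G)
    · rw [pr_apply_mem (A := ((T : Set G) \ Step2_yK K y) ∪ K) _ (Or.inr hg), pr_apply_mem _ hg,
        pr_apply_not, zero_add]
      exact fun h => h.2 (hKy hg)
    · by_cases hg' : g ∈ (T : Set G) \ Step2_yK K y
      · rw [pr_apply_mem (A := ((T : Set G) \ Step2_yK K y) ∪ K) _ (Or.inl hg'), pr_apply_not _ hg,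
          pr_apply_mem _ hg', add_zero]
      · rw [pr_apply_not (A := ((T : Set G) \ Step2_yK K y) ∪ K) _ (fun h => h.elim hg' hg),
          pr_apply_not _ hg, pr_apply_not _ hg',
          add_zero]
  rw [h1, ← norm_add_sq_of_disjoint (supp_pr ((T : Set G) \ Step2_yK K y) d)
    (supp_pr (K : Set G) d) (fun g h h' => h.2 ⟨0, g, h', by simp⟩), ← h3, h2]
  have h4 := norm_pr_le (Yst K y)ᶜ (pr (((T : Set G) \ Step2_yK K y) ∪ K) d)
  have h5 := norm_nonneg (pr (Yst K y)ᶜ (pr (((T : Set G) \ Step2_yK K y) ∪ K) d))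
  exact pow_le_pow_left₀ h5 h4 2

theorem step2 (hP : AlgPair K S T C' x y) {U W : L2 G →L[ℂ] L2 G} (hU : IsLG U) (hW : IsLG W)
    (hUS : Supp (hat U) (S : Set G)) (hWT : Supp (hat W) (T : Set G)) (ξ : L2 G)
    (hξ : ξ = pr (Om K x \ K) (hat U)) {η : ℝ} (hη : 0 < η)
    (hlt : ‖rm (1 - W * star W) ξ‖ ^ 2 + ‖rm W ξ - W ξ‖ ^ 2 +
      (‖U‖ * ‖pr (C' : Set G) (hat W)‖ + ‖W‖ * ‖hat U - ξ‖) ^ 2 < η ^ 2 * ‖ξ‖ ^ 2) :
    ∃ b : L2 G, Supp b (K : Set G) ∧ b ≠ 0 ∧ ‖rm (1 - W * star W) b‖ ≤ η * ‖b‖ ∧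
      ‖rm W b - pr (Yst K y) (rm W b)‖ ≤ η * ‖b‖ := by
  have hsξ : Supp ξ (Om K x \ K) := by
    rw [hξ]
    exact supp_pr _ _
  have hZ : IsLG (1 - W * star W) := isLG_one.sub (hW.mul hW.star)
  have hZT := Step2_suppZ hP hW hWT
  have hKT : (K : Set G) ⊆ (T : Set G) := Step2_KT hP
  have sa := Step2_sum hP hsξ hZ hZT (A := (T : Set G)) subset_rfl
  have sb := Step2_sum hP hsξ hW hWT (A := (T : Set G) \ Step2_yK K y) Set.sdiff_subset
  have sc := Step2_sum hP hsξ hW hWT (A := (K : Set G)) hKT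
  have s0 : HasSum (fun i : Step2_I K => ‖Step2_b K x ξ i‖ ^ 2) (‖ξ‖ ^ 2) := by
    have h1 := Step2_hasSum hP hKT ξ
    rwa [pr_eq_self (hsξ.mono Step2_om_sub)] at h1
  have hex : ∃ i : Step2_I K, ‖pr (T : Set G) (rm (1 - W * star W) (Step2_b K x ξ i))‖ ^ 2 +
      ‖pr ((T : Set G) \ Step2_yK K y) (rm W (Step2_b K x ξ i))‖ ^ 2 +
      ‖pr (K : Set G) (rm W (Step2_b K x ξ i))‖ ^ 2 < η ^ 2 * ‖Step2_b K x ξ i‖ ^ 2 := by
    by_contra hcon
    push Not at hcon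
    have h1 := hasSum_le hcon (s0.mul_left (η ^ 2)) ((sa.add sb).add sc)
    have h2 : ‖pr (Step2_img K x (T : Set G)) (rm (1 - W * star W) ξ)‖ ^ 2 ≤
        ‖rm (1 - W * star W) ξ‖ ^ 2 := pow_le_pow_left₀ (norm_nonneg _) (norm_pr_le _ _) 2
    have h3 := pow_le_pow_left₀ (norm_nonneg _) (Step2_b2 hP hsξ hW hWT) 2
    have h4 := pow_le_pow_left₀ (norm_nonneg _) (Step2_b3 hP hU hW hUS hWT ξ) 2
    linarith
  obtain ⟨i, hi⟩ := hex
  have hbK : Supp (Step2_b K x ξ i) (K : Set G) := supp_pr _ _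
  rw [pr_eq_self (Step2_supp_mul hP hZ hZT hbK)] at hi
  have hf := Step2_final hP (Step2_supp_mul hP hW hWT hbK) (d := rm W (Step2_b K x ξ i))
  have n1 := sq_nonneg ‖rm (1 - W * star W) (Step2_b K x ξ i)‖
  have n2 := sq_nonneg ‖pr ((T : Set G) \ Step2_yK K y) (rm W (Step2_b K x ξ i))‖
  have n3 := sq_nonneg ‖pr (K : Set G) (rm W (Step2_b K x ξ i))‖
  have n4 : 0 ≤ η * ‖Step2_b K x ξ i‖ := by positivity
  refine ⟨Step2_b K x ξ i, hbK, ?_, ?_, ?_⟩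
  · intro h0
    rw [h0] at hi
    simp at hi
  · refine (sq_le_sq₀ (norm_nonneg _) n4).1 ?_
    rw [mul_pow]
    linarith
  · refine (sq_le_sq₀ (norm_nonneg _) n4).1 ?_
    rw [mul_pow]
    linarith

end Pool.Agent.H68.Amp
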