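import Pool.Agent.H68.Amp.Final
import Pool.Agent.H68.Amp.UStmt

set_option autoImplicit false

/-! # The final theorem -/

open Filter Topology H80VN Matrix

namespace Pool.Agent.H68.Amp

section

variable {M : Type} [CStarAlgebra M] {τ : M →ₗ[ℂ] ℂ} (h : Stmt.IsTracialVN τ) (ω : Filter ℕ)

/-- The identity, from one description of the ultrapower to another. -/
noncomputable def toUltra : UPow h ω →⋆ₐ[ℂ] Ultra h ω where
  toFun := fun a => a
  map_one' := rfl
  map_mul' := fun _ _ => rfl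
  map_zero' := rfl
  map_add' := fun _ _ => rfl
  commutes' := fun _ => rfl
  map_star' := by
    intro a
    obtain ⟨x, rfl⟩ := UPow.mk_surjective h ω a
    rw [UPow.star_mk]
    rfl

theorem toUltra_injective : Function.Injective (toUltra h ω) := fun _ _ hab => hab

end

theorem final_amp :
    ∃ (M : Type) (_ : CStarAlgebra M) (τ : M →ₗ[ℂ] ℂ) (h : Stmt.IsII1Factor τ),
      (∀ ω : Ultrafilter ℕ, (ω : Filter ℕ) ≤ cofinite →
        ∀ (n : ℕ) (p : Matrix (Fin (n + 1)) (Fin (n + 1)) M) (hp : BigProj p),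
            ¬ CrnEmbeds p hp.toIsProj (UPow (vn h) (ω : Filter ℕ))) ∧
      ∀ t : ℝ, 1 < t → ∃ (n : ℕ) (p : Matrix (Fin (n + 1)) (Fin (n + 1)) M), BigProj p ∧
        TrMat τ p = t := by
  obtain ⟨M, _, τ, h, h1, h2⟩ := final
  refine ⟨M, inferInstance, τ, h, ?_, ?_⟩
  · rintro ω hω n p hp ⟨φ, hφ⟩
    refine h1 ω hω n p hp.sa hp.idem hp.ge hp.ne ⟨?_, ?_⟩
    · exact
        { toFun := fun a => toUltra (vn h) (ω : Filter ℕ) (φ ⟨a.1, a.2⟩)
          map_smul' := fun c a => by
            have h3 : φ ⟨(c • a).1, (c • a).2⟩ = c • φ ⟨a.1, a.2⟩ := map_smul φ c _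
            rw [h3, map_smul]
            rfl
          map_zero' := by
            have h3 : φ ⟨(0 : Corner p hp.sa hp.idem).1, (0 : Corner p hp.sa hp.idem).2⟩ = 0 :=
              map_zero φ
            rw [h3, map_zero]
          map_add' := fun a b => by
            have h3 : φ ⟨(a + b).1, (a + b).2⟩ = φ ⟨a.1, a.2⟩ + φ ⟨b.1, b.2⟩ := map_add φ _ _
            rw [h3, map_add]
          map_mul' := fun a b => by
            have h3 : φ ⟨(a * b).1, (a * b).2⟩ = φ ⟨a.1, a.2⟩ * φ ⟨b.1, b.2⟩ := map_mul φ _ _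
            rw [h3, map_mul]
          map_star' := fun a => by
            have h3 : φ ⟨(star a).1, (star a).2⟩ = star (φ ⟨a.1, a.2⟩) := map_star φ _
            rw [h3, map_star] }
    · show toUltra (vn h) (ω : Filter ℕ) (φ (Crn.unit p hp.toIsProj)) = 1
      rw [hφ, map_one]
  · intro t ht
    obtain ⟨n, p, h3, h4, h5, h6, h7⟩ := h2 t ht
    exact ⟨n, p, ⟨⟨h3, h4⟩, h5, h6⟩, h7⟩

end Pool.Agent.H68.Amp
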